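import Pool.Agent.Helper82.Nest.Local
import Pool.Agent.Helper92.Bulk.Main

/-! The gluing event in the plane: two circuits and a radial crossing. -/

namespace H82Nest
open Finset H47Perc
open Pool.Agent.Helper69.RSW (P P_nonneg P_mono P_congr P_indep P_restrict Dep Up harris)

/-- circuits in `k ≤ |z| ≤ 2k` and `2m ≤ |z| ≤ 4m` and a crossing from `|z| ≤ k` to `|z| = 4m` -/
def GG (k m : ℕ) (ω : Finset (Sym2 (ℤ × ℤ))) : Prop :=
  (Circ4 k ω ∧ Circ4 (2 * m : ℕ) ω) ∧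
    LR 0 (4 * m) (-k) k (ω ∩ edgesIn (box 0 (4 * m) (-k) k))

lemma GG_up (k m : ℕ) : Up (GG k m) :=
  ((circ4_up _).and (circ4_up _)).and (up_inter (up_LR _ _ _ _) _)

theorem GG_ge {c : ℝ} (hc : 0 < c) (hRSW : ∀ n : ℕ, 1 ≤ n → c ≤ pLR (6 * n) n)
    {c' : ℝ} (hc' : 0 < c') (hRSW' : ∀ n : ℕ, 1 ≤ n → c' ≤ pLR (12 * n) n)
    {k m n : ℕ} (hk : 1 ≤ k) (hkm : 2 * k ≤ m) (hmk : m ≤ 3 * k) (hn : 4 * m ≤ n) :
    c ^ 8 * c' ≤ perc half (box (-(n:ℤ)) n (-n) n) (GG k m) := by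
  set S := box (-(n:ℤ)) n (-n) n with hS
  have h1 := circ4_ge hc hRSW hk (S := S) (box_mono (by omega) (by omega) (by omega) (by omega))
  have h2 := circ4_ge hc hRSW (m := 2 * m) (by omega) (S := S)
    (box_mono (by push_cast; omega) (by push_cast; omega) (by push_cast; omega) (by push_cast; omega))
  have h3 : c' ≤ perc half S (fun ω => LR 0 (4 * m) (-k) k (ω ∩ edgesIn (box 0 (4 * m) (-k) k))) := by
    have e := perc_restrict (S := S) (T := box 0 (4 * (m:ℤ)) (-k) k)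
      (box_mono (by omega) (by omega) (by omega) (by omega)) (LR 0 (4 * m) (-k) k)
    rw [e, perc_LR]
    have e1 : (4 * (m:ℤ) - 0) ≤ 12 * k := by omega
    refine (hRSW' k hk).trans ((pLR_anti (by omega) e1 _).trans (pLR_height _ (by omega)))
  have u1 : Up (Circ4 (k:ℤ)) := circ4_up _
  have u2 : Up (Circ4 ((2 * m : ℕ):ℤ)) := circ4_up _
  have u3 : Up (fun ω => LR 0 (4 * m) (-k) k (ω ∩ edgesIn (box 0 (4 * m) (-k) k))) := up_inter (up_LR _ _ _ _) _
  have h4 := perc_harris S u1 u2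
  have h5 := perc_harris S (u1.and u2) u3
  have h6 : c ^ 4 * c ^ 4 ≤ perc half S (fun ω => Circ4 (k:ℤ) ω ∧ Circ4 ((2 * m : ℕ):ℤ) ω) :=
    (mul_le_mul h1 h2 (by positivity) (perc_half_nonneg _ _)).trans h4
  calc c ^ 8 * c' = c ^ 4 * c ^ 4 * c' := by ring
    _ ≤ _ := (mul_le_mul h6 h3 hc'.le (perc_half_nonneg _ _)).trans h5

theorem GG_det {k m n : ℕ} (hk : 1 ≤ k) (hkm : 2 * k ≤ m) (hn : 4 * m ≤ n) {ω : Finset (Sym2 (ℤ × ℤ))}
    (hω : ω ⊆ edgesIn (box (-(n:ℤ)) n (-n) n)) (hG : GG k m ω) {v z y : ℤ × ℤ} (hv : nrm v = m)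
    (hj1 : Joined ω (0, 0) v) (hz : nrm z = 2 * m) (hy : nrm y = n) (hj2 : Joined ω z y) :
    Joined ω (0, 0) y := by
  obtain ⟨⟨g1, g2⟩, ⟨a, a', r1, r2, r3, r4, hr⟩⟩ := hG
  have eD : ω ∩ edgesIn (box (-(n:ℤ)) n (-n) n) = ω := inter_eq_left.2 hω
  obtain ⟨κ1, hκ1⟩ := barrier_full (D := box (-(n:ℤ)) n (-n) n) (m := (k:ℤ)) (by omega)
    (box_mono (by omega) (by omega) (by omega) (by omega)) g1
  obtain ⟨κ2, hκ2⟩ := barrier_full (D := box (-(n:ℤ)) n (-n) n) (m := ((2 * m : ℕ):ℤ)) (by push_cast; omega)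
    (box_mono (by push_cast; omega) (by push_cast; omega) (by push_cast; omega) (by push_cast; omega)) g2
  rw [eD] at hκ1 hκ2
  have hr' : Joined ω (0, a) (4 * (m:ℤ), a') := joined_mono inter_subset_left hr
  have n1 : nrm ((0, a) : ℤ × ℤ) ≤ k := by
    rw [nrm_le]
    simp only [abs_zero, abs_le]
    omega
  have n2 : nrm ((4 * (m:ℤ), a') : ℤ × ℤ) = 4 * m := by
    unfold nrm
    simp only
    rw [abs_of_nonneg (by positivity)]
    apply max_eq_left
    rw [abs_le]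
    omega
  have k1 := hκ1 (0, a) (4 * (m:ℤ), a') n1 (by rw [n2]; omega) hr'
  have k2 := hκ1 (0, 0) v (by rw [nrm_le]; simp) (by rw [hv]; omega) hj1
  have k3 := hκ2 (0, a) (4 * (m:ℤ), a') (by push_cast; omega) (by rw [n2]; push_cast; omega) hr'
  have k4 := hκ2 z y (by rw [hz]; push_cast; omega) (by rw [hy]; push_cast; omega) hj2
  exact joined_trans (joined_symm k2) (joined_trans k1 (joined_trans (joined_symm k3) (joined_trans k4 hj2)))

/-- for `m = 1`: all edges of the box of radius `2` are open -/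
def G1 (ω : Finset (Sym2 (ℤ × ℤ))) : Prop := edgesIn (box (-2) 2 (-2) 2) ⊆ ω

lemma G1_up : Up G1 := fun _ _ h h1 => h1.trans h

theorem G1_ge {n : ℕ} (hn : 4 ≤ n) : (1 / 2 : ℝ) ^ #(edgesIn (box (-2) 2 (-2) 2)) ≤
    perc half (box (-(n:ℤ)) n (-n) n) G1 := by
  classical
  have hsub : box (-2) 2 (-2) 2 ⊆ box (-(n:ℤ)) n (-n) n :=
    box_mono (by omega) (by omega) (by omega) (by omega)
  have e := perc_restrict (S := box (-(n:ℤ)) n (-n) n) (T := box (-2) 2 (-2) 2) hsub G1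
  have e2 : perc half (box (-(n:ℤ)) n (-n) n) (fun ω => G1 (ω ∩ edgesIn (box (-2) 2 (-2) 2))) =
      perc half (box (-(n:ℤ)) n (-n) n) G1 := by
    congr 1
    funext ω
    unfold G1
    rw [eq_iff_iff]
    exact ⟨fun h => h.trans inter_subset_left, fun h => subset_inter h subset_rfl⟩
  rw [← e2, e, Pool.Agent.Helper69.RSW.perc_half_eq]
  unfold P
  rw [one_div, inv_pow, ← one_div]
  apply div_le_div_of_nonneg_right _ (by positivity)
  norm_cast
  apply card_pos.2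
  refine ⟨edgesIn (box (-2) 2 (-2) 2), ?_⟩
  rw [mem_filter]
  exact ⟨mem_powerset_self _, subset_rfl⟩

theorem G1_det {ω : Finset (Sym2 (ℤ × ℤ))} (hG : G1 ω) {z : ℤ × ℤ} (hz : nrm z = 2) : Joined ω (0, 0) z := by
  -- along the axis, then parallel to the other axis
  have hz2 : |z.1| ≤ 2 ∧ |z.2| ≤ 2 := nrm_le.1 hz.le
  rw [abs_le, abs_le] at hz2
  have key : ∀ u v : ℤ × ℤ, lattice.Adj u v → (-2 ≤ u.1 ∧ u.1 ≤ 2) → (-2 ≤ u.2 ∧ u.2 ≤ 2) →
      (-2 ≤ v.1 ∧ v.1 ≤ 2) → (-2 ≤ v.2 ∧ v.2 ≤ 2) → Joined ω u v := by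
    intro u v h h1 h2 h3 h4
    apply SimpleGraph.Adj.reachable
    rw [SimpleGraph.fromEdgeSet_adj]
    refine ⟨?_, h.ne⟩
    apply hG
    rw [mem_edgesIn, mem_box, mem_box]
    exact ⟨⟨h1.1, h1.2, h2.1, h2.2⟩, ⟨h3.1, h3.2, h4.1, h4.2⟩, h⟩
  have hxp : ∀ j : ℕ, (j:ℤ) ≤ 2 → ∀ y : ℤ, -2 ≤ y → y ≤ 2 → Joined ω (0, y) ((j:ℤ), y) ∧
      Joined ω (0, y) (-(j:ℤ), y) := by
    intro j
    induction j with
    | zero => intro _ y _ _; simp only [Nat.cast_zero, neg_zero]; exact ⟨joined_refl _ _, joined_refl _ _⟩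
    | succ j ih =>
      intro hj y hy1 hy2
      push_cast at hj
      obtain ⟨i1, i2⟩ := ih (by omega) y hy1 hy2
      constructor
      · refine joined_trans i1 (key _ _ ?_ ?_ ?_ ?_ ?_)
        · right
          simp only
          refine ⟨trivial, ?_⟩
          push_cast
          rw [show (j:ℤ) - (j + 1) = -1 by ring]
          rfl
        all_goals simp only; push_cast; omega
      · refine joined_trans i2 (key _ _ ?_ ?_ ?_ ?_ ?_)
        · right
          simp only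
          refine ⟨trivial, ?_⟩
          push_cast
          rw [show -(j:ℤ) - -(j + 1) = 1 by ring]
          rfl
        all_goals simp only; push_cast; omega
  have hyp : ∀ j : ℕ, (j:ℤ) ≤ 2 → Joined ω (0, 0) (0, (j:ℤ)) ∧ Joined ω (0, 0) (0, -(j:ℤ)) := by
    intro j
    induction j with
    | zero => intro _; simp only [Nat.cast_zero, neg_zero]; exact ⟨joined_refl _ _, joined_refl _ _⟩
    | succ j ih =>
      intro hj
      push_cast at hj
      obtain ⟨i1, i2⟩ := ih (by omega)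
      constructor
      · refine joined_trans i1 (key _ _ ?_ ?_ ?_ ?_ ?_)
        · left
          simp only
          refine ⟨trivial, ?_⟩
          push_cast
          rw [show (j:ℤ) - (j + 1) = -1 by ring]
          rfl
        all_goals simp only; push_cast; first | omega | exact ⟨by norm_num, by norm_num⟩
      · refine joined_trans i2 (key _ _ ?_ ?_ ?_ ?_ ?_)
        · left
          simp only
          refine ⟨trivial, ?_⟩
          push_cast
          rw [show -(j:ℤ) - -(j + 1) = 1 by ring]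
          rfl
        all_goals simp only; push_cast; first | omega | exact ⟨by norm_num, by norm_num⟩
  have hy : Joined ω (0, 0) (0, z.2) := by
    rcases le_total 0 z.2 with h | h
    · have := (hyp z.2.toNat (by omega)).1
      rwa [Int.toNat_of_nonneg h] at this
    · have := (hyp (-z.2).toNat (by omega)).2
      rwa [Int.toNat_of_nonneg (by omega), neg_neg] at this
  refine joined_trans hy ?_
  rcases le_total 0 z.1 with h | h
  · have := (hxp z.1.toNat (by omega) z.2 hz2.2.1 hz2.2.2).1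
    rwa [Int.toNat_of_nonneg h] at this
  · have := (hxp (-z.1).toNat (by omega) z.2 hz2.2.1 hz2.2.2).2
    rwa [Int.toNat_of_nonneg (by omega), neg_neg] at this

/-- the gluing event for all `m ≥ 1` -/
theorem glue_event : ∃ c : ℝ, 0 < c ∧ ∀ m n : ℕ, 1 ≤ m → 4 * m ≤ n →
    ∃ G : Finset (Sym2 (ℤ × ℤ)) → Prop, Up G ∧ c ≤ P (edgesIn (fullAnn ((0:ℕ):ℤ) n)) G ∧
      ∀ ω ⊆ edgesIn (fullAnn ((0:ℕ):ℤ) n), G ω → ∀ v z y : ℤ × ℤ, nrm v = m → Joined ω (0, 0) v → nrm z = 2 * m →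
        nrm y = n → Joined ω z y → Joined ω (0, 0) y := by
  obtain ⟨c, hc, h6⟩ := H46.rsw_pLR 6
  obtain ⟨c', hc', h12⟩ := H46.rsw_pLR 12
  have h6' : ∀ n : ℕ, 1 ≤ n → c ≤ pLR (6 * n) n := fun n hn => by exact_mod_cast h6 n hn
  have h12' : ∀ n : ℕ, 1 ≤ n → c' ≤ pLR (12 * n) n := fun n hn => by exact_mod_cast h12 n hn
  set e : ℝ := (1 / 2 : ℝ) ^ #(edgesIn (box (-2) 2 (-2) 2)) with he
  have he0 : 0 < e := by positivity
  refine ⟨min (c ^ 8 * c') e, lt_min (by positivity) he0, fun m n hm hn => ?_⟩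
  have hbox : fullAnn ((0:ℕ):ℤ) (n:ℤ) = box (-(n:ℤ)) n (-n) n := by rw [Nat.cast_zero, fullAnn_zero]
  rw [hbox]
  rcases Nat.lt_or_ge m 2 with h2 | h2
  · have hm1 : m = 1 := by omega
    subst hm1
    refine ⟨G1, G1_up, ?_, fun ω _ hG v z y _ _ hz _ hj => joined_trans (G1_det hG (by rw [hz]; norm_num)) hj⟩
    rw [← Pool.Agent.Helper69.RSW.perc_half_eq]
    exact (min_le_right _ _).trans (G1_ge (by omega))
  · refine ⟨GG (m / 2) m, GG_up _ _, ?_, fun ω hω hG v z y hv hj1 hz hy hj2 =>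
      GG_det (k := m / 2) (m := m) (n := n) (by omega) (by omega) hn hω hG hv hj1 hz hy hj2⟩
    rw [← Pool.Agent.Helper69.RSW.perc_half_eq]
    exact (min_le_left _ _).trans (GG_ge hc h6' hc' h12' (by omega) (by omega) (by omega) hn)

end H82Nest
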