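import Pool.Agent.Helper82.Nest.Res

/-! Superadditivity and independence of the numbers of colour changes. -/

namespace H82Nest
open Finset H47Perc
open Pool.Agent.Helper69.RSW (P P_nonneg P_mono P_congr P_indep P_restrict Dep Up)

/-- independence -/
lemma Ex_indep {E : Type*} [DecidableEq E] {F G H : Finset E} (hG : G ⊆ F) (hH : H ⊆ F) (hGH : Disjoint G H)
    {f g : Finset E → ℕ} (u v : ℕ → ℝ) (hf : ∀ ω, f (ω ∩ G) = f ω) (hg : ∀ ω, g (ω ∩ H) = g ω) :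
    Ex F (fun ω => u (f ω) * v (g ω)) = Ex F (fun ω => u (f ω)) * Ex F (fun ω => v (g ω)) := by
  classical
  rw [Ex_fiber F (fun ω => (f ω, g ω)) (F.powerset.image f ×ˢ F.powerset.image g)
      (fun ω hω => mem_product.2 ⟨mem_image_of_mem _ (mem_powerset.2 hω), mem_image_of_mem _ (mem_powerset.2 hω)⟩)
      _ (fun p => u p.1 * v p.2) (fun _ _ => rfl),
    Ex_fiber F f (F.powerset.image f) (fun ω hω => mem_image_of_mem _ (mem_powerset.2 hω)) _ u (fun _ _ => rfl),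
    Ex_fiber F g (F.powerset.image g) (fun ω hω => mem_image_of_mem _ (mem_powerset.2 hω)) _ v (fun _ _ => rfl),
    sum_mul_sum, sum_product]
  apply sum_congr rfl
  intro i _
  apply sum_congr rfl
  intro j _
  have h := P_indep (F := F) hG hH hGH (A := fun ω => f ω = i) (B := fun ω => g ω = j)
    (fun S => by simp only [hf]) (fun S => by simp only [hg])
  have h2 : P F (fun ω => (f ω, g ω) = (i, j)) = P F (fun ω => f ω = i ∧ g ω = j) := by
    apply P_congr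
    intro ω _
    rw [Prod.mk.injEq]
  simp only
  rw [h2, h]
  ring

lemma no_two {m x y : ℤ} (hm : 1 ≤ m) (e : |x - y| = 1) (h1 : m ≤ |x|) (h2 : m ≤ |y|) (h3 : |x| ≤ m)
    (h4 : |y| ≤ m) : False := by
  rw [abs_eq (by norm_num)] at e
  rw [le_abs] at h1 h2
  rw [abs_le] at h3 h4
  omega

lemma vert_face {m a x y : ℤ} (hm : 1 ≤ m) {f : ℤ × ℤ} (e : |x - y| = 1) (ha : |a| = m) (hx : |x| ≤ m)
    (hy : |y| ≤ m) (c1 : Cor (a, x) f) (c2 : Cor (a, y) f) (hf : ∀ x, Cor x f → m ≤ nrm x) :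
    f = (if 0 < a then a else a - 1, min x y) := by
  obtain ⟨p, q⟩ := f
  have h2 : q = min x y := by
    obtain ⟨_, c1⟩ := c1
    obtain ⟨_, c2⟩ := c2
    simp only at c1 c2
    rw [abs_eq (by norm_num)] at e
    omega
  have key : ∀ b : ℤ, (b = p ∨ b = p + 1) → |b| < m → False := by
    intro b hb hbm
    have g1 := hf (b, x) ⟨hb, c1.2⟩
    have g2 := hf (b, y) ⟨hb, c2.2⟩
    rw [le_nrm] at g1 g2
    simp only at g1 g2
    exact no_two hm e (g1.resolve_left (not_le.2 hbm)) (g2.resolve_left (not_le.2 hbm)) hx hy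
  have h3 := c1.1
  simp only at h3
  rw [abs_eq (by omega)] at ha
  ext
  · simp only
    split_ifs with h0
    · by_contra hne
      refine key (a - 1) (Or.inl (by omega)) ?_
      rw [abs_lt]
      omega
    · by_contra hne
      refine key (a + 1) (Or.inr (by omega)) ?_
      rw [abs_lt]
      omega
  · exact h2

lemma horz_face {m a x y : ℤ} (hm : 1 ≤ m) {f : ℤ × ℤ} (e : |x - y| = 1) (ha : |a| = m) (hx : |x| ≤ m)
    (hy : |y| ≤ m) (c1 : Cor (x, a) f) (c2 : Cor (y, a) f) (hf : ∀ x, Cor x f → m ≤ nrm x) :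
    f = (min x y, if 0 < a then a else a - 1) := by
  obtain ⟨q, p⟩ := f
  have h2 : q = min x y := by
    obtain ⟨c1, _⟩ := c1
    obtain ⟨c2, _⟩ := c2
    simp only at c1 c2
    rw [abs_eq (by norm_num)] at e
    omega
  have key : ∀ b : ℤ, (b = p ∨ b = p + 1) → |b| < m → False := by
    intro b hb hbm
    have g1 := hf (x, b) ⟨c1.1, hb⟩
    have g2 := hf (y, b) ⟨c2.1, hb⟩
    rw [le_nrm] at g1 g2
    simp only at g1 g2
    exact no_two hm e (g1.resolve_right (not_le.2 hbm)) (g2.resolve_right (not_le.2 hbm)) hx hy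
  have h3 := c1.2
  simp only at h3
  rw [abs_eq (by omega)] at ha
  ext
  · exact h2
  · simp only
    split_ifs with h0
    · by_contra hne
      refine key (a - 1) (Or.inl (by omega)) ?_
      rw [abs_lt]
      omega
    · by_contra hne
      refine key (a + 1) (Or.inr (by omega)) ?_
      rw [abs_lt]
      omega

/-- the two faces at an edge of the sphere: only one is outside -/
lemma face_unique {m : ℤ} (hm : 1 ≤ m) {f g u v : ℤ × ℤ} (h : lattice.Adj u v) (hu : nrm u = m) (hv : nrm v = m)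
    (c1 : Cor u f) (c2 : Cor v f) (c3 : Cor u g) (c4 : Cor v g)
    (hf : ∀ x, Cor x f → m ≤ nrm x) (hg : ∀ x, Cor x g → m ≤ nrm x) : f = g := by
  have u1 := nrm_le.1 hu.le
  have u2 := le_nrm.1 hu.ge
  have v1 := nrm_le.1 hv.le
  have v2 := le_nrm.1 hv.ge
  unfold lattice at h
  obtain ⟨x1, x2⟩ := u
  obtain ⟨y1, y2⟩ := v
  simp only at h u1 u2 v1 v2
  rcases h with ⟨e1, e2⟩ | ⟨e1, e2⟩
  · subst e1
    have h1 : |x1| = m := by
      apply le_antisymm u1.1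
      by_contra h
      exact no_two hm e2 (u2.resolve_left h) (v2.resolve_left h) u1.2 v1.2
    rw [vert_face hm e2 h1 u1.2 v1.2 c1 c2 hf, vert_face hm e2 h1 u1.2 v1.2 c3 c4 hg]
  · subst e1
    have h1 : |x2| = m := by
      apply le_antisymm u1.2
      by_contra h
      exact no_two hm e2 (u2.resolve_right h) (v2.resolve_right h) u1.1 v1.1
    rw [horz_face hm e2 h1 u1.1 v1.1 c1 c2 hf, horz_face hm e2 h1 u1.1 v1.1 c3 c4 hg]

/-- the edges of the inner sphere do not matter -/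
lemma reach_sph {m n : ℤ} (hm : 1 ≤ m) {O O' : Set (Sym2 (ℤ × ℤ))}
    (hO : ∀ u v, lattice.Adj u v → ¬ (nrm u = m ∧ nrm v = m) → m ≤ nrm u → nrm u ≤ n → m ≤ nrm v → nrm v ≤ n →
      (s(u, v) ∈ O ↔ s(u, v) ∈ O')) {k : ℕ} {p : Pt} (h : Reach O (AS m n) (Sph m) k p) :
    ∃ j ≤ k, Reach O' (AS m n) (Sph m) j p := by
  induction h with
  | start hp hs => exact ⟨0, le_rfl, Reach.start hp hs⟩
  | @opn k u v h hadj ho hs ih =>
    by_cases h1 : nrm u = m ∧ nrm v = m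
    · exact ⟨0, by omega, Reach.start (Sph_v.2 h1.2) hs⟩
    · obtain ⟨j, hj, hr⟩ := ih
      have h2 := h.mem
      have h3 := hs
      rw [AS_v] at h2 h3
      exact ⟨j, hj, Reach.opn hr hadj ((hO u v hadj h1 h2.1 h2.2 h3.1 h3.2).1 ho) hs⟩
  | @cls k f g u v h hadj ho c1 c2 c3 c4 hs ih =>
    obtain ⟨j, hj, hr⟩ := ih
    have h2 := h.mem
    have h3 := hs
    rw [AS_f] at h2 h3
    by_cases h1 : nrm u = m ∧ nrm v = m
    · have := face_unique hm hadj h1.1 h1.2 c1 c2 c3 c4 (fun x hx => (h2 x hx).1) (fun x hx => (h3 x hx).1)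
      subst this
      exact ⟨j, hj, hr⟩
    · exact ⟨j, hj, Reach.cls hr hadj (fun h' => ho ((hO u v hadj h1 (h2 u c1).1 (h2 u c1).2 (h2 v c2).1
        (h2 v c2).2).2 h')) c1 c2 c3 c4 hs⟩
  | dn _ hc hs ih =>
    obtain ⟨j, hj, hr⟩ := ih
    exact ⟨j + 1, by omega, Reach.dn hr hc hs⟩
  | up _ hc hs ih =>
    obtain ⟨j, hj, hr⟩ := ih
    exact ⟨j + 1, by omega, Reach.up hr hc hs⟩

lemma cc_sph_le {m n : ℕ} (hm : 1 ≤ m) (hmn : m ≤ n) {ω ω' : Finset (Sym2 (ℤ × ℤ))}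
    (hO : ∀ u v, lattice.Adj u v → ¬ (nrm u = m ∧ nrm v = m) → m ≤ nrm u → nrm u ≤ n → m ≤ nrm v → nrm v ≤ n →
      (s(u, v) ∈ ω ↔ s(u, v) ∈ ω')) : cc m n ω' ≤ cc m n ω := by
  obtain ⟨v, hv, hr⟩ := cc_spec hmn ω
  obtain ⟨j, hj, hr'⟩ := reach_sph (O' := (ω' : Set (Sym2 (ℤ × ℤ)))) (by exact_mod_cast hm)
    (fun u v a b c d e f => by rw [mem_coe, mem_coe]; exact hO u v a b c d e f) hr
  exact (cc_le hv hr').trans hj

/-- the edges of the annulus which are not in the ball -/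
noncomputable def Hout (m n : ℕ) : Finset (Sym2 (ℤ × ℤ)) :=
  edgesIn (fullAnn (m:ℤ) n) \ edgesIn (fullAnn ((0:ℕ):ℤ) m)

lemma cc_hout {m n : ℕ} (hm : 1 ≤ m) (hmn : m ≤ n) (ω : Finset (Sym2 (ℤ × ℤ))) :
    cc m n (ω ∩ Hout m n) = cc m n ω := by
  have key : ∀ u v, lattice.Adj u v → ¬ (nrm u = m ∧ nrm v = m) → m ≤ nrm u → nrm u ≤ n → m ≤ nrm v →
      nrm v ≤ n → (s(u, v) ∈ ω ∩ Hout m n ↔ s(u, v) ∈ ω) := by
    intro u v h h1 h2 h3 h4 h5
    rw [mem_inter, and_iff_left_iff_imp]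
    intro _
    unfold Hout
    rw [mem_sdiff, mem_edgesIn, mem_edgesIn, mem_fullAnn, mem_fullAnn, mem_fullAnn, mem_fullAnn]
    refine ⟨⟨⟨h2, h3⟩, ⟨h4, h5⟩, h⟩, ?_⟩
    rintro ⟨⟨_, a⟩, ⟨_, b⟩, _⟩
    exact h1 ⟨le_antisymm a h2, le_antisymm b h4⟩
  apply le_antisymm
  · exact cc_sph_le hm hmn (fun u v a b c d e f => (key u v a b c d e f).symm)
  · exact cc_sph_le hm hmn key

/-- superadditivity, deterministic -/
lemma cc_add_aux {m n : ℕ} (hm : 1 ≤ m) {ω : Finset (Sym2 (ℤ × ℤ))} {k : ℕ} {p : Pt}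
    (h : Reach (ω : Set (Sym2 (ℤ × ℤ))) (AS 0 n) (Sph 0) k p) :
    (p ∈ AS 0 m → (Reach (ω : Set (Sym2 (ℤ × ℤ))) (AS 0 m) (Sph 0) k p ∨ cc 0 m ω ≤ k + 1)) ∧
    (p ∈ AS m n → cc 0 m ω ≤ k + 1 ∧ ∃ j, Reach (ω : Set (Sym2 (ℤ × ℤ))) (AS m n) (Sph m) j p ∧
      cc 0 m ω + j ≤ k + 2) := by
  have hm' : (1:ℤ) ≤ m := by exact_mod_cast hm
  have nn : ∀ u : ℤ × ℤ, 0 ≤ nrm u := fun u => by
    unfold nrm
    exact le_max_of_le_left (abs_nonneg _)
  have fin : ∀ {v : ℤ × ℤ} {k : ℕ}, nrm v = m →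
      (Reach (ω : Set (Sym2 (ℤ × ℤ))) (AS 0 m) (Sph 0) k (v, false) ∨ cc 0 m ω ≤ k + 1) → cc 0 m ω ≤ k + 1 := by
    intro v k hv hr
    rcases hr with hr | hr
    · exact (cc_le (m := 0) hv hr).trans (by omega)
    · exact hr
  induction h with
  | @start p hp hs =>
    refine ⟨fun h1 => Or.inl (Reach.start hp h1), fun h1 => ?_⟩
    obtain ⟨u, b⟩ := p
    obtain ⟨rfl, h3⟩ := hp
    rw [AS_v] at h1
    simp only at h3
    omega
  | @opn k u v h hadj ho hs ih =>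
    have hu := h.mem
    have a1 := adj_nrm hadj
    have a2 := adj_nrm hadj.symm
    have hs' := hs
    rw [AS_v] at hu hs'
    by_cases h1 : nrm u < m
    · have i1 := ih.1 (AS_v.2 ⟨nn _, h1.le⟩)
      have hv1 : nrm v ≤ m := by omega
      have i2 : Reach (ω : Set (Sym2 (ℤ × ℤ))) (AS 0 m) (Sph 0) k (v, false) ∨ cc 0 m ω ≤ k + 1 :=
        i1.imp (fun hr => Reach.opn hr hadj ho (AS_v.2 ⟨nn _, hv1⟩)) id
      refine ⟨fun _ => i2, fun h2 => ?_⟩
      have h3 : nrm v = m := by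
        rw [AS_v] at h2
        omega
      have h4 := fin h3 i2
      exact ⟨h4, 0, Reach.start (Sph_v.2 h3) h2, by omega⟩
    · have i1 := ih.2 (AS_v.2 ⟨by omega, hu.2⟩)
      obtain ⟨i2, j, i3, i4⟩ := i1
      refine ⟨fun _ => Or.inr i2, fun h2 => ⟨i2, j, Reach.opn i3 hadj ho h2, i4⟩⟩
  | @cls k f g u v h hadj ho c1 c2 c3 c4 hs ih =>
    have hf := h.mem
    rw [AS_f] at hf
    by_cases h1 : ((f, true) : Pt) ∈ AS m n
    · obtain ⟨i2, j, i3, i4⟩ := ih.2 h1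
      exact ⟨fun _ => Or.inr i2, fun h2 => ⟨i2, j, Reach.cls i3 hadj ho c1 c2 c3 c4 h2, i4⟩⟩
    · rw [AS_f] at h1
      push Not at h1
      obtain ⟨x, hx, h3⟩ := h1
      have hxm : nrm x < m := by
        by_contra h4
        exact absurd (hf x hx).2 (not_le.2 (h3 (not_lt.1 h4)))
      have h4 : ((f, true) : Pt) ∈ AS 0 m := by
        rw [AS_f]
        intro y hy
        exact ⟨nn _, by have := nrm_cor hy hx; omega⟩
      have i1 := ih.1 h4
      refine ⟨fun h5 => i1.imp (fun hr => Reach.cls hr hadj ho c1 c2 c3 c4 h5) id, fun h5 => ?_⟩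
      rw [AS_f] at h4
      have h6 := AS_f.1 h5
      have h7 : nrm u = m := le_antisymm (h4 u c1).2 (h6 u c3).1
      have h8 : cc 0 m ω ≤ k + 1 := by
        rcases i1 with hr | hr
        · exact cc_le (m := 0) h7 (Reach.up hr c1 (AS_v.2 ⟨nn _, h7.le⟩))
        · exact hr
      exact ⟨h8, 1, Reach.dn (Reach.start (Sph_v.2 h7) (AS_v.2 (h6 u c3))) c3 h5, by omega⟩
  | @dn k u f h hc hs ih =>
    have hu := h.mem
    rw [AS_v] at hu
    constructor
    · intro h1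
      have h2 := AS_f.1 h1 u hc
      exact (ih.1 (AS_v.2 h2)).imp (fun hr => Reach.dn hr hc h1) (fun h => by omega)
    · intro h1
      have h2 := AS_f.1 h1 u hc
      obtain ⟨i2, j, i3, i4⟩ := ih.2 (AS_v.2 h2)
      exact ⟨by omega, j + 1, Reach.dn i3 hc h1, by omega⟩
  | @up k u f h hc hs ih =>
    have hf := h.mem
    rw [AS_f] at hf
    by_cases h1 : ((f, true) : Pt) ∈ AS m n
    · obtain ⟨i2, j, i3, i4⟩ := ih.2 h1
      exact ⟨fun _ => Or.inr (by omega), fun h2 => ⟨by omega, j + 1, Reach.up i3 hc h2, by omega⟩⟩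
    · rw [AS_f] at h1
      push Not at h1
      obtain ⟨x, hx, h3⟩ := h1
      have hxm : nrm x < m := by
        by_contra h4
        exact absurd (hf x hx).2 (not_le.2 (h3 (not_lt.1 h4)))
      have h4 : ((f, true) : Pt) ∈ AS 0 m := by
        rw [AS_f]
        intro y hy
        exact ⟨nn _, by have := nrm_cor hy hx; omega⟩
      have h5 := AS_f.1 h4 u hc
      have i1 := (ih.1 h4).imp (fun hr => Reach.up hr hc (AS_v.2 h5)) (fun h => (show cc 0 m ω ≤ k + 1 + 1 by omega))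
      refine ⟨fun _ => i1, fun h6 => ?_⟩
      have h7 : nrm u = m := le_antisymm h5.2 (AS_v.1 h6).1
      have h8 := fin h7 i1
      exact ⟨h8, 0, Reach.start (Sph_v.2 h7) h6, by omega⟩

theorem cc_add {m n : ℕ} (hm : 1 ≤ m) (hmn : m ≤ n) (ω : Finset (Sym2 (ℤ × ℤ))) :
    cc 0 m ω + cc m n ω ≤ cc 0 n ω + 2 := by
  obtain ⟨v, hv, hr⟩ := cc_spec (Nat.zero_le n) ω
  obtain ⟨_, j, h1, h2⟩ := (cc_add_aux hm hr).2 (AS_v.2 ⟨by rw [hv]; exact_mod_cast hmn, hv.le⟩)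
  have := cc_le hv h1
  omega

/-- change of the inner radius, deterministic -/
lemma cc_inner_aux {m m' n : ℤ} (hmm : m ≤ m') {O : Set (Sym2 (ℤ × ℤ))} {k : ℕ} {p : Pt}
    (h : Reach O (AS m n) (Sph m) k p) (hp : p ∈ AS m' n) : ∃ j ≤ k + 1, Reach O (AS m' n) (Sph m') j p := by
  induction h with
  | @start p h1 h2 =>
    obtain ⟨u, b⟩ := p
    obtain ⟨rfl, h3⟩ := h1
    have h4 := AS_v.1 hp
    simp only at h3
    refine ⟨0, by omega, Reach.start (Sph_v.2 ?_) hp⟩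
    omega
  | @opn k u v h hadj ho hs ih =>
    have hu := h.mem
    have a1 := adj_nrm hadj
    have a2 := adj_nrm hadj.symm
    rw [AS_v] at hu
    by_cases h1 : m' ≤ nrm u
    · obtain ⟨j, hj, hr⟩ := ih (AS_v.2 ⟨h1, hu.2⟩)
      exact ⟨j, hj, Reach.opn hr hadj ho hp⟩
    · have h4 := AS_v.1 hp
      exact ⟨0, by omega, Reach.start (Sph_v.2 (by omega)) hp⟩
  | @cls k f g u v h hadj ho c1 c2 c3 c4 hs ih =>
    have hf := h.mem
    rw [AS_f] at hf
    by_cases h1 : ((f, true) : Pt) ∈ AS m' n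
    · obtain ⟨j, hj, hr⟩ := ih h1
      exact ⟨j, hj, Reach.cls hr hadj ho c1 c2 c3 c4 hp⟩
    · rw [AS_f] at h1
      push Not at h1
      obtain ⟨x, hx, h3⟩ := h1
      have hxm : nrm x < m' := by
        by_contra h4
        exact absurd (hf x hx).2 (not_le.2 (h3 (not_lt.1 h4)))
      have h6 := AS_f.1 hp u c3
      have h7 : nrm u = m' := by
        have := nrm_cor c1 hx
        omega
      exact ⟨1, by omega, Reach.dn (Reach.start (Sph_v.2 h7) (AS_v.2 h6)) c3 hp⟩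
  | @dn k u f h hc hs ih =>
    obtain ⟨j, hj, hr⟩ := ih (AS_v.2 (AS_f.1 hp u hc))
    exact ⟨j + 1, by omega, Reach.dn hr hc hp⟩
  | @up k u f h hc hs ih =>
    have hf := h.mem
    rw [AS_f] at hf
    by_cases h1 : ((f, true) : Pt) ∈ AS m' n
    · obtain ⟨j, hj, hr⟩ := ih h1
      exact ⟨j + 1, by omega, Reach.up hr hc hp⟩
    · rw [AS_f] at h1
      push Not at h1
      obtain ⟨x, hx, h3⟩ := h1
      have hxm : nrm x < m' := by
        by_contra h4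
        exact absurd (hf x hx).2 (not_le.2 (h3 (not_lt.1 h4)))
      have h6 := AS_v.1 hp
      have h7 : nrm u = m' := by
        have := nrm_cor hc hx
        omega
      exact ⟨0, by omega, Reach.start (Sph_v.2 h7) hp⟩

theorem cc_inner {m m' n : ℕ} (hm : m ≤ m') (hmn : m' ≤ n) (ω : Finset (Sym2 (ℤ × ℤ))) :
    cc m' n ω ≤ cc m n ω + 1 := by
  obtain ⟨v, hv, hr⟩ := cc_spec (hm.trans hmn) ω
  obtain ⟨j, hj, h1⟩ := cc_inner_aux (m' := m') (by exact_mod_cast hm) hr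
    (AS_v.2 ⟨by rw [hv]; exact_mod_cast hmn, hv.le⟩)
  exact (cc_le hv h1).trans hj

theorem cc_super {w : ℝ} (hw : 0 < w) (hw1 : w ≤ 1) {m n : ℕ} (hm : 1 ≤ m) (hmn : m ≤ n) :
    ex 0 n (fun ω => w ^ cc 0 n ω) ≤
      w⁻¹ ^ 2 * (ex 0 m (fun ω => w ^ cc 0 m ω) * ex m n (fun ω => w ^ cc m n ω)) := by
  set F := edgesIn (fullAnn ((0:ℕ):ℤ) n) with hF
  have e1 : ex 0 m (fun ω => w ^ cc 0 m ω) = Ex F (fun ω => w ^ cc 0 m ω) := by
    rw [← ex_restrict (le_refl 0) hmn (fun k => w ^ k), ex_eq]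
  have e2 : ex m n (fun ω => w ^ cc m n ω) = Ex F (fun ω => w ^ cc m n ω) := by
    rw [← ex_restrict (Nat.zero_le m) (le_refl n) (fun k => w ^ k), ex_eq]
  have e3 : Ex F (fun ω => w ^ cc 0 m ω) * Ex F (fun ω => w ^ cc m n ω) =
      Ex F (fun ω => w ^ cc 0 m ω * w ^ cc m n ω) := by
    symm
    apply Ex_indep (G := edgesIn (fullAnn ((0:ℕ):ℤ) m)) (H := Hout m n)
      (edgesIn_mono' (fullAnn_mono le_rfl (by omega)))
      (sdiff_subset.trans (edgesIn_mono' (fullAnn_mono (by positivity) le_rfl)))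
      disjoint_sdiff (fun k => w ^ k) (fun k => w ^ k)
    · intro ω; rw [cc_inter]
    · intro ω; rw [cc_hout hm hmn]
  rw [e1, e2, e3, ex_eq, ← Ex_mul]
  apply Ex_mono
  intro ω _
  have h := cc_add hm hmn ω
  rw [← pow_add]
  have h2 : w ^ (cc 0 n ω + 2) ≤ w ^ (cc 0 m ω + cc m n ω) := pow_le_pow_of_le_one hw.le hw1 h
  rw [pow_add] at h2
  rw [inv_pow, ← div_eq_inv_mul, le_div_iff₀ (by positivity)]
  exact h2

theorem cc_anti {w : ℝ} (hw : 0 < w) (hw1 : w ≤ 1) {m m' n : ℕ} (hm : m ≤ m') (hmn : m' ≤ n) :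
    ex m n (fun ω => w ^ cc m n ω) ≤ w⁻¹ * ex m' n (fun ω => w ^ cc m' n ω) := by
  rw [← ex_restrict hm (le_refl n) (fun k => w ^ k), ex_eq, ex_eq, ← Ex_mul]
  apply Ex_mono
  intro ω _
  have h := cc_inner hm hmn ω
  have h2 : w ^ (cc m n ω + 1) ≤ w ^ cc m' n ω := pow_le_pow_of_le_one hw.le hw1 h
  rw [pow_succ] at h2
  rw [← div_eq_inv_mul, le_div_iff₀ hw]
  exact h2

end H82Nest
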