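import Pool.Agent.Helper12.Nest.ExplGen
import Pool.Agent.Helper82.Nest.Glue2
import Pool.Agent.Helper82.Nest.Super

/-! (D2) exploration in the plane from both sides: quasi-multiplicativity. -/

namespace H82Nest
open Finset H47Perc
open Pool.Agent.Helper69.RSW (P P_nonneg P_mono P_congr P_indep P_restrict Dep Up harris P_add_of_disjoint)

lemma rc_spec {m n : ℕ} (h : m ≤ n) (ω : Finset (Sym2 (ℤ × ℤ))) :
    ∃ v : ℤ × ℤ, nrm v = m ∧ Reach (ω : Set (Sym2 (ℤ × ℤ))) (AS m n) (Sph n) (rc m n ω) (v, false) := by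
  rw [rc_eq]
  obtain ⟨v, hv, hr⟩ := cc_spec h ω
  obtain ⟨⟨a, b⟩, ha, hr'⟩ := hr.rev
  obtain ⟨h1, h2⟩ := ha
  simp only at h1 h2
  subst h1
  refine ⟨a, h2, hr'.mono subset_rfl ?_⟩
  rintro p hp
  rw [Set.mem_singleton_iff] at hp
  subst hp
  exact Sph_v.2 hv

lemma rc_le {m n k : ℕ} {ω : Finset (Sym2 (ℤ × ℤ))} {v : ℤ × ℤ} (hv : nrm v = m)
    (h : Reach (ω : Set (Sym2 (ℤ × ℤ))) (AS m n) (Sph n) k (v, false)) : rc m n ω ≤ k :=
  Nat.sInf_le ⟨v, hv, h⟩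

/-- ball of radius `j` -/
def Ball (O : Set (Sym2 (ℤ × ℤ))) (S A : Set Pt) (j : ℕ) : Set Pt := {p | ∃ k ≤ j, Reach O S A k p}

lemma ball_congr {O O' : Set (Sym2 (ℤ × ℤ))} {S A B : Set Pt} {j : ℕ} (hO : ∀ e, TchB B e → (e ∈ O ↔ e ∈ O'))
    (hB : Ball O S A j ⊆ B) : Ball O' S A j = Ball O S A j := by
  ext p
  have h1 : ∀ i ≤ j, ∀ q, Reach O S A i q → q ∈ B := fun i hi q hq => hB ⟨i, hi, hq⟩
  constructor
  · rintro ⟨k, hk, h⟩
    exact ⟨k, hk, (reach_local hO h1 hk).2 h⟩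
  · rintro ⟨k, hk, h⟩
    exact ⟨k, hk, (reach_local hO h1 hk).1 h⟩

/-- a face of the box containing a given edge of the box -/
lemma face_of_edge {n : ℤ} (hn : 1 ≤ n) {x y : ℤ × ℤ} (h : lattice.Adj x y) (hx : nrm x ≤ n) (hy : nrm y ≤ n) :
    ∃ f, Cor x f ∧ Cor y f ∧ ((f, true) : Pt) ∈ AS 0 n := by
  have h1 := nrm_le.1 hx
  have h2 := nrm_le.1 hy
  rw [abs_le, abs_le] at h1 h2
  have hAS : ∀ f : ℤ × ℤ, -n ≤ f.1 → f.1 + 1 ≤ n → -n ≤ f.2 → f.2 + 1 ≤ n → ((f, true) : Pt) ∈ AS 0 n := by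
    intro f a1 a2 a3 a4
    rw [AS_f]
    rintro u ⟨c1, c2⟩
    constructor
    · unfold nrm
      exact le_max_of_le_left (abs_nonneg _)
    · rw [nrm_le, abs_le, abs_le]
      omega
  unfold lattice at h
  simp only [abs_eq (show (0:ℤ) ≤ 1 by norm_num)] at h
  obtain ⟨x1, x2⟩ := x
  obtain ⟨y1, y2⟩ := y
  simp only at h h1 h2
  rcases h with ⟨e1, e2⟩ | ⟨e1, e2⟩
  · by_cases h3 : 1 ≤ x1
    · refine ⟨(x1 - 1, min x2 y2), ⟨?_, ?_⟩, ⟨?_, ?_⟩, hAS _ ?_ ?_ ?_ ?_⟩ <;> simp only <;> omega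
    · refine ⟨(x1, min x2 y2), ⟨?_, ?_⟩, ⟨?_, ?_⟩, hAS _ ?_ ?_ ?_ ?_⟩ <;> simp only <;>
        first | omega | exact Or.inl trivial
  · by_cases h3 : 1 ≤ x2
    · refine ⟨(min x1 y1, x2 - 1), ⟨?_, ?_⟩, ⟨?_, ?_⟩, hAS _ ?_ ?_ ?_ ?_⟩ <;> simp only <;> omega
    · refine ⟨(min x1 y1, x2), ⟨?_, ?_⟩, ⟨?_, ?_⟩, hAS _ ?_ ?_ ?_ ?_⟩ <;> simp only <;>
        first | omega | exact Or.inl trivial

/-- endpoints of an edge touching a ball are reached with two more colour changes -/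
lemma tch_reach {O : Set (Sym2 (ℤ × ℤ))} {S A : Set Pt} {n : ℤ} (hn : 1 ≤ n) (hS : S ⊆ AS 0 n) {j : ℕ}
    {x y : ℤ × ℤ} (h : lattice.Adj x y) (hx : nrm x ≤ n) (hy : nrm y ≤ n) (ht : TchB (Ball O S A j) s(x, y)) :
    ∃ k ≤ j + 2, Reach O (AS 0 n) A k (x, false) := by
  have nn : ∀ u : ℤ × ℤ, 0 ≤ nrm u := fun u => by
    unfold nrm
    exact le_max_of_le_left (abs_nonneg _)
  rcases ht with ⟨u, hu, k, hk, hr⟩ | ⟨f, ⟨k, hk, hr⟩, hf⟩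
  · rcases Sym2.mem_iff.1 hu with rfl | rfl
    · exact ⟨k, by omega, hr.mono hS subset_rfl⟩
    · obtain ⟨f, c1, c2, hf⟩ := face_of_edge hn h hx hy
      exact ⟨k + 1 + 1, by omega, Reach.up (Reach.dn (hr.mono hS subset_rfl) c2 hf) c1 (AS_v.2 ⟨nn _, hx⟩)⟩
  · exact ⟨k + 1, by omega, Reach.up (hr.mono hS subset_rfl) (hf x (Sym2.mem_mk_left _ _)) (AS_v.2 ⟨nn _, hx⟩)⟩

lemma nb_reach {O : Set (Sym2 (ℤ × ℤ))} {S A : Set Pt} {n : ℤ} (hS : S ⊆ AS 0 n) {j : ℕ}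
    {x : ℤ × ℤ} (hx : nrm x ≤ n) (ht : x ∈ Nb (Ball O S A j)) :
    ∃ k ≤ j + 2, Reach O (AS 0 n) A k (x, false) := by
  have nn : ∀ u : ℤ × ℤ, 0 ≤ nrm u := fun u => by
    unfold nrm
    exact le_max_of_le_left (abs_nonneg _)
  rcases ht with ⟨k, hk, hr⟩ | ⟨f, ⟨k, hk, hr⟩, hf⟩
  · exact ⟨k, by omega, hr.mono hS subset_rfl⟩
  · exact ⟨k + 1, by omega, Reach.up (hr.mono hS subset_rfl) hf (AS_v.2 ⟨nn _, hx⟩)⟩

lemma AS_sub {m n m' n' : ℤ} (h : m' ≤ m) (h' : n ≤ n') : AS m n ⊆ AS m' n' := by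
  rintro p ⟨h1, h2⟩
  refine ⟨fun hp => ?_, fun hp u hu => ?_⟩
  · have := h1 hp
    omega
  · have := h2 hp u hu
    omega

section
open Classical in
/-- deterministic part: the gluing event in the modified configuration gives a cheap path -/
theorem det2 {m n : ℕ} (hm : 1 ≤ m) (hn : 4 * m ≤ n) {ω : Finset (Sym2 (ℤ × ℤ))}
    (hω : ω ⊆ edgesIn (fullAnn ((0:ℕ):ℤ) n)) {G : Finset (Sym2 (ℤ × ℤ)) → Prop} (hG : Up G)
    (hdet : ∀ ω ⊆ edgesIn (fullAnn ((0:ℕ):ℤ) n), G ω → ∀ v z y : ℤ × ℤ, nrm v = m → Joined ω (0, 0) v →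
      nrm z = 2 * m → nrm y = n → Joined ω z y → Joined ω (0, 0) y)
    {T : Finset (Sym2 (ℤ × ℤ))} (hT : ∀ e ∈ T, e ∈ edgesIn (fullAnn ((0:ℕ):ℤ) n) ∧
      (TchB (Ball ω (AS 0 m) (Sph 0) (cc 0 m ω)) e ∨ TchB (Ball ω (AS (2 * m : ℕ) n) (Sph n) (rc (2 * m) n ω)) e))
    (h : G (ω ∪ T)) : cc 0 n ω ≤ cc 0 m ω + rc (2 * m) n ω + 4 := by
  set F := edgesIn (fullAnn ((0:ℕ):ℤ) n) with hF
  set U := Ball ω (AS 0 m) (Sph 0) (cc 0 m ω) with hU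
  set V := Ball ω (AS (2 * m : ℕ) n) (Sph n) (rc (2 * m) n ω) with hV
  set T2 := F.filter (fun e => (∀ x ∈ e, x ∈ Nb U) ∨ (∀ x ∈ e, x ∈ Nb V)) with hT2
  set ω' := (ω ∪ T) ∪ T2 with hω'
  have hTF : T ⊆ F := fun e he => (hT e he).1
  have hω'F : ω' ⊆ F := union_subset (union_subset hω hTF) (filter_subset _ _)
  have hG' : G ω' := hG _ _ subset_union_left h
  have nn : ∀ u : ℤ × ℤ, 0 ≤ nrm u := fun u => by
    unfold nrm
    exact le_max_of_le_left (abs_nonneg _)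
  have memF : ∀ u v : ℤ × ℤ, s(u, v) ∈ F ↔ (nrm u ≤ n ∧ nrm v ≤ n ∧ lattice.Adj u v) := by
    intro u v
    rw [hF, mem_edgesIn, mem_fullAnn, mem_fullAnn]
    constructor
    · rintro ⟨h1, h2, h3⟩
      exact ⟨h1.2, h2.2, h3⟩
    · rintro ⟨h1, h2, h3⟩
      exact ⟨⟨nn _, h1⟩, ⟨nn _, h2⟩, h3⟩
  have hS1 : AS 0 (m:ℤ) ⊆ AS 0 (n:ℤ) := AS_sub le_rfl (by omega)
  have hS2 : AS ((2 * m : ℕ):ℤ) (n:ℤ) ⊆ AS 0 (n:ℤ) := AS_sub (by positivity) le_rfl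
  -- inner arm
  obtain ⟨v, hv, hr⟩ := cc_spec (Nat.zero_le m) ω
  have arm1 : Joined ω' (0, 0) v := by
    obtain ⟨a, ha, hp⟩ := hr.primal (B := U) (V := {u | nrm u ≤ m}) (j := cc 0 m ω)
      (fun u hu => (AS_v.1 hu).2) (fun f hf u hu => (AS_f.1 hf u hu).2) (fun p hp => hp.1)
      (fun i hi q hq => ⟨i, hi, hq⟩) le_rfl
    have ha0 : a = (0, 0) := nrm_eq_zero.1 (by have := Sph_v.1 ha; simpa using this)
    subst ha0
    have hp' := hp v (Or.inl rfl)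
    clear hp hr hv
    induction hp' with
    | refl => exact joined_refl _ _
    | @tail b c _ h2 ih =>
      refine joined_trans ih (SimpleGraph.Adj.reachable ?_)
      rw [SimpleGraph.fromEdgeSet_adj]
      refine ⟨?_, h2.1.ne⟩
      rw [mem_coe, hω', mem_union, hT2, mem_filter, memF]
      right
      have e1 : nrm b ≤ m := h2.2.1.2
      have e2 : nrm c ≤ m := h2.2.2.2
      refine ⟨⟨by omega, by omega, h2.1⟩, Or.inl fun x hx => ?_⟩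
      rcases Sym2.mem_iff.1 hx with rfl | rfl
      · exact h2.2.1.1
      · exact h2.2.2.1
  -- outer arm
  obtain ⟨z, hz, hr2⟩ := rc_spec (m := 2 * m) (n := n) (by omega) ω
  obtain ⟨y, hy, arm2⟩ : ∃ y, nrm y = n ∧ Joined ω' z y := by
    obtain ⟨a, ha, hp⟩ := hr2.primal (B := V) (V := {u | nrm u ≤ n}) (j := rc (2 * m) n ω)
      (fun u hu => (AS_v.1 hu).2) (fun f hf u hu => (AS_f.1 hf u hu).2) (fun p hp => hp.1)
      (fun i hi q hq => ⟨i, hi, hq⟩) le_rfl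
    refine ⟨a, Sph_v.1 ha, ?_⟩
    have hp' := hp z (Or.inl rfl)
    apply joined_symm
    clear hp hr2 hz
    induction hp' with
    | refl => exact joined_refl _ _
    | @tail b c _ h2 ih =>
      refine joined_trans ih (SimpleGraph.Adj.reachable ?_)
      rw [SimpleGraph.fromEdgeSet_adj]
      refine ⟨?_, h2.1.ne⟩
      rw [mem_coe, hω', mem_union, hT2, mem_filter, memF]
      right
      refine ⟨⟨h2.2.1.2, h2.2.2.2, h2.1⟩, Or.inr fun x hx => ?_⟩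
      rcases Sym2.mem_iff.1 hx with rfl | rfl
      · exact h2.2.1.1
      · exact h2.2.2.1
  have hJ : Joined ω' (0, 0) y := hdet ω' hω'F hG' v z y hv arm1 (by rw [hz]; push_cast; ring) hy arm2
  -- walk along the path
  set d1 := cc 0 m ω with hd1
  set d2 := rc (2 * m) n ω with hd2
  have hn1 : (1:ℤ) ≤ n := by omega
  have key : ∀ a b : ℤ × ℤ, (SimpleGraph.fromEdgeSet (ω' : Set (Sym2 (ℤ × ℤ)))).Walk a b → nrm b = n →
      (∃ k ≤ d1 + 2, Reach (ω : Set (Sym2 (ℤ × ℤ))) (AS 0 n) (Sph 0) k (a, false)) →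
      ∃ x, (∃ k ≤ d1 + 2, Reach (ω : Set (Sym2 (ℤ × ℤ))) (AS 0 n) (Sph 0) k (x, false)) ∧
        ∃ k ≤ d2 + 2, Reach (ω : Set (Sym2 (ℤ × ℤ))) (AS 0 n) (Sph n) k (x, false) := by
    intro a b p
    induction p with
    | nil =>
      intro hb ha
      exact ⟨_, ha, 0, by omega, Reach.start (Sph_v.2 hb) (AS_v.2 ⟨nn _, hb.le⟩)⟩
    | @cons a c b hadj _ ih =>
      intro hb ha
      rw [SimpleGraph.fromEdgeSet_adj] at hadj
      have hmem := hadj.1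
      have hF1 := (memF a c).1 (hω'F hmem)
      rw [mem_coe, hω', mem_union, mem_union] at hmem
      rcases hmem with (hmem | hmem) | hmem
      · apply ih hb
        obtain ⟨k, hk, hk'⟩ := ha
        exact ⟨k, hk, Reach.opn hk' hF1.2.2 hmem (AS_v.2 ⟨nn _, hF1.2.1⟩)⟩
      · rcases (hT _ hmem).2 with ht | ht
        · apply ih hb
          rw [Sym2.eq_swap] at ht
          exact tch_reach hn1 hS1 hF1.2.2.symm hF1.2.1 hF1.1 ht
        · exact ⟨a, ha, tch_reach hn1 hS2 hF1.2.2 hF1.1 hF1.2.1 ht⟩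
      · rw [hT2, mem_filter] at hmem
        rcases hmem.2 with ht | ht
        · exact ih hb (nb_reach hS1 hF1.2.1 (ht c (Sym2.mem_mk_right _ _)))
        · exact ⟨a, ha, nb_reach hS2 hF1.1 (ht a (Sym2.mem_mk_left _ _))⟩
  obtain ⟨p⟩ := hJ
  obtain ⟨x, ⟨k1, hk1, r1⟩, ⟨k2, hk2, r2⟩⟩ := key _ _ p hy ⟨0, by omega,
    Reach.start (Sph_v.2 (by simp [nrm])) (AS_v.2 ⟨by simp [nrm], by simp [nrm]⟩)⟩
  obtain ⟨⟨a, b⟩, ha, r3⟩ := r2.rev
  obtain ⟨e1, e2⟩ := ha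
  simp only at e1 e2
  subst e1
  have r4 := r3.append (j := k1) (A := Sph 0) (fun p hp _ => by
    rw [Set.mem_singleton_iff] at hp
    subst hp
    exact r1)
  have h5 := cc_le (m := 0) e2 r4
  omega
end


/-- the ball data determine themselves -/
lemma cc_local {m n : ℕ} (h : m ≤ n) {ω ω' : Finset (Sym2 (ℤ × ℤ))}
    (hO : ∀ e, TchB (Ball ω (AS m n) (Sph m) (cc m n ω)) e → (e ∈ (ω : Set (Sym2 (ℤ × ℤ))) ↔ e ∈ (ω' : Set (Sym2 (ℤ × ℤ))))) :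
    cc m n ω' = cc m n ω := by
  have h1 : ∀ i ≤ cc m n ω, ∀ q, Reach (ω : Set (Sym2 (ℤ × ℤ))) (AS m n) (Sph m) i q →
      q ∈ Ball ω (AS m n) (Sph m) (cc m n ω) := fun i hi q hq => ⟨i, hi, hq⟩
  apply le_antisymm
  · obtain ⟨v, hv, hr⟩ := cc_spec h ω
    exact cc_le hv ((reach_local hO h1 le_rfl).1 hr)
  · by_contra hlt
    push Not at hlt
    obtain ⟨v, hv, hr⟩ := cc_spec h ω'
    exact absurd (cc_le hv ((reach_local hO h1 hlt.le).2 hr)) (not_le.2 hlt)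

lemma rc_local {m n : ℕ} (h : m ≤ n) {ω ω' : Finset (Sym2 (ℤ × ℤ))}
    (hO : ∀ e, TchB (Ball ω (AS m n) (Sph n) (rc m n ω)) e → (e ∈ (ω : Set (Sym2 (ℤ × ℤ))) ↔ e ∈ (ω' : Set (Sym2 (ℤ × ℤ))))) :
    rc m n ω' = rc m n ω := by
  have h1 : ∀ i ≤ rc m n ω, ∀ q, Reach (ω : Set (Sym2 (ℤ × ℤ))) (AS m n) (Sph n) i q →
      q ∈ Ball ω (AS m n) (Sph n) (rc m n ω) := fun i hi q hq => ⟨i, hi, hq⟩
  apply le_antisymm
  · obtain ⟨v, hv, hr⟩ := rc_spec h ω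
    exact rc_le hv ((reach_local hO h1 le_rfl).1 hr)
  · by_contra hlt
    push Not at hlt
    obtain ⟨v, hv, hr⟩ := rc_spec h ω'
    exact absurd (rc_le hv ((reach_local hO h1 hlt.le).2 hr)) (not_le.2 hlt)

section
open Classical in
/-- the probability bound for fixed numbers of colour changes -/
theorem glue_prob {m n : ℕ} (hm : 1 ≤ m) (hn : 4 * m ≤ n) {G : Finset (Sym2 (ℤ × ℤ)) → Prop} (hG : Up G)
    (hdet : ∀ ω ⊆ edgesIn (fullAnn ((0:ℕ):ℤ) n), G ω → ∀ v z y : ℤ × ℤ, nrm v = m → Joined ω (0, 0) v →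
      nrm z = 2 * m → nrm y = n → Joined ω z y → Joined ω (0, 0) y) (d1 d2 : ℕ) :
    P (edgesIn (fullAnn ((0:ℕ):ℤ) n)) G *
      P (edgesIn (fullAnn ((0:ℕ):ℤ) n)) (fun ω => cc 0 m ω = d1 ∧ rc (2 * m) n ω = d2) ≤
      P (edgesIn (fullAnn ((0:ℕ):ℤ) n)) (fun ω => (cc 0 m ω = d1 ∧ rc (2 * m) n ω = d2) ∧
        cc 0 n ω ≤ d1 + d2 + 4) := by
  set F := edgesIn (fullAnn ((0:ℕ):ℤ) n) with hF
  set X : Finset (Sym2 (ℤ × ℤ)) → ℕ × ℕ × Set Pt × Set Pt := fun ω => (cc 0 m ω, rc (2 * m) n ω,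
    Ball ω (AS 0 m) (Sph 0) (cc 0 m ω), Ball ω (AS (2 * m : ℕ) n) (Sph n) (rc (2 * m) n ω)) with hX
  set T : ℕ × ℕ × Set Pt × Set Pt → Finset (Sym2 (ℤ × ℤ)) := fun x =>
    F.filter (fun e => TchB x.2.2.1 e ∨ TchB x.2.2.2 e) with hT
  have h1 : ∀ ω ω' : Finset (Sym2 (ℤ × ℤ)), ω ⊆ F → ω' ⊆ F → ω ∩ T (X ω) = ω' ∩ T (X ω) → X ω' = X ω := by
    intro ω ω' hω hω' he
    have hO : ∀ e, (TchB (X ω).2.2.1 e ∨ TchB (X ω).2.2.2 e) →
        (e ∈ (ω : Set (Sym2 (ℤ × ℤ))) ↔ e ∈ (ω' : Set (Sym2 (ℤ × ℤ)))) := by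
      intro e ht
      rw [mem_coe, mem_coe]
      by_cases heF : e ∈ F
      · have h2 : e ∈ T (X ω) := mem_filter.2 ⟨heF, ht⟩
        constructor
        · intro h
          exact (mem_inter.1 (he ▸ mem_inter.2 ⟨h, h2⟩)).1
        · intro h
          exact (mem_inter.1 (he.symm ▸ mem_inter.2 ⟨h, h2⟩)).1
      · exact ⟨fun h => absurd (hω h) heF, fun h => absurd (hω' h) heF⟩
    have a1 : cc 0 m ω' = cc 0 m ω := cc_local (Nat.zero_le m) (fun e ht => hO e (Or.inl ht))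
    have a2 : rc (2 * m) n ω' = rc (2 * m) n ω := rc_local (by omega) (fun e ht => hO e (Or.inr ht))
    have a3 : Ball ω' (AS 0 m) (Sph 0) (cc 0 m ω) = Ball ω (AS 0 m) (Sph 0) (cc 0 m ω) :=
      ball_congr (B := Ball ω (AS 0 m) (Sph 0) (cc 0 m ω)) (fun e ht => hO e (Or.inl ht)) subset_rfl
    have a4 : Ball ω' (AS (2 * m : ℕ) n) (Sph n) (rc (2 * m) n ω) =
        Ball ω (AS (2 * m : ℕ) n) (Sph n) (rc (2 * m) n ω) :=
      ball_congr (B := Ball ω (AS (2 * m : ℕ) n) (Sph n) (rc (2 * m) n ω)) (fun e ht => hO e (Or.inr ht)) subset_rfl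
    simp only [hX]
    rw [a1, a2, a3, a4]
  have h2 := expl_gen F X T h1 hG (Bad := fun ω => ¬ cc 0 n ω ≤ cc 0 m ω + rc (2 * m) n ω + 4)
    (Y := fun x => x.1 = d1 ∧ x.2.1 = d2) (fun ω hω _ hb hg => hb
      (det2 hm hn hω hG hdet (T := T (X ω) ∩ F) (fun e he => by
        have he' := mem_filter.1 (mem_inter.1 he).1
        exact ⟨he'.1, he'.2⟩) hg))
  have h3 : P F (fun ω => (cc 0 m ω = d1 ∧ rc (2 * m) n ω = d2)) =
      P F (fun ω => (cc 0 m ω = d1 ∧ rc (2 * m) n ω = d2) ∧ cc 0 n ω ≤ d1 + d2 + 4) +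
      P F (fun ω => (cc 0 m ω = d1 ∧ rc (2 * m) n ω = d2) ∧ ¬ cc 0 n ω ≤ cc 0 m ω + rc (2 * m) n ω + 4) := by
    rw [← P_add_of_disjoint]
    · apply P_congr
      intro ω _
      constructor
      · rintro ⟨e1, e2⟩
        by_cases h : cc 0 n ω ≤ d1 + d2 + 4
        · exact Or.inl ⟨⟨e1, e2⟩, h⟩
        · exact Or.inr ⟨⟨e1, e2⟩, by rw [e1, e2]; exact h⟩
      · rintro (h | h) <;> exact h.1
    · rintro ω _ ⟨h, ⟨⟨e1, e2⟩, h'⟩⟩
      rw [e1, e2] at h'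
      exact h' h.2
  simp only [hX] at h2
  nlinarith [h2, h3]
end

/-- (D2) quasi-multiplicativity -/
theorem explore2 : ∃ c : ℝ, 0 < c ∧ ∀ w : ℝ, 0 < w → w ≤ 1 → ∀ m n : ℕ, 1 ≤ m → 4 * m ≤ n →
    c * w ^ 4 * (ex 0 m (fun ω => w ^ cc 0 m ω) * ex (2 * m) n (fun ω => w ^ cc (2 * m) n ω)) ≤
      ex 0 n (fun ω => w ^ cc 0 n ω) := by
  classical
  obtain ⟨c, hc, hg⟩ := glue_event
  refine ⟨c, hc, fun w hw hw1 m n hm hn => ?_⟩
  obtain ⟨G, hG, hGc, hdet⟩ := hg m n hm hn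
  set F := edgesIn (fullAnn ((0:ℕ):ℤ) n) with hF
  set q : Finset (Sym2 (ℤ × ℤ)) → ℕ × ℕ := fun ω => (cc 0 m ω, rc (2 * m) n ω) with hq
  set I := F.powerset.image q with hI
  have hIm : ∀ ω ⊆ F, q ω ∈ I := fun ω hω => mem_image_of_mem _ (mem_powerset.2 hω)
  -- the right hand side
  have e1 : ex 0 m (fun ω => w ^ cc 0 m ω) = Ex F (fun ω => w ^ cc 0 m ω) := by
    rw [← ex_restrict (le_refl 0) (show m ≤ n by omega) (fun k => w ^ k), ex_eq]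
  have e2 : ex (2 * m) n (fun ω => w ^ cc (2 * m) n ω) = Ex F (fun ω => w ^ cc (2 * m) n ω) := by
    rw [← ex_restrict (Nat.zero_le (2 * m)) (le_refl n) (fun k => w ^ k), ex_eq]
  have e3 : Ex F (fun ω => w ^ cc 0 m ω) * Ex F (fun ω => w ^ cc (2 * m) n ω) =
      Ex F (fun ω => w ^ cc 0 m ω * w ^ cc (2 * m) n ω) := by
    symm
    apply Ex_indep (G := edgesIn (fullAnn ((0:ℕ):ℤ) m)) (H := edgesIn (fullAnn ((2 * m : ℕ):ℤ) n))
      (edgesIn_mono' (fullAnn_mono le_rfl (by omega))) (edgesIn_mono' (fullAnn_mono (by positivity) le_rfl))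
      _ (fun k => w ^ k) (fun k => w ^ k)
    · intro ω; rw [cc_inter]
    · intro ω; rw [cc_inter]
    · rw [disjoint_left]
      intro e
      induction e using Sym2.ind with
      | _ x y =>
        rw [mem_edgesIn, mem_edgesIn, mem_fullAnn, mem_fullAnn]
        rintro ⟨h1, _⟩ ⟨h2, _⟩
        rw [mem_fullAnn] at h2
        push_cast at h2
        omega
  have e4 : Ex F (fun ω => w ^ cc 0 m ω * w ^ cc (2 * m) n ω) =
      ∑ i ∈ I, w ^ (i.1 + i.2) * P F (fun ω => q ω = i) :=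
    Ex_fiber F q I hIm _ (fun i => w ^ (i.1 + i.2)) (fun ω _ => by
      simp only [hq]
      rw [pow_add, rc_eq])
  -- the left hand side
  have e5 : ∑ i ∈ I, w ^ (i.1 + i.2 + 4) * P F (fun ω => q ω = i ∧ cc 0 n ω ≤ i.1 + i.2 + 4) ≤
      Ex F (fun ω => w ^ cc 0 n ω) := by
    have h1 : ∑ i ∈ I, w ^ (i.1 + i.2 + 4) * P F (fun ω => q ω = i ∧ cc 0 n ω ≤ i.1 + i.2 + 4) =
        Ex F (fun ω => ∑ i ∈ I, w ^ (i.1 + i.2 + 4) * (if q ω = i ∧ cc 0 n ω ≤ i.1 + i.2 + 4 then 1 else 0)) := by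
      rw [Ex_sum]
      apply sum_congr rfl
      intro i _
      rw [Ex_mul, Ex_ind]
    rw [h1]
    apply Ex_mono
    intro ω hω
    rw [sum_eq_single_of_mem (q ω) (hIm ω hω)]
    · split_ifs with h
      · rw [mul_one]
        exact pow_le_pow_of_le_one hw.le hw1 h.2
      · rw [mul_zero]
        positivity
    · intro i _ hi
      rw [if_neg (fun h => hi h.1.symm), mul_zero]
  have e6 : ∀ i : ℕ × ℕ, c * P F (fun ω => q ω = i) ≤ P F (fun ω => q ω = i ∧ cc 0 n ω ≤ i.1 + i.2 + 4) := by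
    rintro ⟨d1, d2⟩
    have h := glue_prob hm hn hG hdet d1 d2
    have c1 : P F (fun ω => q ω = (d1, d2)) = P F (fun ω => cc 0 m ω = d1 ∧ rc (2 * m) n ω = d2) := by
      apply P_congr
      intro ω _
      simp only [hq]
      rw [Prod.mk.injEq]
    have c2 : P F (fun ω => q ω = (d1, d2) ∧ cc 0 n ω ≤ (d1, d2).1 + (d1, d2).2 + 4) =
        P F (fun ω => (cc 0 m ω = d1 ∧ rc (2 * m) n ω = d2) ∧ cc 0 n ω ≤ d1 + d2 + 4) := by
      apply P_congr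
      intro ω _
      simp only [hq]
      rw [Prod.mk.injEq]
    rw [c1, c2]
    exact (mul_le_mul_of_nonneg_right hGc (P_nonneg _ _)).trans h
  rw [e1, e2, e3, e4, ex_eq, mul_sum]
  refine le_trans (sum_le_sum fun i _ => ?_) e5
  calc c * w ^ 4 * (w ^ (i.1 + i.2) * P F (fun ω => q ω = i))
      = w ^ (i.1 + i.2 + 4) * (c * P F (fun ω => q ω = i)) := by rw [pow_add _ (i.1 + i.2) 4]; ring
    _ ≤ _ := mul_le_mul_of_nonneg_left (e6 i) (by positivity)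

end H82Nest
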