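import Pool.Agent.Helper82.Nest.Box
import Pool.Agent.Helper82.Nest.Exp2

/-! (F3): the exponents in annuli. -/

namespace H82Nest
open Finset H47Perc Filter Topology
open Pool.Agent.Helper69.RSW (P P_nonneg P_mono P_congr)

/-! ### the case `w = 0` -/

lemma reach_zero {O : Set (Sym2 (ℤ × ℤ))} {m n : ℤ} {k : ℕ} {p : Pt} (h : Reach O (AS m n) (Sph m) k p)
    (hk : k = 0) : p.2 = false ∧ ∃ u : ℤ × ℤ, nrm u = m ∧
      Relation.ReflTransGen (fun a b => lattice.Adj a b ∧ s(a, b) ∈ O ∧ (m ≤ nrm a ∧ nrm a ≤ n) ∧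
        (m ≤ nrm b ∧ nrm b ≤ n)) u p.1 := by
  induction h with
  | @start p hp hs => exact ⟨hp.1, p.1, hp.2, Relation.ReflTransGen.refl⟩
  | @opn k u v h hadj ho hs ih =>
    obtain ⟨_, x, hx, hr⟩ := ih hk
    exact ⟨rfl, x, hx, hr.tail ⟨hadj, ho, AS_v.1 h.mem, AS_v.1 hs⟩⟩
  | @cls k f g u v h hadj ho c1 c2 c3 c4 hs ih =>
    have := (ih hk).1
    exact absurd this (by simp)
  | dn h hc hs ih => omega
  | up h hc hs ih => omega

lemma cc_zero_iff {m n : ℕ} (hmn : m ≤ n) {ω : Finset (Sym2 (ℤ × ℤ))} (hω : ω ⊆ edgesIn (fullAnn m n)) :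
    cc m n ω = 0 ↔ Cross m n ω := by
  constructor
  · intro h
    obtain ⟨v, hv, hr⟩ := cc_spec hmn ω
    rw [h] at hr
    obtain ⟨h0, u, hu, hp⟩ := reach_zero hr rfl
    refine ⟨u, v, hu, hv, ?_⟩
    simp only at hp
    clear hr hv h0
    induction hp with
    | refl => exact joined_refl _ _
    | tail _ h2 ih =>
      refine joined_trans ih (SimpleGraph.Adj.reachable ?_)
      rw [SimpleGraph.fromEdgeSet_adj]
      exact ⟨h2.2.1, h2.1.ne⟩
  · rintro ⟨u, v, hu, hv, ⟨p⟩⟩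
    have key : ∀ a b : ℤ × ℤ, (SimpleGraph.fromEdgeSet (ω : Set (Sym2 (ℤ × ℤ)))).Walk a b →
        Reach (ω : Set (Sym2 (ℤ × ℤ))) (AS m n) (Sph m) 0 (a, false) →
        Reach (ω : Set (Sym2 (ℤ × ℤ))) (AS m n) (Sph m) 0 (b, false) := by
      intro a b q
      induction q with
      | nil => exact id
      | cons hadj _ ih =>
        intro h
        rw [SimpleGraph.fromEdgeSet_adj] at hadj
        have h1 := hω hadj.1
        rw [mem_edgesIn, mem_fullAnn, mem_fullAnn] at h1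
        exact ih (Reach.opn h h1.2.2 hadj.1 (AS_v.2 h1.2.1))
    have h0 := key u v p (Reach.start (Sph_v.2 hu) (AS_v.2 ⟨by omega, by rw [hu]; exact_mod_cast hmn⟩))
    exact Nat.le_zero.1 (cc_le hv h0)

lemma ex_zero_pow {m n : ℕ} (hmn : m ≤ n) : ex m n (fun ω => (0:ℝ) ^ cc m n ω) = crF m n := by
  classical
  unfold crF
  rw [Pool.Agent.Helper69.RSW.perc_half_eq, ex_eq, ← Ex_ind]
  apply Ex_congr
  intro ω hω
  by_cases h : cc m n ω = 0
  · rw [h, pow_zero, if_pos ((cc_zero_iff hmn hω).1 h)]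
  · rw [zero_pow h, if_neg (fun h' => h ((cc_zero_iff hmn hω).2 h'))]

lemma xe_zero : xe 0 = 5 / 48 := by
  unfold xe
  rw [zero_div, Real.arccos_zero]
  have := Real.pi_pos
  field_simp
  norm_num

lemma xe_one : xe 1 = 0 := by
  unfold xe
  have h3 : Real.arccos (1 / 2) = Real.pi / 3 := by
    rw [← Real.cos_pi_div_three]
    exact Real.arccos_cos (by positivity) (by linarith [Real.pi_pos])
  rw [h3]
  have := Real.pi_pos
  field_simp
  norm_num

lemma xe_pos {w : ℝ} (hw : 0 ≤ w) (hw1 : w < 1) : 0 < xe w := by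
  have h3 : Real.arccos (1 / 2) = Real.pi / 3 := by
    rw [← Real.cos_pi_div_three]
    exact Real.arccos_cos (by positivity) (by linarith [Real.pi_pos])
  have hpi := Real.pi_pos
  have h : Real.pi / 3 < Real.arccos (w / 2) := by
    rw [← h3]
    exact Real.strictAntiOn_arccos ⟨by linarith, by linarith⟩ ⟨by norm_num, by norm_num⟩ (by linarith)
  have h1 : (Real.pi / 3) ^ 2 < Real.arccos (w / 2) ^ 2 := pow_lt_pow_left₀ h (by positivity) (by norm_num)
  have h4 : 1 / 9 < Real.arccos (w / 2) ^ 2 / Real.pi ^ 2 := by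
    rw [lt_div_iff₀ (by positivity)]
    linarith
  unfold xe
  linarith

lemma ex_nonneg_pow {m n : ℕ} {w : ℝ} (hw : 0 ≤ w) : 0 ≤ ex m n (fun ω => w ^ cc m n ω) := by
  rw [ex_eq]
  exact Ex_nonneg fun ω _ => by positivity

lemma ex_pos_pow {m n : ℕ} {w : ℝ} (hw : 0 < w) : 0 < ex m n (fun ω => w ^ cc m n ω) := by
  rw [ex_eq]
  exact Ex_pos fun ω _ => by positivity

lemma ex_le_one' {m n : ℕ} {w : ℝ} (hw : 0 ≤ w) (hw1 : w ≤ 1) : ex m n (fun ω => w ^ cc m n ω) ≤ 1 := by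
  rw [ex_eq]
  refine (Ex_mono (g := fun _ => 1) fun ω _ => pow_le_one₀ hw hw1).trans (le_of_eq (Ex_const _ _))

/-- the annuli `1 ≤ m ≤ n` for `0 < w ≤ 1` -/
theorem ann_pos {w : ℝ} (hw : 0 < w) (hw1 : w ≤ 1) : ∃ k K : ℝ, 0 < k ∧ 0 ≤ K ∧ ∀ m n : ℕ, 1 ≤ m → m ≤ n →
    k * ((m:ℝ) / n) ^ xe w ≤ ex m n (fun ω => w ^ cc m n ω) ∧
    ex m n (fun ω => w ^ cc m n ω) ≤ K * ((m:ℝ) / n) ^ xe w := by
  obtain ⟨c, C, hc, hC, h⟩ := nest_box
  obtain ⟨e, he, h2⟩ := explore2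
  obtain ⟨hx0, hx1⟩ := xe_bounds hw.le hw1
  set x := xe w with hx
  have hbox := h w hw hw1
  set c1 : ℝ := c * w ^ 2 with hc1
  set C1 : ℝ := C * w⁻¹ ^ 3 with hC1
  have hc1' : 0 < c1 := by positivity
  have hC1' : 0 < C1 := by positivity
  have four : (4:ℝ) ^ x ≤ 4 := by
    calc (4:ℝ) ^ x ≤ 4 ^ (1:ℝ) := Real.rpow_le_rpow_of_exponent_le (by norm_num) hx1
      _ = 4 := Real.rpow_one 4
  refine ⟨w ^ 2 * c1 / C1, max 4 (w⁻¹ * (C1 / (e * w ^ 4 * c1))), by positivity, by positivity,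
    fun m n hm hmn => ?_⟩
  have hm0 : (0:ℝ) < m := by exact_mod_cast hm
  have hn0 : (0:ℝ) < n := by
    have : 0 < n := by omega
    exact_mod_cast this
  have hmn' : (m:ℝ) ≤ n := by exact_mod_cast hmn
  have hdiv : ∀ a b : ℝ, 0 < a → 0 < b → (a / b) ^ x = b ^ (-x) / a ^ (-x) := by
    intro a b ha hb
    rw [Real.div_rpow ha.le hb.le, Real.rpow_neg hb.le, Real.rpow_neg ha.le]
    field_simp
  constructor
  · have h3 := cc_super hw hw1 hm hmn
    have h4 := (hbox m hm).2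
    have h5 := (hbox n (by omega)).1
    have hpm : 0 < ex 0 m (fun ω => w ^ cc 0 m ω) := ex_pos_pow hw
    have hp : 0 < ex m n (fun ω => w ^ cc m n ω) := ex_pos_pow hw
    rw [hdiv m n hm0 hn0]
    have hmx : 0 < (m:ℝ) ^ (-x) := by positivity
    have h6 : c1 * (n:ℝ) ^ (-x) ≤ w⁻¹ ^ 2 * (C1 * (m:ℝ) ^ (-x) * ex m n (fun ω => w ^ cc m n ω)) := by
      refine (h5.trans h3).trans ?_
      apply mul_le_mul_of_nonneg_left _ (by positivity)
      exact mul_le_mul_of_nonneg_right h4 hp.le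
    calc w ^ 2 * c1 / C1 * ((n:ℝ) ^ (-x) / (m:ℝ) ^ (-x)) = w ^ 2 * (c1 * (n:ℝ) ^ (-x)) / (C1 * (m:ℝ) ^ (-x)) := by
          field_simp
      _ ≤ w ^ 2 * (w⁻¹ ^ 2 * (C1 * (m:ℝ) ^ (-x) * ex m n (fun ω => w ^ cc m n ω))) / (C1 * (m:ℝ) ^ (-x)) := by
          apply div_le_div_of_nonneg_right _ (by positivity)
          exact mul_le_mul_of_nonneg_left h6 (by positivity)
      _ = _ := by field_simp
  · rcases Nat.lt_or_ge n (2 * m + 2) with h3 | h3
    · refine (ex_le_one' hw.le hw1).trans ?_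
      have h4 : (1:ℝ) / 4 ≤ (m:ℝ) / n := by
        rw [div_le_div_iff₀ (by norm_num) hn0]
        have : n ≤ 4 * m := by omega
        have : (n:ℝ) ≤ 4 * m := by exact_mod_cast this
        linarith
      have h5 : (1 / 4 : ℝ) ^ x ≤ ((m:ℝ) / n) ^ x := Real.rpow_le_rpow (by norm_num) h4 hx0
      have h6 : (1 / 4 : ℝ) ≤ (1 / 4 : ℝ) ^ x := by
        rw [one_div, Real.inv_rpow (by norm_num)]
        exact inv_anti₀ (by positivity) four
      calc (1:ℝ) = 4 * (1 / 4) := by norm_num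
        _ ≤ 4 * ((m:ℝ) / n) ^ x := by linarith
        _ ≤ _ := mul_le_mul_of_nonneg_right (le_max_left _ _) (by positivity)
    · obtain ⟨k, hk1, hk2, hk3⟩ : ∃ k, 1 ≤ k ∧ m ≤ 2 * k ∧ 2 * k ≤ m + 1 := ⟨(m + 1) / 2, by omega, by omega, by omega⟩
      have h4 := cc_anti (n := n) hw hw1 hk2 (by omega)
      have h5 := h2 w hw hw1 k n hk1 (by omega)
      have h6 := (hbox k hk1).1
      have h7 := (hbox n (by omega)).2
      have hk0 : (0:ℝ) < k := by exact_mod_cast hk1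
      have hpk : 0 < ex 0 k (fun ω => w ^ cc 0 k ω) := ex_pos_pow hw
      have hp : 0 < ex (2 * k) n (fun ω => w ^ cc (2 * k) n ω) := ex_pos_pow hw
      have hkx : 0 < (k:ℝ) ^ (-x) := by positivity
      have h8 : e * w ^ 4 * c1 * (k:ℝ) ^ (-x) * ex (2 * k) n (fun ω => w ^ cc (2 * k) n ω) ≤ C1 * (n:ℝ) ^ (-x) := by
        refine le_trans ?_ (h5.trans h7)
        calc e * w ^ 4 * c1 * (k:ℝ) ^ (-x) * ex (2 * k) n (fun ω => w ^ cc (2 * k) n ω) =
            e * w ^ 4 * (c1 * (k:ℝ) ^ (-x) * ex (2 * k) n (fun ω => w ^ cc (2 * k) n ω)) := by ring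
          _ ≤ _ := by
            apply mul_le_mul_of_nonneg_left _ (by positivity)
            exact mul_le_mul_of_nonneg_right h6 hp.le
      have h9 : ex (2 * k) n (fun ω => w ^ cc (2 * k) n ω) ≤ C1 / (e * w ^ 4 * c1) * ((k:ℝ) / n) ^ x := by
        rw [hdiv k n hk0 hn0]
        rw [← le_div_iff₀' (by positivity)] at h8
        refine h8.trans (le_of_eq ?_)
        field_simp
      have h10 : ((k:ℝ) / n) ^ x ≤ ((m:ℝ) / n) ^ x := by
        apply Real.rpow_le_rpow (by positivity) _ hx0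
        apply div_le_div_of_nonneg_right _ hn0.le
        have : k ≤ m := by omega
        exact_mod_cast this
      calc ex m n (fun ω => w ^ cc m n ω) ≤ w⁻¹ * ex (2 * k) n (fun ω => w ^ cc (2 * k) n ω) := h4
        _ ≤ w⁻¹ * (C1 / (e * w ^ 4 * c1) * ((m:ℝ) / n) ^ x) := by
            apply mul_le_mul_of_nonneg_left _ (by positivity)
            exact h9.trans (mul_le_mul_of_nonneg_left h10 (by positivity))
        _ = w⁻¹ * (C1 / (e * w ^ 4 * c1)) * ((m:ℝ) / n) ^ x := by ring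
        _ ≤ _ := mul_le_mul_of_nonneg_right (le_max_right _ _) (by positivity)

lemma ex_00 {w : ℝ} : ex 0 0 (fun ω => w ^ cc 0 0 ω) = 1 := by
  rw [ex_eq]
  have : ∀ ω : Finset (Sym2 (ℤ × ℤ)), cc 0 0 ω = 0 := by
    intro ω
    apply Nat.le_zero.1
    refine cc_le (v := (0, 0)) (by simp [nrm]) (Reach.start ?_ ?_)
    · rw [Sph_v]; simp [nrm]
    · rw [AS_v]; simp [nrm]
  simp only [this, pow_zero]
  exact Ex_const _ _

/-- (F3) -/
theorem nest_annulus {w : ℝ} (hw : 0 ≤ w) (hw1 : w ≤ 1) : ∃ c C : ℝ, 0 < c ∧ ∀ m n : ℕ, m ≤ n →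
    c * (((m:ℝ) + 1) / (n + 1)) ^ xe w ≤ ex m n (fun ω => w ^ cc m n ω) ∧
    ex m n (fun ω => w ^ cc m n ω) ≤ C * (((m:ℝ) + 1) / (n + 1)) ^ xe w := by
  rcases hw.eq_or_lt with rfl | hw0
  · obtain ⟨c, C, hc, h⟩ := H92Link.annulus_crossing
    refine ⟨c, C, hc, fun m n hmn => ?_⟩
    rw [xe_zero, ex_zero_pow hmn]
    exact h m n hmn
  rcases hw1.eq_or_lt with rfl | hw1'
  · refine ⟨1, 1, one_pos, fun m n _ => ?_⟩
    simp only [one_pow, xe_one, Real.rpow_zero, mul_one]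
    rw [ex_eq, Ex_const]
    exact ⟨le_refl _, le_refl _⟩
  obtain ⟨c, C, hc, hC, h⟩ := nest_box
  obtain ⟨k, K, hk, hK, h1⟩ := ann_pos hw0 hw1
  have hx := xe_pos hw hw1'
  refine ⟨_, _, lt_min one_pos (lt_min (show 0 < c * w ^ 2 by positivity) (by positivity)), fun m n hmn =>
    uniform_form' (c := c * w ^ 2) (C := C * w⁻¹ ^ 3) (k := k) (K := K)
      (g := fun m n => ex m n (fun ω => w ^ cc m n ω)) hx (by positivity) (by positivity) hk hK ex_00
      (fun n hn => h w hw0 hw1 n hn) h1 hmn⟩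

end H82Nest
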