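import Pool.Agent.Helper82.Nest.Cyl
import Pool.Agent.Helper82.Nest.Super

/-! (F1), (F2): the exponents and the exponential moments in the box. -/

namespace H82Nest
open Finset H47Perc Filter Topology
open Pool.Agent.Helper69.RSW (P P_nonneg P_mono P_restrict)

lemma xe_mem {w : ℝ} (hw : 0 ≤ w) (hw1 : w ≤ 1) :
    Real.arccos (w / 2) ∈ Set.Icc (Real.pi / 3) (Real.pi / 2) := by
  have h3 : Real.arccos (1 / 2) = Real.pi / 3 := by
    rw [← Real.cos_pi_div_three]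
    exact Real.arccos_cos (by positivity) (by linarith [Real.pi_pos])
  constructor
  · rw [← h3]
    exact Real.antitone_arccos (by linarith)
  · rw [← Real.arccos_zero]
    exact Real.antitone_arccos (by linarith)

/-- the nesting exponent -/
noncomputable def xe (w : ℝ) : ℝ := 3 / 4 * (Real.arccos (w / 2) ^ 2 / Real.pi ^ 2 - 1 / 9)

lemma xe_bounds {w : ℝ} (hw : 0 ≤ w) (hw1 : w ≤ 1) : 0 ≤ xe w ∧ xe w ≤ 1 := by
  have h := xe_mem hw hw1
  have hpi := Real.pi_pos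
  have h1 : (Real.pi / 3) ^ 2 ≤ Real.arccos (w / 2) ^ 2 := pow_le_pow_left₀ (by positivity) h.1 2
  have h2 : Real.arccos (w / 2) ^ 2 ≤ (Real.pi / 2) ^ 2 :=
    pow_le_pow_left₀ (le_trans (by positivity) h.1) h.2 2
  have h3 : 1 / 9 ≤ Real.arccos (w / 2) ^ 2 / Real.pi ^ 2 := by
    rw [le_div_iff₀ (by positivity)]
    linarith
  have h4 : Real.arccos (w / 2) ^ 2 / Real.pi ^ 2 ≤ 1 / 4 := by
    rw [div_le_iff₀ (by positivity)]
    linarith
  unfold xe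
  constructor <;> linarith

lemma pcylW_xe : ∃ c C : ℝ, 0 < c ∧ 0 < C ∧ ∀ w : ℝ, 0 ≤ w → w ≤ 1 → ∀ n : ℕ, 1 ≤ n →
    c * ((2 * n : ℕ) : ℝ) ^ (-xe w) ≤ OneArm.pcylW w (2 * n) ∧
    OneArm.pcylW w (2 * n) ≤ C * ((2 * n : ℕ) : ℝ) ^ (-xe w) := by
  obtain ⟨c, C, hc, hC, h⟩ := OneArm.pcylW_asymptotics
  refine ⟨c, C, hc, hC, fun w hw hw1 n hn => ?_⟩
  have hm := xe_mem hw hw1
  have h1 := h (Real.arccos (w / 2)) ⟨Real.arccos_nonneg _, hm.2⟩ n hn
  have h2 : 2 * Real.cos (Real.arccos (w / 2)) = w := by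
    rw [Real.cos_arccos (by linarith) (by linarith)]
    ring
  rw [h2] at h1
  exact h1

/-- (F1) for even radii -/
theorem nest_even : ∃ c C : ℝ, 0 < c ∧ 0 < C ∧ ∀ w : ℝ, 0 < w → w ≤ 1 → ∀ m : ℕ, 1 ≤ m →
    c * w * ((2 * m : ℕ):ℝ) ^ (-xe w) ≤ ex 0 (2 * m) (fun ω => w ^ cc 0 (2 * m) ω) ∧
    ex 0 (2 * m) (fun ω => w ^ cc 0 (2 * m) ω) ≤ C * w⁻¹ ^ 2 * ((2 * m : ℕ):ℝ) ^ (-xe w) := by
  obtain ⟨c, C, hc, hC, h⟩ := pcylW_xe
  obtain ⟨ρ, hρ0, hρ1, hb⟩ := box_cyl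
  have hρ : 0 < 1 - ρ := by linarith
  refine ⟨c / 5, C / (1 - ρ), by positivity, by positivity, fun w hw hw1 m hm => ?_⟩
  obtain ⟨h1, h2⟩ := h w hw.le hw1 (4 * m + 1) (by omega)
  obtain ⟨h3, h4⟩ := hb w hw hw1 m hm
  obtain ⟨hx0, hx1⟩ := xe_bounds hw.le hw1
  have hm1 : (1:ℝ) ≤ m := by exact_mod_cast hm
  have hr0 : (0:ℝ) < ((2 * m : ℕ):ℝ) := by push_cast; linarith
  have hR0 : (0:ℝ) < ((2 * (4 * m + 1) : ℕ):ℝ) := by push_cast; linarith
  have e1 : ((2 * (4 * m + 1) : ℕ):ℝ) ^ (-xe w) ≤ ((2 * m : ℕ):ℝ) ^ (-xe w) := by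
    apply Real.rpow_le_rpow_of_nonpos hr0 _ (by linarith)
    push_cast; linarith
  have e2 : 1 / 5 * ((2 * m : ℕ):ℝ) ^ (-xe w) ≤ ((2 * (4 * m + 1) : ℕ):ℝ) ^ (-xe w) := by
    have e3 : (5 * ((2 * m : ℕ):ℝ)) ^ (-xe w) ≤ ((2 * (4 * m + 1) : ℕ):ℝ) ^ (-xe w) := by
      apply Real.rpow_le_rpow_of_nonpos hR0 _ (by linarith)
      push_cast; linarith
    refine le_trans ?_ e3
    rw [Real.mul_rpow (by norm_num) hr0.le]
    apply mul_le_mul_of_nonneg_right _ (by positivity)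
    rw [Real.rpow_neg (by norm_num), one_div]
    apply inv_anti₀ (by positivity)
    calc (5:ℝ) ^ xe w ≤ 5 ^ (1:ℝ) := Real.rpow_le_rpow_of_exponent_le (by norm_num) hx1
      _ = 5 := Real.rpow_one 5
  constructor
  · calc c / 5 * w * ((2 * m : ℕ):ℝ) ^ (-xe w) = w * (c * (1 / 5 * ((2 * m : ℕ):ℝ) ^ (-xe w))) := by ring
      _ ≤ w * (c * ((2 * (4 * m + 1) : ℕ):ℝ) ^ (-xe w)) :=
          mul_le_mul_of_nonneg_left (mul_le_mul_of_nonneg_left e2 hc.le) hw.le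
      _ ≤ w * OneArm.pcylW w (2 * (4 * m + 1)) := mul_le_mul_of_nonneg_left h1 hw.le
      _ ≤ _ := h3
  · have h5 : (1 - ρ) * w ^ 2 * ex 0 (2 * m) (fun ω => w ^ cc 0 (2 * m) ω) ≤
        C * ((2 * m : ℕ):ℝ) ^ (-xe w) := h4.trans (h2.trans (mul_le_mul_of_nonneg_left e1 hC.le))
    have hw2 : 0 < (1 - ρ) * w ^ 2 := by positivity
    rw [← le_div_iff₀' hw2] at h5
    refine h5.trans (le_of_eq ?_)
    field_simp

lemma ex_le_one {n : ℕ} {w : ℝ} (hw : 0 ≤ w) (hw1 : w ≤ 1) : ex 0 n (fun ω => w ^ cc 0 n ω) ≤ 1 := by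
  rw [ex_eq]
  refine (Ex_mono (g := fun _ => 1) fun ω _ => pow_le_one₀ hw hw1).trans (le_of_eq (Ex_const _ _))

lemma ex_pow_outer {n n' : ℕ} (h : n ≤ n') {w : ℝ} (hw : 0 < w) (hw1 : w ≤ 1) :
    w * ex 0 n' (fun ω => w ^ cc 0 n' ω) ≤ ex 0 n (fun ω => w ^ cc 0 n ω) := by
  refine le_trans (le_of_eq ?_) (ex_outer h (g := fun k => w ^ k)
    (fun k l hkl => pow_le_pow_of_le_one hw.le hw1 hkl))
  rw [ex_eq, ex_eq, ← Ex_mul]
  apply Ex_congr
  intro ω _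
  rw [pow_succ]
  ring

/-- (F1) -/
theorem nest_box : ∃ c C : ℝ, 0 < c ∧ 0 < C ∧ ∀ w : ℝ, 0 < w → w ≤ 1 → ∀ n : ℕ, 1 ≤ n →
    c * w ^ 2 * (n:ℝ) ^ (-xe w) ≤ ex 0 n (fun ω => w ^ cc 0 n ω) ∧
    ex 0 n (fun ω => w ^ cc 0 n ω) ≤ C * w⁻¹ ^ 3 * (n:ℝ) ^ (-xe w) := by
  obtain ⟨c, C, hc, hC, h⟩ := nest_even
  refine ⟨c / 2, max 1 (2 * C), by positivity, by positivity, fun w hw hw1 n hn => ?_⟩
  obtain ⟨hx0, hx1⟩ := xe_bounds hw.le hw1
  have hn0 : (0:ℝ) < n := by exact_mod_cast hn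
  have hn1 : (1:ℝ) ≤ n := by exact_mod_cast hn
  have hwi : 1 ≤ w⁻¹ := (one_le_inv₀ hw).2 hw1
  have two : (2:ℝ) ^ xe w ≤ 2 := by
    calc (2:ℝ) ^ xe w ≤ 2 ^ (1:ℝ) := Real.rpow_le_rpow_of_exponent_le (by norm_num) hx1
      _ = 2 := Real.rpow_one 2
  have hpn : 0 ≤ (n:ℝ) ^ (-xe w) := by positivity
  -- comparison of neighbouring radii
  have half : 1 / 2 * (n:ℝ) ^ (-xe w) ≤ (((n + 1 : ℕ)):ℝ) ^ (-xe w) := by
    have e3 : (2 * (n:ℝ)) ^ (-xe w) ≤ (((n + 1 : ℕ)):ℝ) ^ (-xe w) := by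
      apply Real.rpow_le_rpow_of_nonpos (by positivity) _ (by linarith)
      push_cast; linarith
    refine le_trans ?_ e3
    rw [Real.mul_rpow (by norm_num) hn0.le]
    apply mul_le_mul_of_nonneg_right _ hpn
    rw [Real.rpow_neg (by norm_num), one_div]
    exact inv_anti₀ (by positivity) two
  have hww : w ^ 2 ≤ w := by nlinarith
  rcases Nat.even_or_odd' n with ⟨m, rfl | hm⟩
  · obtain ⟨h1, h2⟩ := h w hw hw1 m (by omega)
    constructor
    · refine le_trans ?_ h1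
      apply mul_le_mul_of_nonneg_right _ hpn
      nlinarith
    · refine h2.trans ?_
      apply mul_le_mul_of_nonneg_right _ hpn
      apply mul_le_mul _ _ (by positivity) (by positivity)
      · exact le_trans (by linarith) (le_max_right _ _)
      · exact pow_le_pow_right₀ hwi (by norm_num)
  · constructor
    · obtain ⟨h1, _⟩ := h w hw hw1 (m + 1) (by omega)
      have e : 2 * (m + 1) = n + 1 := by omega
      rw [e] at h1
      refine le_trans ?_ (ex_pow_outer (n := n) (n' := n + 1) (by omega) hw hw1)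
      calc c / 2 * w ^ 2 * (n:ℝ) ^ (-xe w) = w * (c * w * (1 / 2 * (n:ℝ) ^ (-xe w))) := by ring
        _ ≤ w * (c * w * (((n + 1 : ℕ)):ℝ) ^ (-xe w)) := by
            apply mul_le_mul_of_nonneg_left _ hw.le
            exact mul_le_mul_of_nonneg_left half (by positivity)
        _ ≤ _ := mul_le_mul_of_nonneg_left h1 hw.le
    · rcases Nat.eq_zero_or_pos m with rfl | hm0
      · have : n = 1 := by omega
        subst this
        refine (ex_le_one hw.le hw1).trans ?_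
        rw [Nat.cast_one, Real.one_rpow, mul_one]
        have : (1:ℝ) ≤ w⁻¹ ^ 3 := one_le_pow₀ hwi
        have h3 : (1:ℝ) ≤ max 1 (2 * C) := le_max_left _ _
        nlinarith
      · obtain ⟨_, h2⟩ := h w hw hw1 m (by omega)
        have h3 := ex_pow_outer (n := 2 * m) (n' := n) (by omega) hw hw1
        have h4 : ex 0 n (fun ω => w ^ cc 0 n ω) ≤ w⁻¹ * (C * w⁻¹ ^ 2 * ((2 * m : ℕ):ℝ) ^ (-xe w)) := by
          rw [le_inv_mul_iff₀ hw]
          exact h3.trans h2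
        refine h4.trans ?_
        have h5 : ((2 * m : ℕ):ℝ) ^ (-xe w) ≤ 2 * (n:ℝ) ^ (-xe w) := by
          have hm1 : (1:ℝ) ≤ m := by exact_mod_cast hm0
          have e4 : ((2 * m : ℕ):ℝ) ^ (-xe w) ≤ ((n:ℝ) / 2) ^ (-xe w) := by
            apply Real.rpow_le_rpow_of_nonpos (by positivity) _ (by linarith)
            rw [hm]; push_cast; linarith
          refine e4.trans ?_
          rw [Real.div_rpow hn0.le (by norm_num), Real.rpow_neg (by norm_num : (0:ℝ) ≤ 2), div_inv_eq_mul,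
            mul_comm]
          exact mul_le_mul_of_nonneg_right two hpn
        calc w⁻¹ * (C * w⁻¹ ^ 2 * ((2 * m : ℕ):ℝ) ^ (-xe w)) ≤ w⁻¹ * (C * w⁻¹ ^ 2 * (2 * (n:ℝ) ^ (-xe w))) := by
              apply mul_le_mul_of_nonneg_left _ (by positivity)
              exact mul_le_mul_of_nonneg_left h5 (by positivity)
          _ = (2 * C) * w⁻¹ ^ 3 * (n:ℝ) ^ (-xe w) := by ring
          _ ≤ _ := by
              apply mul_le_mul_of_nonneg_right _ hpn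
              exact mul_le_mul_of_nonneg_right (le_max_right _ _) (by positivity)

end H82Nest
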