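import Pool.Agent.Helper82.Nest.Tools
import Pool.Agent.Helper82.OneArmW.Clt

/-! Central limit theorem from the exponential moments near `0`, for a variable on a finite probability space. -/

set_option linter.unusedSectionVars false

namespace H82Nest
open MeasureTheory ProbabilityTheory Filter Topology Real OneArmW Finset
open Pool.Agent.Helper69.RSW (P)

/-- CLT from exponential moments with small parameter -/
theorem nest_clt' {ρ : ℕ → ProbabilityMeasure ℝ} {ℓ : ℕ → ℝ} (hℓ : Tendsto ℓ atTop atTop)
    (hint : ∀ n t, Integrable (fun x => Real.exp (t * x)) (ρ n : Measure ℝ)) {a C : ℝ} (ha : 0 < a)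
    (hpos : ∀ᶠ n in atTop, ∀ s, |s| ≤ a →
      |Real.log (∫ x, Real.exp (s * x) ∂(ρ n : Measure ℝ)) - Lam s * ℓ n| ≤ C * |s|) :
    Tendsto (fun n => (ρ n).map (f := fun x => (x - nuM * ℓ n) / Real.sqrt (ℓ n))
      (by fun_prop)) atTop
      (𝓝 gaussP) := by
  have hexp : ∀ n (t x : ℝ), Real.exp (t * ((x - nuM * ℓ n) / Real.sqrt (ℓ n))) =
      Real.exp (-(t * nuM * ℓ n / Real.sqrt (ℓ n))) * Real.exp (t / Real.sqrt (ℓ n) * x) := by
    intro n t x
    rw [← Real.exp_add]
    congr 1
    ring
  apply curtiss
  · intro n t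
    rw [ProbabilityMeasure.toMeasure_map, integrable_map_measure (by fun_prop) (by fun_prop)]
    refine (((hint n (t / Real.sqrt (ℓ n))).const_mul
      (Real.exp (-(t * nuM * ℓ n / Real.sqrt (ℓ n)))))).congr ?_
    refine Eventually.of_forall fun x => ?_
    simp only [Function.comp]
    rw [hexp]
  · intro t
    rw [gaussP_coe]
    exact integrable_exp_mul_gaussianReal t
  · intro t
    have hG : ∫ x, Real.exp (t * x) ∂(gaussP : Measure ℝ) = Real.exp (t ^ 2 * (nuV / 2)) := by
      have h := mgf_gaussianReal (p := gaussianReal 0 nuV') (X := id) (μ := 0) (v := nuV')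
        (by simp) t
      have h2 : mgf id (gaussianReal 0 nuV') t = ∫ x, Real.exp (t * x) ∂(gaussianReal 0 nuV') := rfl
      rw [gaussP_coe, ← h2, h]
      congr 1
      have : ((nuV' : NNReal) : ℝ) = nuV := rfl
      rw [this]
      ring
    rw [hG]
    have hmom : ∀ n, ∫ x, Real.exp (t * x) ∂(((ρ n).map
        (f := fun x => (x - nuM * ℓ n) / Real.sqrt (ℓ n)) (by fun_prop) : ProbabilityMeasure ℝ) :
          Measure ℝ) =
        Real.exp (-(t * nuM * ℓ n / Real.sqrt (ℓ n))) *
          ∫ x, Real.exp (t / Real.sqrt (ℓ n) * x) ∂(ρ n : Measure ℝ) := by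
      intro n
      rw [ProbabilityMeasure.toMeasure_map, integral_map (by fun_prop) (by fun_prop),
        ← integral_const_mul]
      congr 1
      funext x
      rw [hexp]
    simp only [hmom]
    have hsq : Tendsto (fun n => Real.sqrt (ℓ n)) atTop atTop :=
      Real.tendsto_sqrt_atTop.comp hℓ
    have hs : Tendsto (fun n => t / Real.sqrt (ℓ n)) atTop (𝓝 0) :=
      hsq.const_div_atTop t
    have hlog : Tendsto (fun n => Real.log (∫ x, Real.exp (t / Real.sqrt (ℓ n) * x) ∂(ρ n : Measure ℝ))
        - t * nuM * ℓ n / Real.sqrt (ℓ n)) atTop (𝓝 (t ^ 2 * (nuV / 2))) := by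
      have hmain : Tendsto (fun n => Lam (t / Real.sqrt (ℓ n)) * ℓ n -
          t * nuM * ℓ n / Real.sqrt (ℓ n)) atTop (𝓝 (t ^ 2 * (nuV / 2))) := by
        rcases eq_or_ne t 0 with h0 | h0
        · subst h0
          simp [Lam_zero]
        · have hne : Tendsto (fun n => t / Real.sqrt (ℓ n)) atTop (𝓝[≠] 0) := by
            rw [tendsto_nhdsWithin_iff]
            refine ⟨hs, ?_⟩
            filter_upwards [hsq.eventually_gt_atTop 0] with n hn
            exact div_ne_zero h0 hn.ne'
          have h2 := (Lam_taylor.comp hne).const_mul (t ^ 2)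
          refine h2.congr' ?_
          filter_upwards [hℓ.eventually_gt_atTop 0] with n hn
          have h3 : 0 < Real.sqrt (ℓ n) := Real.sqrt_pos.mpr hn
          have h4 : ℓ n = Real.sqrt (ℓ n) ^ 2 := (Real.sq_sqrt hn.le).symm
          simp only [Function.comp]
          set q := Real.sqrt (ℓ n) with hq
          rw [h4]
          have h5 : Real.sqrt (q ^ 2) = q := Real.sqrt_sq h3.le
          field_simp
      have herr : Tendsto (fun n => C * |t / Real.sqrt (ℓ n)|) atTop (𝓝 0) := by
        have h2 := (hs.abs).const_mul C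
        simpa using h2
      have hsa : ∀ᶠ n in atTop, |t / Real.sqrt (ℓ n)| ≤ a := by
        have h2 := hs.abs
        rw [abs_zero] at h2
        exact h2.eventually (eventually_le_nhds ha)
      have hdiff : Tendsto (fun n => Real.log (∫ x, Real.exp (t / Real.sqrt (ℓ n) * x)
          ∂(ρ n : Measure ℝ)) - Lam (t / Real.sqrt (ℓ n)) * ℓ n) atTop (𝓝 0) := by
        refine squeeze_zero_norm' ?_ herr
        filter_upwards [hpos, hsa] with n hn h1
        exact hn _ h1
      have := hdiff.add hmain
      rw [zero_add] at this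
      refine this.congr (fun n => ?_)
      ring
    have hfin := (Real.continuous_exp.tendsto _).comp hlog
    refine hfin.congr' ?_
    refine Eventually.of_forall fun n => ?_
    have hp : 0 < ∫ x, Real.exp (t / Real.sqrt (ℓ n) * x) ∂(ρ n : Measure ℝ) := by
      apply integral_exp_pos
      exact hint n _
    simp only [Function.comp]
    rw [sub_eq_add_neg, Real.exp_add, Real.exp_log hp]
    ring

section
variable {E : Type*} [DecidableEq E]

/-- the law of a function of a uniform random subset of `F` -/
noncomputable def law (F : Finset E) (X : Finset E → ℝ) : Measure ℝ :=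
  ∑ ω ∈ F.powerset, ENNReal.ofReal (((2:ℝ) ^ #F)⁻¹) • Measure.dirac (X ω)

lemma law_apply (F : Finset E) (X : Finset E → ℝ) {B : Set ℝ} (hB : MeasurableSet B) :
    law F X B = ENNReal.ofReal (P F (fun ω => X ω ∈ B)) := by
  classical
  unfold law P
  rw [Measure.finsetSum_apply]
  simp only [Measure.smul_apply, smul_eq_mul, Measure.dirac_apply' _ hB]
  have h1 : ∀ ω ∈ F.powerset, ENNReal.ofReal (((2:ℝ) ^ #F)⁻¹) * B.indicator 1 (X ω) =
      ENNReal.ofReal (if X ω ∈ B then ((2:ℝ) ^ #F)⁻¹ else 0) := by
    intro ω _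
    by_cases h : X ω ∈ B
    · rw [Set.indicator_of_mem h, if_pos h]
      simp
    · rw [Set.indicator_of_notMem h, if_neg h]
      simp
  rw [sum_congr rfl h1, ← ENNReal.ofReal_sum_of_nonneg]
  · congr 1
    rw [← sum_filter, sum_const, nsmul_eq_mul, div_eq_mul_inv]
  · intro ω _
    split_ifs
    · positivity
    · exact le_refl 0

instance law_prob (F : Finset E) (X : Finset E → ℝ) : IsProbabilityMeasure (law F X) := by
  constructor
  rw [law_apply F X MeasurableSet.univ]
  have : P F (fun ω => X ω ∈ (Set.univ : Set ℝ)) = 1 := by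
    rw [← Pool.Agent.Helper69.RSW.P_true F]
    exact Pool.Agent.Helper69.RSW.P_congr (fun _ _ => by simp)
  rw [this, ENNReal.ofReal_one]

lemma law_integrable (F : Finset E) (X : Finset E → ℝ) (f : ℝ → ℝ) (hf : StronglyMeasurable f) :
    Integrable f (law F X) := by
  unfold law
  rw [integrable_finsetSum_measure]
  intro ω _
  apply Integrable.smul_measure _ ENNReal.ofReal_ne_top
  exact integrable_dirac' hf (by simp)

lemma law_integral (F : Finset E) (X : Finset E → ℝ) (f : ℝ → ℝ) (hf : StronglyMeasurable f) :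
    ∫ x, f x ∂(law F X) = Ex F (fun ω => f (X ω)) := by
  unfold law Ex
  rw [integral_finsetSum_measure]
  · simp only [integral_smul_measure, integral_dirac' f _ hf]
    rw [ENNReal.toReal_ofReal (by positivity)]
    simp only [smul_eq_mul]
    rw [← mul_sum, div_eq_inv_mul]
  · intro ω _
    apply Integrable.smul_measure _ ENNReal.ofReal_ne_top
    exact integrable_dirac' hf (by simp)

end

end H82Nest
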