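import Pool.Agent.Helper82.Nest.Box

/-! (F2): logarithm of the exponential moments near `s = 0`, error linear in `s`. -/

namespace H82Nest
open Finset H47Perc Filter Topology OneArmW Real

lemma th_lip {s : ℝ} (hs : |s| ≤ 1 / 2) : |th s - π / 3| ≤ 2 * |s| := by
  have hl : (1:ℝ) / 2 < Real.log 2 := by
    have := Real.log_two_gt_d9
    linarith
  have hbound : ∀ x ∈ Set.Icc (-(1 / 2 : ℝ)) (1 / 2),
      ‖-((Real.exp x / 2) / Real.sqrt (1 - (Real.exp x / 2) ^ 2))‖ ≤ 2 := by
    intro x hx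
    have h1 : Real.exp x ≤ 1.65 := by
      have h2 : Real.exp x ^ 2 ≤ Real.exp 1 := by
        rw [← Real.exp_nat_mul]
        apply Real.exp_le_exp.2
        push_cast
        linarith [hx.2]
      have h3 := Real.exp_one_lt_d9
      nlinarith [Real.exp_pos x]
    have h0 := Real.exp_pos x
    have h4 : (0.5 : ℝ) ≤ Real.sqrt (1 - (Real.exp x / 2) ^ 2) := by
      apply Real.le_sqrt_of_sq_le
      nlinarith
    rw [norm_neg, Real.norm_eq_abs, abs_of_nonneg (by positivity), div_le_iff₀ (by linarith)]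
    linarith
  have h := Convex.norm_image_sub_le_of_norm_hasDerivWithin_le
    (f := th) (f' := fun x => -((Real.exp x / 2) / Real.sqrt (1 - (Real.exp x / 2) ^ 2)))
    (s := Set.Icc (-(1 / 2 : ℝ)) (1 / 2)) (C := 2)
    (fun x hx => (th_hasDerivAt (by linarith [hx.2])).hasDerivWithinAt) hbound (convex_Icc _ _)
    (x := 0) (y := s) ⟨by norm_num, by norm_num⟩ ⟨by linarith [abs_le.1 hs], by linarith [abs_le.1 hs]⟩
  rw [th_zero, sub_zero] at h
  exact h

lemma th_mem {s : ℝ} (hs : |s| ≤ 1 / 2) : th s ∈ Set.Icc (0:ℝ) (π / 2) := by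
  constructor
  · exact Real.arccos_nonneg _
  · unfold th
    rw [← Real.arccos_zero]
    exact Real.antitone_arccos (by positivity)

lemma two_cos_th {s : ℝ} (hs : |s| ≤ 1 / 2) : 2 * Real.cos (th s) = Real.exp s := by
  unfold th
  have hl : (1:ℝ) / 2 < Real.log 2 := by
    have := Real.log_two_gt_d9
    linarith
  have h1 := half_exp_lt (s := s) (by linarith [(abs_le.1 hs).2])
  have h0 := Real.exp_pos s
  rw [Real.cos_arccos (by linarith) h1.le]
  ring

lemma Lam_lip {s : ℝ} (hs : |s| ≤ 1 / 2) : |Lam s| ≤ |s| := by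
  have h1 := th_lip hs
  have h2 := th_mem hs
  have hpi := Real.pi_gt_three
  have h3 : Lam s = -(3 / (4 * π ^ 2) * (th s - π / 3) * (th s + π / 3)) := by
    unfold Lam
    field_simp
    ring
  rw [h3, abs_neg, abs_mul, abs_mul, abs_of_pos (show (0:ℝ) < 3 / (4 * π ^ 2) by positivity),
    abs_of_nonneg (show (0:ℝ) ≤ th s + π / 3 by linarith [h2.1])]
  have h4 : th s + π / 3 ≤ π := by linarith [h2.2]
  calc 3 / (4 * π ^ 2) * |th s - π / 3| * (th s + π / 3) ≤ 3 / (4 * π ^ 2) * (2 * |s|) * π := by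
        apply mul_le_mul _ h4 (by linarith [h2.1]) (by positivity)
        exact mul_le_mul_of_nonneg_left h1 (by positivity)
    _ = 3 / (2 * π) * |s| := by field_simp; ring
    _ ≤ 1 * |s| := by
        apply mul_le_mul_of_nonneg_right _ (abs_nonneg _)
        rw [div_le_one (by positivity)]
        linarith
    _ = |s| := one_mul _

lemma pcylW_lip : ∃ C : ℝ, 0 < C ∧ ∀ s : ℝ, |s| ≤ 1 / 2 → ∀ n : ℕ, 1 ≤ n →
    0 < OneArm.pcylW (Real.exp s) (2 * n) ∧
    |Real.log (OneArm.pcylW (Real.exp s) (2 * n)) - Lam s * Real.log ((2 * n : ℕ):ℝ)| ≤ C * |s| := by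
  obtain ⟨C, hC, h⟩ := nesting_lipschitz
  obtain ⟨c, C', hc, hC', h'⟩ := OneArm.pcylW_asymptotics
  refine ⟨C * 2, by positivity, fun s hs n hn => ?_⟩
  have h2 := two_cos_th hs
  have h3 := th_mem hs
  have hpi := Real.pi_pos
  have h4 : 0 < OneArm.pcylW (Real.exp s) (2 * n) := by
    have h5 := (h' (th s) h3 n hn).1
    rw [h2] at h5
    have h6 : (0:ℝ) < ((2 * n : ℕ):ℝ) := by
      have : 0 < 2 * n := by omega
      exact_mod_cast this
    exact lt_of_lt_of_le (by positivity) h5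
  refine ⟨h4, ?_⟩
  have h5 := h (2 * n) (by omega) (π / 3) ⟨by positivity, by linarith⟩ (th s) h3
  have h6 := OneArm.pcylW_hk (th s) n
  rw [h2, abs_of_pos h4] at h6
  rw [← h6] at h5
  have h7 : Real.log (OneArm.pcylW (Real.exp s) (2 * n)) - Lam s * Real.log ((2 * n : ℕ):ℝ) =
      Real.log (OneArm.pcylW (Real.exp s) (2 * n)) +
        3 / (4 * π ^ 2) * (th s ^ 2 - (π / 3) ^ 2) * Real.log ((2 * n : ℕ):ℝ) := by
    unfold Lam
    field_simp
    ring
  rw [h7]
  refine h5.trans ?_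
  rw [mul_assoc]
  exact mul_le_mul_of_nonneg_left (th_lip hs) hC.le

/-- (F2) for even radii -/
theorem lip_even : ∃ a C : ℝ, 0 < a ∧ a ≤ 1 / 2 ∧ 0 < C ∧ ∀ s : ℝ, |s| ≤ a → ∀ m : ℕ, 1 ≤ m →
    |Real.log (ex 0 (2 * m) (fun ω => Real.exp (s * cc 0 (2 * m) ω))) - Lam s * Real.log ((2 * m : ℕ):ℝ)| ≤
      C * |s| := by
  obtain ⟨C, hC, h⟩ := pcylW_lip
  obtain ⟨a, K, ha, hK, hb⟩ := box_cyl_exp
  refine ⟨min a (min (1 / 2) (1 / (2 * K))), 2 * K + C + 2, by positivity,
    (min_le_right _ _).trans (min_le_left _ _), by positivity, fun s hs m hm => ?_⟩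
  have hs1 : |s| ≤ a := hs.trans (min_le_left _ _)
  have hs2 : |s| ≤ 1 / 2 := hs.trans ((min_le_right _ _).trans (min_le_left _ _))
  have hs3 : K * |s| ≤ 1 / 2 := by
    have h1 : |s| ≤ 1 / (2 * K) := hs.trans ((min_le_right _ _).trans (min_le_right _ _))
    rw [le_div_iff₀ (by positivity)] at h1
    linarith
  obtain ⟨h1, h2⟩ := h s hs2 (4 * m + 1) (by omega)
  have h3 := hb s hs1 m hm
  set e : ℝ := ex 0 (2 * m) (fun ω => Real.exp (s * cc 0 (2 * m) ω)) with he
  have he0 : 0 < e := by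
    rw [he, ex_eq]
    exact Ex_pos fun _ _ => Real.exp_pos _
  set p : ℝ := OneArm.pcylW (Real.exp s) (2 * (4 * m + 1)) with hp
  -- log p - log e
  have h4 : |Real.log p - Real.log e| ≤ 2 * (K * |s|) := by
    rw [← Real.log_div h1.ne' he0.ne']
    have h5 : |p / e - 1| ≤ K * |s| := by
      rw [div_sub_one he0.ne', abs_div, abs_of_pos he0, div_le_iff₀ he0]
      exact h3
    have h6 : 0 < p / e := by positivity
    have hu := K * |s|
    have h7 := abs_le.1 h5
    have hnn : 0 ≤ K * |s| := by positivity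
    rw [abs_le]
    constructor
    · have h8 := Real.one_sub_inv_le_log_of_pos h6
      have h9 : (p / e)⁻¹ ≤ 1 + 2 * (K * |s|) := by
        rw [inv_le_comm₀ h6 (by positivity)]
        have h10 : 1 - K * |s| ≤ p / e := by linarith [h7.1]
        refine le_trans ?_ h10
        rw [inv_le_iff_one_le_mul₀ (by positivity)]
        nlinarith
      linarith
    · have h8 := Real.log_le_sub_one_of_pos h6
      linarith [h7.2]
  -- logarithms of the radii
  have hm1 : (1:ℝ) ≤ m := by exact_mod_cast hm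
  have h5 : |Real.log ((2 * (4 * m + 1) : ℕ):ℝ) - Real.log ((2 * m : ℕ):ℝ)| ≤ 2 := by
    rw [← Real.log_div (by positivity) (by positivity)]
    have e1 : (1:ℝ) ≤ ((2 * (4 * m + 1) : ℕ):ℝ) / ((2 * m : ℕ):ℝ) := by
      rw [one_le_div (by positivity)]
      push_cast; linarith
    have e2 : ((2 * (4 * m + 1) : ℕ):ℝ) / ((2 * m : ℕ):ℝ) ≤ 5 := by
      rw [div_le_iff₀ (by positivity)]
      push_cast; linarith
    rw [abs_of_nonneg (Real.log_nonneg e1)]
    calc Real.log (((2 * (4 * m + 1) : ℕ):ℝ) / ((2 * m : ℕ):ℝ)) ≤ Real.log 5 :=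
          Real.log_le_log (by positivity) e2
      _ ≤ 2 := by
          rw [Real.log_le_iff_le_exp (by norm_num)]
          have e3 := Real.exp_one_gt_d9
          have e4 : Real.exp 2 = Real.exp 1 * Real.exp 1 := by rw [← Real.exp_add]; norm_num
          rw [e4]
          nlinarith
  have h6 := Lam_lip hs2
  have h7 : Real.log e - Lam s * Real.log ((2 * m : ℕ):ℝ) =
      -(Real.log p - Real.log e) + (Real.log p - Lam s * Real.log ((2 * (4 * m + 1) : ℕ):ℝ)) +
        Lam s * (Real.log ((2 * (4 * m + 1) : ℕ):ℝ) - Real.log ((2 * m : ℕ):ℝ)) := by ring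
  rw [h7]
  refine (abs_add_three _ _ _).trans ?_
  rw [abs_neg, abs_mul]
  have h8 : |Lam s| * |Real.log ((2 * (4 * m + 1) : ℕ):ℝ) - Real.log ((2 * m : ℕ):ℝ)| ≤ |s| * 2 :=
    mul_le_mul h6 h5 (abs_nonneg _) (abs_nonneg _)
  calc _ ≤ 2 * (K * |s|) + C * |s| + |s| * 2 := add_le_add (add_le_add h4 h2) h8
    _ = _ := by ring

lemma ex_exp_outer {n n' : ℕ} (h : n ≤ n') (s : ℝ) :
    (0 ≤ s → ex 0 n (fun ω => Real.exp (s * cc 0 n ω)) ≤
      Real.exp s * ex 0 n' (fun ω => Real.exp (s * cc 0 n' ω))) ∧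
    (s ≤ 0 → Real.exp s * ex 0 n' (fun ω => Real.exp (s * cc 0 n' ω)) ≤
      ex 0 n (fun ω => Real.exp (s * cc 0 n ω))) := by
  have key : Real.exp s * ex 0 n' (fun ω => Real.exp (s * cc 0 n' ω)) =
      ex 0 n' (fun ω => Real.exp (s * ((cc 0 n' ω + 1 : ℕ) : ℝ))) := by
    rw [ex_eq, ex_eq, ← Ex_mul]
    apply Ex_congr
    intro ω _
    rw [← Real.exp_add]
    congr 1
    push_cast
    ring
  have hr := ex_restrict (le_refl 0) h (fun k => Real.exp (s * (k : ℝ)))
  constructor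
  · intro hs
    rw [key, ← hr, ex_eq, ex_eq]
    apply Ex_mono
    intro ω _
    apply Real.exp_le_exp.2
    exact mul_le_mul_of_nonneg_left (by exact_mod_cast cc_outer (Nat.zero_le _) h ω) hs
  · intro hs
    rw [key, ← hr, ex_eq, ex_eq]
    apply Ex_mono
    intro ω _
    apply Real.exp_le_exp.2
    exact mul_le_mul_of_nonpos_left (by exact_mod_cast cc_outer (Nat.zero_le _) h ω) hs

/-- (F2) -/
theorem nest_lip : ∃ a C : ℝ, 0 < a ∧ 0 < C ∧ ∀ s : ℝ, |s| ≤ a → ∀ n : ℕ, 2 ≤ n →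
    |Real.log (ex 0 n (fun ω => Real.exp (s * cc 0 n ω))) - Lam s * Real.log n| ≤ C * |s| := by
  obtain ⟨a, C, ha, ha2, hC, h⟩ := lip_even
  refine ⟨a, C + 2, ha, by positivity, fun s hs n hn => ?_⟩
  have hs2 : |s| ≤ 1 / 2 := hs.trans ha2
  have hL := Lam_lip hs2
  have hpos : ∀ n : ℕ, 0 < ex 0 n (fun ω => Real.exp (s * cc 0 n ω)) := fun n => by
    rw [ex_eq]
    exact Ex_pos fun _ _ => Real.exp_pos _
  rcases Nat.even_or_odd' n with ⟨m, rfl | hm⟩
  · have h1 := h s hs m (by omega)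
    refine h1.trans ?_
    nlinarith [abs_nonneg s]
  · have hm0 : 1 ≤ m := by omega
    have h1 := h s hs m hm0
    have h2 := h s hs (m + 1) (by omega)
    have e1 : 2 * (m + 1) = n + 1 := by omega
    rw [e1] at h2
    have hn0 : (0:ℝ) < n := by
      have : 0 < n := by omega
      exact_mod_cast this
    have hm1 : (1:ℝ) ≤ m := by exact_mod_cast hm0
    -- logs
    have l1 : |Real.log ((2 * m : ℕ):ℝ) - Real.log n| ≤ 1 := by
      rw [abs_sub_comm, ← Real.log_div (by positivity) (by positivity)]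
      have e2 : (1:ℝ) ≤ (n:ℝ) / ((2 * m : ℕ):ℝ) := by
        rw [one_le_div (by positivity), hm]
        push_cast; linarith
      have e3 : (n:ℝ) / ((2 * m : ℕ):ℝ) ≤ 2 := by
        rw [div_le_iff₀ (by positivity), hm]
        push_cast; linarith
      rw [abs_of_nonneg (Real.log_nonneg e2)]
      have e4 := Real.log_le_sub_one_of_pos (show (0:ℝ) < (n:ℝ) / ((2 * m : ℕ):ℝ) by positivity)
      linarith
    have l2 : |Real.log ((n + 1 : ℕ):ℝ) - Real.log n| ≤ 1 := by
      rw [← Real.log_div (by positivity) (by positivity)]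
      have e2 : (1:ℝ) ≤ ((n + 1 : ℕ):ℝ) / n := by
        rw [one_le_div hn0]
        push_cast; linarith
      have e3 : ((n + 1 : ℕ):ℝ) / n ≤ 2 := by
        rw [div_le_iff₀ hn0]
        have : (1:ℝ) ≤ n := by
          have : 1 ≤ n := by omega
          exact_mod_cast this
        push_cast; linarith
      rw [abs_of_nonneg (Real.log_nonneg e2)]
      have e4 := Real.log_le_sub_one_of_pos (show (0:ℝ) < ((n + 1 : ℕ):ℝ) / n by positivity)
      linarith
    have l1' : |Lam s * (Real.log ((2 * m : ℕ):ℝ) - Real.log n)| ≤ |s| := by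
      rw [abs_mul]
      calc |Lam s| * |Real.log ((2 * m : ℕ):ℝ) - Real.log n| ≤ |s| * 1 :=
            mul_le_mul hL l1 (abs_nonneg _) (abs_nonneg _)
        _ = |s| := mul_one _
    have l2' : |Lam s * (Real.log ((n + 1 : ℕ):ℝ) - Real.log n)| ≤ |s| := by
      rw [abs_mul]
      calc |Lam s| * |Real.log ((n + 1 : ℕ):ℝ) - Real.log n| ≤ |s| * 1 :=
            mul_le_mul hL l2 (abs_nonneg _) (abs_nonneg _)
        _ = |s| := mul_one _
    obtain ⟨a1, a2⟩ := ex_exp_outer (show 2 * m ≤ n by omega) s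
    obtain ⟨b1, b2⟩ := ex_exp_outer (show n ≤ n + 1 by omega) s
    have p0 := hpos n
    have p1 := hpos (2 * m)
    have p2 := hpos (n + 1)
    rw [abs_le] at h1 h2 l1' l2'
    rcases le_total 0 s with h0 | h0
    · have a3 := Real.log_le_log p1 (a1 h0)
      have b3 := Real.log_le_log p0 (b1 h0)
      rw [Real.log_mul (Real.exp_pos _).ne' (hpos _).ne', Real.log_exp] at a3 b3
      rw [abs_of_nonneg h0] at *
      rw [abs_le]
      constructor <;> nlinarith
    · have a3 := Real.log_le_log (mul_pos (Real.exp_pos s) p0) (a2 h0)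
      have b3 := Real.log_le_log (mul_pos (Real.exp_pos s) p2) (b2 h0)
      rw [Real.log_mul (Real.exp_pos _).ne' (hpos _).ne', Real.log_exp] at a3 b3
      rw [abs_of_nonpos h0] at *
      rw [abs_le]
      constructor <;> nlinarith

end H82Nest
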