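import Pool.Agent.Helper82.Nest.Clt
import Pool.Agent.Helper82.Nest.Lip

/-! Mean and central limit theorem for the number of colour changes. -/

namespace H82Nest
open MeasureTheory ProbabilityTheory Filter Topology Real OneArmW Finset H47Perc
open Pool.Agent.Helper69.RSW (P P_le_one P_nonneg P_congr)

/-- the mean -/
theorem nest_mean : ∃ C : ℝ, ∀ n : ℕ, 1 ≤ n → |ex 0 n (fun ω => (cc 0 n ω : ℝ)) - nuM * Real.log n| ≤ C := by
  obtain ⟨a, C, ha, hC, h⟩ := nest_lip
  refine ⟨max C (ex 0 1 (fun ω => (cc 0 1 ω : ℝ))), fun n hn => ?_⟩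
  rcases Nat.lt_or_ge n 2 with h2 | h2
  · have : n = 1 := by omega
    subst this
    rw [Nat.cast_one, Real.log_one, mul_zero, sub_zero, abs_of_nonneg]
    · exact le_max_right _ _
    · rw [ex_eq]
      exact Ex_nonneg fun _ _ => Nat.cast_nonneg _
  · refine le_trans ?_ (le_max_left _ _)
    have hl : (0:ℝ) < Real.log 2 := Real.log_pos (by norm_num)
    -- derivative of the moment generating function
    have h3 : HasDerivAt (fun s : ℝ => ex 0 n (fun ω => Real.exp (s * cc 0 n ω)))
        (ex 0 n (fun ω => (cc 0 n ω : ℝ))) 0 := by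
      unfold ex
      apply HasDerivAt.div_const
      apply HasDerivAt.fun_sum
      intro ω _
      have h4 : HasDerivAt (fun s : ℝ => Real.exp (s * cc 0 n ω)) (Real.exp (0 * cc 0 n ω) * (1 * cc 0 n ω)) 0 :=
        ((hasDerivAt_id (0:ℝ)).mul_const _).exp
      simpa using h4
    have h5 : ex 0 n (fun ω => Real.exp (0 * cc 0 n ω)) = 1 := by
      simp only [zero_mul, Real.exp_zero]
      rw [ex_eq, Ex_const]
    have h6 := h3.log (by rw [h5]; exact one_ne_zero)
    rw [h5, div_one] at h6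
    have h7 := (Lam_hasDerivAt hl).mul_const (Real.log n)
    rw [Lam1_zero] at h7
    have h8 := h6.sub h7
    have h9 := h8.le_of_lip' hC.le (by
      have h10 : ∀ᶠ s : ℝ in 𝓝 0, |s| ≤ a := by
        have := (continuous_abs.tendsto (0:ℝ))
        rw [abs_zero] at this
        exact this.eventually (eventually_le_nhds ha)
      filter_upwards [h10] with s hs
      have h11 := h s hs n h2
      show ‖(Real.log (ex 0 n (fun ω => Real.exp (s * cc 0 n ω))) - Lam s * Real.log n) -
        (Real.log (ex 0 n (fun ω => Real.exp (0 * cc 0 n ω))) - Lam 0 * Real.log n)‖ ≤ C * ‖s - 0‖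
      rw [h5, Real.log_one, Lam_zero, zero_mul, sub_zero, sub_zero, sub_zero]
      exact h11)
    exact h9

/-- the law of the number of colour changes -/
noncomputable def lawP (n : ℕ) : ProbabilityMeasure ℝ :=
  ⟨law (edgesIn (fullAnn ((0:ℕ):ℤ) n)) (fun ω => (cc 0 n ω : ℝ)), inferInstance⟩

lemma sm_exp (t : ℝ) : StronglyMeasurable (fun x : ℝ => Real.exp (t * x)) := by
  apply Measurable.stronglyMeasurable
  fun_prop

theorem nest_clt_meas : Tendsto (fun n : ℕ => (lawP (n + 2)).map
    (f := fun x => (x - nuM * Real.log ((n + 2 : ℕ) : ℝ)) / Real.sqrt (Real.log ((n + 2 : ℕ) : ℝ)))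
      (by fun_prop)) atTop (𝓝 gaussP) := by
  obtain ⟨a, C, ha, hC, h⟩ := nest_lip
  apply nest_clt' (ℓ := fun n : ℕ => Real.log ((n + 2 : ℕ) : ℝ)) (a := a) (C := C)
  · have h1 : Tendsto (fun n : ℕ => ((n + 2 : ℕ) : ℝ)) atTop atTop :=
      tendsto_natCast_atTop_atTop.comp (tendsto_add_atTop_nat 2)
    exact Real.tendsto_log_atTop.comp h1
  · intro n t
    exact law_integrable _ _ _ (sm_exp t)
  · exact ha
  · refine Eventually.of_forall fun n s hs => ?_
    have h1 : ∫ x, Real.exp (s * x) ∂(lawP (n + 2) : Measure ℝ) =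
        ex 0 (n + 2) (fun ω => Real.exp (s * cc 0 (n + 2) ω)) := law_integral _ _ _ (sm_exp s)
    rw [h1]
    exact h s hs (n + 2) (by omega)

/-- **CLT**: distribution functions -/
theorem nest_cdf (x : ℝ) : Tendsto (fun n : ℕ => P (edgesIn (fullAnn ((0:ℕ):ℤ) n))
    (fun ω => (cc 0 n ω : ℝ) ≤ nuM * Real.log n + x * Real.sqrt (nuV * Real.log n))) atTop
    (𝓝 ((gaussianReal 0 1).real (Set.Iic x))) := by
  rw [← tendsto_add_atTop_iff_nat 2]
  have h1 := ProbabilityMeasure.tendsto_measure_of_null_frontier_of_tendsto' nest_clt_meas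
    (E := Set.Iic (x * Real.sqrt nuV)) (by
      rw [frontier_Iic, gaussP_coe]
      have : NullSingletonClass (gaussianReal 0 nuV') := nullSingletonClass_gaussianReal (by
        intro h
        have h2 : (nuV' : ℝ) = 0 := by rw [h]; rfl
        have h3 : (nuV' : ℝ) = nuV := rfl
        rw [h3] at h2
        exact nuV_pos.ne' h2)
      exact measure_singleton _)
  have hg : (gaussP : Measure ℝ) (Set.Iic (x * Real.sqrt nuV)) = ENNReal.ofReal ((gaussianReal 0 1).real (Set.Iic x)) := by
    have e1 : gaussianReal 0 nuV' = (gaussianReal 0 1).map (fun y => Real.sqrt nuV * y) := by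
      rw [gaussianReal_map_const_mul, mul_zero]
      congr 1
      rw [mul_one]
      apply NNReal.eq
      show nuV = Real.sqrt nuV ^ 2
      rw [Real.sq_sqrt nuV_pos.le]
    have hsq : 0 < Real.sqrt nuV := Real.sqrt_pos.2 nuV_pos
    rw [gaussP_coe, e1, Measure.map_apply (by fun_prop) measurableSet_Iic]
    have e2 : (fun y => Real.sqrt nuV * y) ⁻¹' Set.Iic (x * Real.sqrt nuV) = Set.Iic x := by
      ext y
      rw [Set.mem_preimage, Set.mem_Iic, Set.mem_Iic, mul_comm x]
      exact mul_le_mul_iff_right₀ hsq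
    rw [e2, Measure.real, ENNReal.ofReal_toReal (measure_ne_top _ _)]
  rw [hg] at h1
  have h2 := (ENNReal.tendsto_toReal ENNReal.ofReal_ne_top).comp h1
  rw [ENNReal.toReal_ofReal (by positivity)] at h2
  refine h2.congr fun n => ?_
  have hl : 0 < Real.log ((n + 2 : ℕ) : ℝ) := by
    apply Real.log_pos
    have : (0:ℝ) ≤ n := Nat.cast_nonneg n
    push_cast
    linarith
  have hs : 0 < Real.sqrt (Real.log ((n + 2 : ℕ) : ℝ)) := Real.sqrt_pos.2 hl
  show ENNReal.toReal ((((lawP (n + 2)).map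
    (f := fun x => (x - nuM * Real.log ((n + 2 : ℕ) : ℝ)) / Real.sqrt (Real.log ((n + 2 : ℕ) : ℝ)))
      (by fun_prop) : ProbabilityMeasure ℝ) : Measure ℝ) (Set.Iic (x * Real.sqrt nuV))) = _
  rw [ProbabilityMeasure.toMeasure_map, Measure.map_apply (by fun_prop) measurableSet_Iic]
  show ENNReal.toReal (law (edgesIn (fullAnn ((0:ℕ):ℤ) ((n + 2 : ℕ):ℤ))) (fun ω => (cc 0 (n + 2) ω : ℝ)) _) = _
  rw [law_apply _ _ (measurableSet_Iic.preimage (by fun_prop)), ENNReal.toReal_ofReal (P_nonneg _ _)]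
  apply P_congr
  intro ω _
  rw [Set.mem_preimage, Set.mem_Iic, div_le_iff₀ hs, Real.sqrt_mul nuV_pos.le]
  constructor <;> intro h <;> linarith

end H82Nest
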