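import Pool.Agent.Helper82.Nest.Defs

/-! MODULE (C): the law of the two states. -/

set_option warn.classDefReducibility false

namespace H82Nest
open Finset H47Perc Cyl H92Link Filter IPC H81Tile
open IP (St)

theorem exC_states {n N : ℕ} (hn : 1 ≤ n) (hN : N % 2 = 1) (f : St → St → ℝ) :
    exC n N (fun ω => f (sgU n N ω) (sgD n N ω)) =
    (1 / 2 : ℝ) ^ (2 * n * N + 2 * n * N) * ∑ A ∈ (range N ×ˢ range (2 * n)).powerset,
      ∑ B ∈ (range N ×ˢ range (2 * n)).powerset,
        f (mact (2 * n) (fun j i => decide ((j, i) ∈ A)) N (bst (2 * n)))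
          (mact (2 * n) (fun j i => decide ((j, i) ∈ B)) N (bst (2 * n))) := by
  classical
  have hbij := conf_bij (N := N) hn
  have hcard : 2 ^ #(cylE n (-(N:ℤ)) N) = 2 ^ (2 * n * N) * 2 ^ (2 * n * N) := by
    have h1 := Finset.card_bij (s := (cylE n (-(N:ℤ)) N).powerset)
      (t := (range N ×ˢ range (2 * n)).powerset ×ˢ (range N ×ˢ range (2 * n)).powerset)
      (fun ω _ => (AA n N ω, BB n N ω)) (fun ω hω => hbij.1 hω)
      (fun ω hω ω' hω' h => hbij.2.1 hω hω' h)
      (fun q hq => by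
        obtain ⟨ω, h1, h2⟩ := hbij.2.2 hq
        exact ⟨ω, h1, h2⟩)
    rw [card_powerset, card_product, card_powerset, card_product, card_range, card_range] at h1
    rw [h1, mul_comm N (2 * n)]
  rw [← sum_product']
  rw [← Finset.sum_bij (s := (cylE n (-(N:ℤ)) N).powerset)
      (t := (range N ×ˢ range (2 * n)).powerset ×ˢ (range N ×ˢ range (2 * n)).powerset)
      (f := fun ω => f (sgU n N ω) (sgD n N ω))
      (fun ω _ => (AA n N ω, BB n N ω)) (fun ω hω => hbij.1 hω)
      (fun ω hω ω' hω' h => hbij.2.1 hω hω' h)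
      (fun q hq => by
        obtain ⟨ω, h1, h2⟩ := hbij.2.2 hq
        exact ⟨ω, h1, h2⟩)
      (fun ω hω => by
        rw [mem_powerset] at hω
        show f (sgU n N ω) (sgD n N ω) = f _ _
        rw [mact_AA hN hω, mact_BB hN hω]
        rfl)]
  unfold exC
  have h2 : ((2:ℝ) ^ #(cylE n (-(N:ℤ)) N)) = 2 ^ (2 * n * N) * 2 ^ (2 * n * N) := by
    exact_mod_cast hcard
  rw [h2, one_div, inv_pow, pow_add]
  rw [div_eq_inv_mul]

/-- (C) the law of the two states -/
theorem law_tendsto {n : ℕ} (hn : 1 ≤ n) (f : St → St → ℝ) :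
    Tendsto (fun K : ℕ => exC n (2 * K + 1) (fun ω => f (sgU n (2 * K + 1) ω) (sgD n (2 * K + 1) ω)))
      atTop (nhds (bil f (P (2 * n) (fun _ => 0)) (P (2 * n) (fun _ => 0)))) := by
  have h1 := count_limit f (bst_W (2 * n)) (bst_W (2 * n))
  have h2 : Tendsto (fun K : ℕ => 2 * K + 1) atTop atTop :=
    tendsto_atTop_mono (fun K => (by show K ≤ 2 * K + 1; omega)) tendsto_id
  refine (h1.comp h2).congr fun K => ?_
  exact (exC_states (N := 2 * K + 1) hn (by omega) f).symm

end H82Nest
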