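import Pool.Agent.Helper82.Nest.Tools

/-! Two variables whose difference has a conditional exponential tail have comparable exponential moments. -/

set_option linter.unusedSectionVars false

namespace H82Nest
open Finset H47Perc
open Pool.Agent.Helper69.RSW (P P_nonneg P_mono P_congr P_sum P_le_one P_true P_false P_add_of_disjoint Dep P_indep)

section
variable {E : Type*} [DecidableEq E]

/-- `D ≤ X + 1` and the conditional tail of `X` given `D` is exponential -/
structure TailCond (F : Finset E) (X D : Finset E → ℕ) (ρ : ℝ) : Prop where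
  le : ∀ ω ⊆ F, D ω ≤ X ω + 1
  tail : ∀ d i : ℕ, P F (fun ω => D ω = d ∧ d + 2 * i < X ω) ≤ ρ ^ i * P F (fun ω => D ω = d)

variable {F : Finset E} {X D : Finset E → ℕ} {ρ : ℝ}

lemma Ex_fiber_ind (f : ℕ → ℝ) (B : Finset E → Prop) [DecidablePred B] :
    Ex F (fun ω => f (D ω) * (if B ω then 1 else 0)) =
      ∑ d ∈ (F.powerset).image D, f d * P F (fun ω => D ω = d ∧ B ω) := by
  classical
  have h1 : Ex F (fun ω => f (D ω) * (if B ω then 1 else 0)) =
      Ex F (fun ω => ∑ d ∈ (F.powerset).image D, f d * (if (D ω = d ∧ B ω) then 1 else 0)) := by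
    apply Ex_congr
    intro ω hω
    rw [sum_eq_single_of_mem (D ω) (mem_image_of_mem _ (mem_powerset.2 hω))]
    · congr 1
      by_cases h : B ω
      · rw [if_pos h, if_pos ⟨rfl, h⟩]
      · rw [if_neg h, if_neg (fun h' => h h'.2)]
    · intro i _ hi
      rw [if_neg (fun h => hi h.1.symm), mul_zero]
  rw [h1, Ex_sum]
  apply sum_congr rfl
  intro i _
  rw [Ex_mul, Ex_ind]

lemma Ex_fiber_D (f : ℕ → ℝ) :
    Ex F (fun ω => f (D ω)) = ∑ d ∈ (F.powerset).image D, f d * P F (fun ω => D ω = d) := by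
  classical
  exact Ex_fiber F D _ (fun ω hω => mem_image_of_mem _ (mem_powerset.2 hω)) _ f (fun _ _ => rfl)

theorem TailCond.pow_le (h : TailCond F X D ρ) {w : ℝ} (hw : 0 < w) (hw1 : w ≤ 1) :
    w * Ex F (fun ω => w ^ X ω) ≤ Ex F (fun ω => w ^ D ω) := by
  rw [← Ex_mul]
  apply Ex_mono
  intro ω hω
  calc w * w ^ X ω = w ^ (X ω + 1) := by rw [pow_succ]; ring
    _ ≤ w ^ D ω := pow_le_pow_of_le_one hw.le hw1 (h.le ω hω)

theorem TailCond.pow_ge (h : TailCond F X D ρ) {w : ℝ} (hw : 0 < w) (hw1 : w ≤ 1) :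
    (1 - ρ) * w ^ 2 * Ex F (fun ω => w ^ D ω) ≤ Ex F (fun ω => w ^ X ω) := by
  classical
  have h1 : Ex F (fun ω => w ^ (D ω + 2) * (if X ω ≤ D ω + 2 then 1 else 0)) ≤ Ex F (fun ω => w ^ X ω) := by
    apply Ex_mono
    intro ω _
    by_cases h2 : X ω ≤ D ω + 2
    · rw [if_pos h2, mul_one]
      exact pow_le_pow_of_le_one hw.le hw1 h2
    · rw [if_neg h2, mul_zero]
      positivity
  refine le_trans ?_ h1
  rw [Ex_fiber_ind (f := fun d => w ^ (d + 2)) (B := fun ω => X ω ≤ D ω + 2), Ex_fiber_D (f := fun d => w ^ d),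
    mul_sum]
  apply sum_le_sum
  intro d _
  have h3 : P F (fun ω => D ω = d) = P F (fun ω => D ω = d ∧ X ω ≤ D ω + 2) +
      P F (fun ω => D ω = d ∧ d + 2 * 1 < X ω) := by
    rw [← P_add_of_disjoint]
    · apply P_congr
      intro ω _
      constructor
      · intro h4
        rcases Nat.lt_or_ge (d + 2) (X ω) with h5 | h5
        · right; exact ⟨h4, by omega⟩
        · left; exact ⟨h4, by omega⟩
      · rintro (h4 | h4)
        · exact h4.1
        · exact h4.1
    · rintro ω _ ⟨h4, h5⟩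
      omega
  have h4 := h.tail d 1
  rw [pow_one] at h4
  have h5 : (1 - ρ) * P F (fun ω => D ω = d) ≤ P F (fun ω => D ω = d ∧ X ω ≤ D ω + 2) := by linarith
  calc (1 - ρ) * w ^ 2 * (w ^ d * P F (fun ω => D ω = d)) = w ^ (d + 2) * ((1 - ρ) * P F (fun ω => D ω = d)) := by
        rw [pow_add]; ring
    _ ≤ _ := mul_le_mul_of_nonneg_left h5 (by positivity)

theorem geo_tail {ρ : ℝ} (h0 : 0 < ρ) (h1 : ρ < 1) : ∃ a K : ℝ, 0 < a ∧ 0 < K ∧ ∀ s : ℝ, 0 ≤ s → s ≤ a →
    ∀ M : ℕ, (Real.exp s - 1) * ∑ j ∈ range M, Real.exp (s * j) * ρ ^ ((j - 1) / 2) ≤ K * s := by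
  set τ : ℝ := Real.sqrt ρ with hτ
  have hτ0 : 0 < τ := Real.sqrt_pos.2 h0
  have hτ1 : τ < 1 := by
    rw [hτ, Real.sqrt_lt' one_pos]; simpa using h1
  have hτ2 : τ * τ = ρ := Real.mul_self_sqrt h0.le
  set a : ℝ := -Real.log τ / 2 with ha
  have ha0 : 0 < a := by
    rw [ha]
    have := Real.log_neg hτ0 hτ1
    linarith
  set q : ℝ := Real.exp a * τ with hq
  have hq0 : 0 < q := by positivity
  have hq1 : q < 1 := by
    have h2 : q = Real.exp (Real.log τ / 2) := by
      rw [hq, ha]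
      nth_rewrite 2 [← Real.exp_log hτ0]
      rw [← Real.exp_add]
      congr 1
      ring
    rw [h2, Real.exp_lt_one_iff]
    have := Real.log_neg hτ0 hτ1
    linarith
  refine ⟨a, Real.exp a * (ρ⁻¹ * (1 - q)⁻¹), ha0, by have : 0 < 1 - q := by linarith
                                                     positivity, fun s hs hsa M => ?_⟩
  have hsum : ∑ j ∈ range M, Real.exp (s * j) * ρ ^ ((j - 1) / 2) ≤ ρ⁻¹ * (1 - q)⁻¹ := by
    have h2 : ∀ j ∈ range M, Real.exp (s * j) * ρ ^ ((j - 1) / 2) ≤ ρ⁻¹ * q ^ j := by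
      intro j _
      have h3 : Real.exp (s * j) ≤ Real.exp a ^ j := by
        rw [← Real.exp_nat_mul, mul_comm (j:ℝ) a]
        exact Real.exp_le_exp.2 (mul_le_mul_of_nonneg_right hsa (Nat.cast_nonneg _))
      have h4 : ρ ^ ((j - 1) / 2) ≤ ρ⁻¹ * τ ^ j := by
        have h5 : ρ ^ ((j - 1) / 2) = τ ^ (2 * ((j - 1) / 2)) := by
          rw [pow_mul, pow_two, hτ2]
        have h6 : τ ^ (2 * ((j - 1) / 2) + 2) ≤ τ ^ j := by
          apply pow_le_pow_of_le_one hτ0.le hτ1.le
          omega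
        rw [pow_add, ← h5, pow_two, hτ2] at h6
        rw [le_inv_mul_iff₀ h0]
        linarith
      calc Real.exp (s * j) * ρ ^ ((j - 1) / 2) ≤ Real.exp a ^ j * (ρ⁻¹ * τ ^ j) :=
            mul_le_mul h3 h4 (by positivity) (by positivity)
        _ = ρ⁻¹ * q ^ j := by rw [hq, mul_pow]; ring
    refine (sum_le_sum h2).trans ?_
    rw [← mul_sum]
    apply mul_le_mul_of_nonneg_left _ (by positivity)
    rw [geom_sum_eq hq1.ne]
    rw [div_le_iff_of_neg (by linarith)]
    have : 0 < q ^ M := by positivity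
    have h7 : (1 - q)⁻¹ * (q - 1) = -1 := by
      have : (1 - q) ≠ 0 := by linarith
      field_simp
      ring
    rw [h7]
    linarith
  have hexp : Real.exp s - 1 ≤ s * Real.exp a := by
    have h3 : Real.exp s - 1 ≤ s * Real.exp s := by
      have h4 := Real.add_one_le_exp (-s)
      rw [Real.exp_neg] at h4
      have h5 := Real.exp_pos s
      have h6 : (-s + 1) * Real.exp s ≤ 1 := by
        calc (-s + 1) * Real.exp s ≤ (Real.exp s)⁻¹ * Real.exp s := mul_le_mul_of_nonneg_right h4 h5.le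
          _ = 1 := inv_mul_cancel₀ h5.ne'
      linarith
    exact h3.trans (mul_le_mul_of_nonneg_left (Real.exp_le_exp.2 hsa) hs)
  have h8 : 0 ≤ Real.exp s - 1 := by
    have := Real.add_one_le_exp s
    linarith
  have hnn : 0 ≤ ρ⁻¹ * (1 - q)⁻¹ := by
    have : 0 < 1 - q := by linarith
    positivity
  calc (Real.exp s - 1) * ∑ j ∈ range M, Real.exp (s * j) * ρ ^ ((j - 1) / 2)
      ≤ (Real.exp s - 1) * (ρ⁻¹ * (1 - q)⁻¹) := mul_le_mul_of_nonneg_left hsum h8
    _ ≤ (s * Real.exp a) * (ρ⁻¹ * (1 - q)⁻¹) := mul_le_mul_of_nonneg_right hexp hnn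
    _ = _ := by ring

lemma exp_sub_one_sum (s : ℝ) (z M : ℕ) (hz : z ≤ M) :
    Real.exp (s * z) - 1 = (Real.exp s - 1) * ∑ j ∈ range M, Real.exp (s * j) * (if j < z then 1 else 0) := by
  classical
  have h1 : ∑ j ∈ range M, Real.exp (s * j) * (if j < z then (1:ℝ) else 0) = ∑ j ∈ range z, Real.exp s ^ j := by
    rw [← sum_filter_add_sum_filter_not (range M) (fun j => j < z)]
    have e1 : ∑ x ∈ range M with ¬ x < z, Real.exp (s * x) * (if x < z then (1:ℝ) else 0) = 0 := by
      apply sum_eq_zero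
      intro x hx
      rw [if_neg (mem_filter.1 hx).2, mul_zero]
    rw [e1, add_zero]
    have e2 : (range M).filter (fun j => j < z) = range z := by
      ext j
      rw [mem_filter, mem_range, mem_range]
      omega
    rw [e2]
    apply sum_congr rfl
    intro j hj
    rw [if_pos (mem_range.1 hj), mul_one, ← Real.exp_nat_mul, mul_comm]
  rw [h1, mul_geom_sum, ← Real.exp_nat_mul, mul_comm (z:ℝ) s]

/-- the exponential moments are comparable, with an error linear in `s` -/
theorem TailCond.exp_close (h0 : 0 < ρ) (h1 : ρ < 1) {a K : ℝ}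
    (haK : ∀ s : ℝ, 0 ≤ s → s ≤ a →
      ∀ M : ℕ, (Real.exp s - 1) * ∑ j ∈ range M, Real.exp (s * j) * ρ ^ ((j - 1) / 2) ≤ K * s)
    (h : TailCond F X D ρ) {s : ℝ} (hs : |s| ≤ a) :
    |Ex F (fun ω => Real.exp (s * X ω)) - Ex F (fun ω => Real.exp (s * D ω))| ≤
      K * |s| * Ex F (fun ω => Real.exp (s * D ω)) := by
  classical
  obtain ⟨M, hM⟩ : ∃ M : ℕ, ∀ ω ⊆ F, 1 + (X ω - D ω) ≤ M := by
    refine ⟨(F.powerset).sup (fun ω => 1 + (X ω - D ω)), fun ω hω => ?_⟩
    exact le_sup (f := fun ω => 1 + (X ω - D ω)) (mem_powerset.2 hω)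
  -- pointwise bound
  have hpt : ∀ ω ⊆ F, |Real.exp (s * X ω) - Real.exp (s * D ω)| ≤
      Real.exp (s * D ω) * ((Real.exp |s| - 1) *
        ∑ j ∈ range M, Real.exp (|s| * j) * (if j < 1 + (X ω - D ω) then 1 else 0)) := by
    intro ω hω
    rw [← exp_sub_one_sum |s| (1 + (X ω - D ω)) M (hM ω hω)]
    have h2 : Real.exp (s * X ω) = Real.exp (s * D ω) * Real.exp (s * ((X ω : ℝ) - D ω)) := by
      rw [← Real.exp_add]
      congr 1
      ring
    rw [h2]
    have h3 : Real.exp (s * D ω) * Real.exp (s * ((X ω : ℝ) - D ω)) - Real.exp (s * D ω) =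
        Real.exp (s * D ω) * (Real.exp (s * ((X ω : ℝ) - D ω)) - 1) := by ring
    rw [h3, abs_mul, abs_of_pos (Real.exp_pos _)]
    apply mul_le_mul_of_nonneg_left _ (Real.exp_pos _).le
    have h4 : |s * ((X ω : ℝ) - D ω)| ≤ |s| * ((1 + (X ω - D ω) : ℕ) : ℝ) := by
      rw [abs_mul]
      apply mul_le_mul_of_nonneg_left _ (abs_nonneg _)
      have h5 := h.le ω hω
      rcases Nat.le_total (D ω) (X ω) with h6 | h6
      · push_cast [h6]
        rw [abs_of_nonneg (by
          have : (D ω : ℝ) ≤ X ω := by exact_mod_cast h6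
          linarith)]
        linarith
      · rw [Nat.sub_eq_zero_of_le h6, add_zero, Nat.cast_one, abs_le]
        have e1 : (D ω : ℝ) ≤ X ω + 1 := by exact_mod_cast h5
        have e2 : (X ω : ℝ) ≤ D ω := by exact_mod_cast h6
        constructor <;> linarith
    have h7 : ∀ x y : ℝ, |x| ≤ y → |Real.exp x - 1| ≤ Real.exp y - 1 := by
      intro x y hxy
      rw [abs_le] at hxy ⊢
      have e1 := Real.exp_le_exp.2 hxy.2
      have e2 := Real.add_one_le_exp x
      have e3 := Real.add_one_le_exp (-y)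
      have e4 : Real.exp (-y) ≤ Real.exp x := Real.exp_le_exp.2 hxy.1
      refine ⟨?_, by linarith⟩
      -- 1 - exp x ≤ 1 - exp (-y) ≤ exp y - 1
      have e5 : 2 ≤ Real.exp y + Real.exp (-y) := by
        have := Real.add_one_le_exp y
        linarith
      linarith
    exact h7 _ _ h4
  have hsum : |Ex F (fun ω => Real.exp (s * X ω)) - Ex F (fun ω => Real.exp (s * D ω))| ≤
      Ex F (fun ω => Real.exp (s * D ω) * ((Real.exp |s| - 1) *
        ∑ j ∈ range M, Real.exp (|s| * j) * (if j < 1 + (X ω - D ω) then 1 else 0))) := by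
    rw [← Ex_sub, abs_le]
    constructor
    · have h2 := Ex_mono (F := F) (f := fun ω => -(Real.exp (s * D ω) * ((Real.exp |s| - 1) *
        ∑ j ∈ range M, Real.exp (|s| * j) * (if j < 1 + (X ω - D ω) then 1 else 0))))
        (g := fun ω => Real.exp (s * X ω) - Real.exp (s * D ω)) (fun ω hω => (abs_le.1 (hpt ω hω)).1)
      have h3 : Ex F (fun ω => -(Real.exp (s * D ω) * ((Real.exp |s| - 1) *
        ∑ j ∈ range M, Real.exp (|s| * j) * (if j < 1 + (X ω - D ω) then 1 else 0)))) =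
        -Ex F (fun ω => Real.exp (s * D ω) * ((Real.exp |s| - 1) *
        ∑ j ∈ range M, Real.exp (|s| * j) * (if j < 1 + (X ω - D ω) then 1 else 0))) := by
        have := Ex_mul F (-1) (fun ω => Real.exp (s * D ω) * ((Real.exp |s| - 1) *
          ∑ j ∈ range M, Real.exp (|s| * j) * (if j < 1 + (X ω - D ω) then 1 else 0)))
        simpa using this
      rw [h3] at h2
      exact h2
    · exact Ex_mono (fun ω hω => (abs_le.1 (hpt ω hω)).2)
  refine hsum.trans ?_
  -- exchange the sums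
  have h2 : Ex F (fun ω => Real.exp (s * D ω) * ((Real.exp |s| - 1) *
        ∑ j ∈ range M, Real.exp (|s| * j) * (if j < 1 + (X ω - D ω) then 1 else 0))) =
      (Real.exp |s| - 1) * ∑ j ∈ range M, Real.exp (|s| * j) *
        Ex F (fun ω => Real.exp (s * D ω) * (if j < 1 + (X ω - D ω) then 1 else 0)) := by
    have e1 : (fun ω => Real.exp (s * D ω) * ((Real.exp |s| - 1) *
        ∑ j ∈ range M, Real.exp (|s| * j) * (if j < 1 + (X ω - D ω) then (1:ℝ) else 0))) =
        fun ω => (Real.exp |s| - 1) * ∑ j ∈ range M, Real.exp (|s| * j) *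
          (Real.exp (s * D ω) * (if j < 1 + (X ω - D ω) then 1 else 0)) := by
      funext ω
      rw [mul_sum, mul_sum, mul_sum]
      apply sum_congr rfl
      intro j _
      ring
    rw [e1, Ex_mul, Ex_sum]
    congr 1
    apply sum_congr rfl
    intro j _
    rw [Ex_mul]
  rw [h2]
  have h3 : ∀ j : ℕ, Ex F (fun ω => Real.exp (s * D ω) * (if j < 1 + (X ω - D ω) then 1 else 0)) ≤
      ρ ^ ((j - 1) / 2) * Ex F (fun ω => Real.exp (s * D ω)) := by
    intro j
    rw [Ex_fiber_ind (f := fun d : ℕ => Real.exp (s * d)) (B := fun ω => j < 1 + (X ω - D ω)),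
      Ex_fiber_D (f := fun d : ℕ => Real.exp (s * d)), mul_sum]
    apply sum_le_sum
    intro d _
    have h4 : P F (fun ω => D ω = d ∧ j < 1 + (X ω - D ω)) ≤ ρ ^ ((j - 1) / 2) * P F (fun ω => D ω = d) := by
      rcases Nat.eq_zero_or_pos j with rfl | hj
      · simp only [Nat.zero_sub, Nat.zero_div, pow_zero, one_mul]
        exact P_mono (fun ω _ h => h.1)
      · refine le_trans (P_mono (fun ω _ h4 => ?_)) (h.tail d ((j - 1) / 2))
        exact ⟨h4.1, by have := h4.2; have h5 := h4.1; omega⟩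
    calc _ ≤ Real.exp (s * d) * (ρ ^ ((j - 1) / 2) * P F (fun ω => D ω = d)) :=
          mul_le_mul_of_nonneg_left h4 (Real.exp_pos _).le
      _ = _ := by ring
  have h5 : 0 ≤ Real.exp |s| - 1 := by
    have := Real.add_one_le_exp |s|
    have := abs_nonneg s
    linarith
  have hD : 0 ≤ Ex F (fun ω => Real.exp (s * D ω)) := Ex_nonneg (fun _ _ => (Real.exp_pos _).le)
  calc (Real.exp |s| - 1) * ∑ j ∈ range M, Real.exp (|s| * j) *
        Ex F (fun ω => Real.exp (s * D ω) * (if j < 1 + (X ω - D ω) then 1 else 0))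
      ≤ (Real.exp |s| - 1) * ∑ j ∈ range M, Real.exp (|s| * j) *
        (ρ ^ ((j - 1) / 2) * Ex F (fun ω => Real.exp (s * D ω))) := by
        apply mul_le_mul_of_nonneg_left _ h5
        apply sum_le_sum
        intro j _
        exact mul_le_mul_of_nonneg_left (h3 j) (Real.exp_pos _).le
    _ = ((Real.exp |s| - 1) * ∑ j ∈ range M, Real.exp (|s| * j) * ρ ^ ((j - 1) / 2)) *
        Ex F (fun ω => Real.exp (s * D ω)) := by
        rw [mul_assoc, sum_mul]
        congr 1
        apply sum_congr rfl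
        intro j _
        ring
    _ ≤ K * |s| * Ex F (fun ω => Real.exp (s * D ω)) :=
        mul_le_mul_of_nonneg_right (haK |s| (abs_nonneg _) hs M) hD

end

end H82Nest
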