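import Pool.Agent.Helper18.Nest.LoopsLe
import Pool.Agent.Helper12.Nest.ExploreB
import Pool.Agent.Helper18.Nest.LoopsGe
import Pool.Agent.Helper82.Nest.Law
import Pool.Agent.Helper82.Nest.Tail
import Pool.Agent.Helper18.OneArm.FinalW
import Pool.Agent.Helper82.OneArmW.Clt

/-! From the cylinder to the box of radius `2 m`. -/

set_option warn.classDefReducibility false

namespace H82Nest
open Finset H47Perc Cyl H92Link Filter Topology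
open Pool.Agent.Helper69.RSW (P P_nonneg P_mono)

lemma ex_boxC (r : ℕ) (f : Finset (Sym2 (ℤ × ℤ)) → ℝ) : ex 0 r f = Ex (edgesIn (QB r)) f := by
  rw [ex_eq]
  have : fullAnn ((0:ℕ):ℤ) (r:ℤ) = QB r := by
    rw [Nat.cast_zero, fullAnn_zero]
    rfl
  rw [this]

lemma ex_pw_box {n N r : ℕ} (hn : 2 * r < n) (hN : 2 * r ≤ N) (g : Finset (Sym2 (ℤ × ℤ)) → ℝ) :
    Ex (cylE n (-(N:ℤ)) N) (fun ω => g (pw n (QB r) ω)) = ex 0 r g := by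
  rw [ex_boxC]
  apply Ex_pw (by omega) (emb_box_h (by omega))
  intro z hz
  unfold QB at hz
  rw [mem_box] at hz
  omega

/-- the tail condition -/
theorem tail_cond {ρ : ℝ}
    (hρ : ∀ m n N d i : ℕ, 1 ≤ m → 4 * m < n → n ≤ 16 * m → 2 * n ≤ N →
    P (cylE n (-(N:ℤ)) N) (fun ω => cc 0 (2 * m) (pw n (QB (2 * m)) ω) = d ∧
      ¬ ∃ p, ∃ a ≤ d + 2 * i, ∃ b ≤ d + 2 * i, Reach (lft n ω) (SS (N + 1)) (Lf n 0) a p ∧
        Reach (lft n ω) (SS (N + 1)) (Lf n 1) b p) ≤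
    ρ ^ i * P (cylE n (-(N:ℤ)) N) (fun ω => cc 0 (2 * m) (pw n (QB (2 * m)) ω) = d))
    {m n N : ℕ} (hm : 1 ≤ m) (h1 : 4 * m < n) (h2 : n ≤ 16 * m) (h3 : 2 * n ≤ N) (hN : N % 2 = 1) :
    TailCond (cylE n (-(N:ℤ)) N) (fun ω => nl n N ω / 2) (fun ω => cc 0 (2 * m) (pw n (QB (2 * m)) ω)) ρ where
  le := fun ω hω => loops_ge (by omega) (by omega) hN (by omega) hω
  tail := fun d i => by
    refine le_trans (P_mono fun ω hω h => ⟨h.1, ?_⟩) (hρ m n N d i hm h1 h2 h3)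
    rintro ⟨p, a, ha, b, hb, hA, hB⟩
    have h4 := loops_le (by omega) hN hω hA hB
    have h5 := h.2
    omega

lemma tendsto_hw {n : ℕ} (hn : 1 ≤ n) (w : ℝ) :
    Tendsto (fun K : ℕ => Ex (cylE n (-((2 * K + 1 : ℕ):ℤ)) ((2 * K + 1 : ℕ):ℤ)) (fun ω => w ^ (nl n (2 * K + 1) ω / 2)))
      atTop (𝓝 (OneArm.pcylW w (2 * n))) := law_tendsto hn (OneArm.hw w (2 * n))

/-- comparison for `w ≤ 1` -/
theorem box_cyl : ∃ ρ : ℝ, 0 < ρ ∧ ρ < 1 ∧ ∀ w : ℝ, 0 < w → w ≤ 1 → ∀ m : ℕ, 1 ≤ m →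
    w * OneArm.pcylW w (2 * (4 * m + 1)) ≤ ex 0 (2 * m) (fun ω => w ^ cc 0 (2 * m) ω) ∧
    (1 - ρ) * w ^ 2 * ex 0 (2 * m) (fun ω => w ^ cc 0 (2 * m) ω) ≤ OneArm.pcylW w (2 * (4 * m + 1)) := by
  obtain ⟨ρ, h0, h1, hρ⟩ := explore
  refine ⟨ρ, h0, h1, fun w hw hw1 m hm => ?_⟩
  have hlim := tendsto_hw (n := 4 * m + 1) (by omega) w
  have key : ∀ K : ℕ, 4 * m + 1 ≤ K → TailCond (cylE (4 * m + 1) (-((2 * K + 1 : ℕ):ℤ)) ((2 * K + 1 : ℕ):ℤ))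
      (fun ω => nl (4 * m + 1) (2 * K + 1) ω / 2) (fun ω => cc 0 (2 * m) (pw (4 * m + 1) (QB (2 * m)) ω)) ρ :=
    fun K hK => tail_cond hρ hm (by omega) (by omega) (by omega) (by omega)
  have hD : ∀ K : ℕ, 4 * m + 1 ≤ K → Ex (cylE (4 * m + 1) (-((2 * K + 1 : ℕ):ℤ)) ((2 * K + 1 : ℕ):ℤ))
      (fun ω => w ^ cc 0 (2 * m) (pw (4 * m + 1) (QB (2 * m)) ω)) = ex 0 (2 * m) (fun ω => w ^ cc 0 (2 * m) ω) :=
    fun K hK => ex_pw_box (g := fun ω => w ^ cc 0 (2 * m) ω) (by omega) (by omega)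
  constructor
  · refine le_of_tendsto (hlim.const_mul w) ?_
    filter_upwards [eventually_ge_atTop (4 * m + 1)] with K hK
    rw [← hD K hK]
    exact (key K hK).pow_le hw hw1
  · refine ge_of_tendsto hlim ?_
    filter_upwards [eventually_ge_atTop (4 * m + 1)] with K hK
    rw [← hD K hK]
    exact (key K hK).pow_ge hw hw1

/-- comparison for exponential moments near `w = 1` -/
theorem box_cyl_exp : ∃ a K : ℝ, 0 < a ∧ 0 < K ∧ ∀ s : ℝ, |s| ≤ a → ∀ m : ℕ, 1 ≤ m →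
    |OneArm.pcylW (Real.exp s) (2 * (4 * m + 1)) - ex 0 (2 * m) (fun ω => Real.exp (s * cc 0 (2 * m) ω))| ≤
      K * |s| * ex 0 (2 * m) (fun ω => Real.exp (s * cc 0 (2 * m) ω)) := by
  obtain ⟨ρ, h0, h1, hρ⟩ := explore
  obtain ⟨a, K, ha, hK, haK⟩ := geo_tail h0 h1
  refine ⟨a, K, ha, hK, fun s hs m hm => ?_⟩
  have hlim := tendsto_hw (n := 4 * m + 1) (by omega) (Real.exp s)
  have key : ∀ K : ℕ, 4 * m + 1 ≤ K → TailCond (cylE (4 * m + 1) (-((2 * K + 1 : ℕ):ℤ)) ((2 * K + 1 : ℕ):ℤ))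
      (fun ω => nl (4 * m + 1) (2 * K + 1) ω / 2) (fun ω => cc 0 (2 * m) (pw (4 * m + 1) (QB (2 * m)) ω)) ρ :=
    fun K hK => tail_cond hρ hm (by omega) (by omega) (by omega) (by omega)
  refine le_of_tendsto ((hlim.sub_const (ex 0 (2 * m) (fun ω => Real.exp (s * cc 0 (2 * m) ω)))).abs) ?_
  filter_upwards [eventually_ge_atTop (4 * m + 1)] with K' hK'
  have hD : Ex (cylE (4 * m + 1) (-((2 * K' + 1 : ℕ):ℤ)) ((2 * K' + 1 : ℕ):ℤ))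
      (fun ω => Real.exp (s * cc 0 (2 * m) (pw (4 * m + 1) (QB (2 * m)) ω))) =
      ex 0 (2 * m) (fun ω => Real.exp (s * cc 0 (2 * m) ω)) :=
    ex_pw_box (g := fun ω => Real.exp (s * cc 0 (2 * m) ω)) (by omega) (by omega)
  have h3 := (key K' hK').exp_close h0 h1 haK hs
  rw [hD] at h3
  have h4 : (fun ω => Real.exp s ^ (nl (4 * m + 1) (2 * K' + 1) ω / 2)) =
      fun ω => Real.exp (s * ((nl (4 * m + 1) (2 * K' + 1) ω / 2 : ℕ) : ℝ)) := by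
    funext ω
    rw [← Real.exp_nat_mul, mul_comm]
  rw [h4]
  exact h3

end H82Nest
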