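import Pool.Agent.Helper92.Bulk.LinkC
import Pool.Agent.Helper92.Bulk.OneArm
import Pool.Agent.Helper18.OneArm.LoopForm

/-!
Number of colour changes in critical bond percolation on the square lattice: definitions.

Points: vertices `(z, false)` and faces `(z, true)` of the square lattice (the face `z` is the unit square
with lower left corner `z`).  A path moves freely along open edges (from vertex to vertex) and across closed
edges (from face to face); a colour change is a step between a face and one of its four corners.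
-/

set_option warn.classDefReducibility false

namespace H82Nest
open Finset H47Perc

/-- vertices `(z, false)` and faces `(z, true)` -/
abbrev Pt := (ℤ × ℤ) × Bool

/-- the vertex `u` is a corner of the face `f` -/
def Cor (u f : ℤ × ℤ) : Prop := (u.1 = f.1 ∨ u.1 = f.1 + 1) ∧ (u.2 = f.2 ∨ u.2 = f.2 + 1)

/-- the point `p` is reached from the set `A` by a path inside `S` with `k` colour changes;
`O` is the set of open edges -/
inductive Reach (O : Set (Sym2 (ℤ × ℤ))) (S A : Set Pt) : ℕ → Pt → Prop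
  | start {p : Pt} : p ∈ A → p ∈ S → Reach O S A 0 p
  | opn {k : ℕ} {u v : ℤ × ℤ} : Reach O S A k (u, false) → lattice.Adj u v → s(u, v) ∈ O →
      (v, false) ∈ S → Reach O S A k (v, false)
  | cls {k : ℕ} {f g u v : ℤ × ℤ} : Reach O S A k (f, true) → lattice.Adj u v → s(u, v) ∉ O →
      Cor u f → Cor v f → Cor u g → Cor v g → (g, true) ∈ S → Reach O S A k (g, true)
  | dn {k : ℕ} {u f : ℤ × ℤ} : Reach O S A k (u, false) → Cor u f → (f, true) ∈ S →
      Reach O S A (k + 1) (f, true)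
  | up {k : ℕ} {u f : ℤ × ℤ} : Reach O S A k (f, true) → Cor u f → (u, false) ∈ S →
      Reach O S A (k + 1) (u, false)

/-- the vertices and faces of the annulus `m ≤ |z| ≤ n` -/
def AS (m n : ℤ) : Set Pt := {p | (p.2 = false → m ≤ nrm p.1 ∧ nrm p.1 ≤ n) ∧
  (p.2 = true → ∀ u, Cor u p.1 → m ≤ nrm u ∧ nrm u ≤ n)}

/-- the vertices with `|z| = m` -/
def Sph (m : ℤ) : Set Pt := {p | p.2 = false ∧ nrm p.1 = m}

/-- least number of colour changes of a path in the annulus `m ≤ |z| ≤ n` from a vertex with `|z| = m` to a vertex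
with `|z| = n`; for `m = 0`: from the origin to distance `n` in the box `[-n, n]²` -/
noncomputable def cc (m n : ℕ) (ω : Finset (Sym2 (ℤ × ℤ))) : ℕ :=
  sInf {k | ∃ v : ℤ × ℤ, nrm v = n ∧ Reach (ω : Set (Sym2 (ℤ × ℤ))) (AS m n) (Sph m) k (v, false)}

/-- expectation for critical bond percolation in the annulus `m ≤ |z| ≤ n` -/
noncomputable def ex (m n : ℕ) (f : Finset (Sym2 (ℤ × ℤ)) → ℝ) : ℝ :=
  (∑ ω ∈ (edgesIn (fullAnn m n)).powerset, f ω) / 2 ^ #(edgesIn (fullAnn (m:ℤ) n))

/-! ### cylinder -/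

/-- the vertices and faces of height between `-M` and `M` -/
def SS (M : ℤ) : Set Pt := {p | (p.2 = false → -M ≤ p.1.1 + p.1.2 ∧ p.1.1 + p.1.2 ≤ M) ∧
  (p.2 = true → -M ≤ p.1.1 + p.1.2 + 1 ∧ p.1.1 + p.1.2 + 1 ≤ M)}

/-- the lifts of the origin to the double cover of the cylinder: `b = 0` even, `b = 1` odd -/
def Lf (n : ℕ) (b : ℤ) : Set Pt := {p | ∃ k : ℤ, p = (Cyl.per n (2 * k + b) (0, 0), false)}

/-- upper state -/
noncomputable def sgU (n N : ℕ) (ω : Finset (Sym2 (ℤ × ℤ))) : IP.St :=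
  H81Tile.mact (2 * n) (fun j i => H92Link.tc n ω ((i:ℤ), (j:ℤ))) (N + 1) (IPC.top (2 * n))

/-- lower state -/
noncomputable def sgD (n N : ℕ) (ω : Finset (Sym2 (ℤ × ℤ))) : IP.St :=
  H81Tile.mact (2 * n) (fun j i => !H92Link.tc n ω ((i:ℤ), -1 - (j:ℤ))) (N + 1) (IPC.top (2 * n))

/-- number of loops (in the double cover) around the marked site -/
noncomputable def nl (n N : ℕ) (ω : Finset (Sym2 (ℤ × ℤ))) : ℕ :=
  OneArm.nodd (2 * n) (sgU n N ω) (sgD n N ω)

/-- the box `[-r, r]²` -/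
noncomputable def QB (r : ℕ) : Finset (ℤ × ℤ) := box (-(r:ℤ)) r (-r) r

/-- expectation on the cylinder -/
noncomputable def exC (n N : ℕ) (f : Finset (Sym2 (ℤ × ℤ)) → ℝ) : ℝ :=
  (∑ ω ∈ (Cyl.cylE n (-(N:ℤ)) N).powerset, f ω) / 2 ^ #(Cyl.cylE n (-(N:ℤ)) N)

end H82Nest
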