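import Pool.Agent.Helper82.Nest.Reach

/-! Locality, concatenation and reversal of paths with colour changes; the primal path along a path. -/

namespace H82Nest
open Finset H47Perc

/-- the edge `s(u, v)` touches the set `B`: an endpoint is in `B`, or both endpoints are corners of a face of `B` -/
def TchB (B : Set Pt) (e : Sym2 (ℤ × ℤ)) : Prop :=
  (∃ u ∈ e, ((u, false) : Pt) ∈ B) ∨ ∃ f, ((f, true) : Pt) ∈ B ∧ ∀ u ∈ e, Cor u f

/-- one direction of locality -/
lemma reach_local_aux {O O' : Set (Sym2 (ℤ × ℤ))} {S A B : Set Pt} {j : ℕ}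
    (hO : ∀ e, TchB B e → (e ∈ O ↔ e ∈ O')) {k : ℕ} {p : Pt}
    (hB : ∀ i ≤ j, ∀ q, Reach O S A i q → q ∈ B) (h : Reach O S A k p) (hk : k ≤ j) :
    Reach O' S A k p := by
  induction h with
  | start hp hs => exact Reach.start hp hs
  | @opn k u v h hadj ho hs ih =>
    refine Reach.opn (ih hk) hadj ((hO _ ?_).1 ho) hs
    left
    exact ⟨u, Sym2.mem_mk_left _ _, hB k hk _ h⟩
  | @cls k f g u v h hadj ho c1 c2 c3 c4 hs ih =>
    refine Reach.cls (ih hk) hadj (fun h' => ho ((hO _ ?_).2 h')) c1 c2 c3 c4 hs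
    right
    refine ⟨f, hB k hk _ h, fun x hx => ?_⟩
    rcases Sym2.mem_iff.1 hx with rfl | rfl
    · exact c1
    · exact c2
  | dn h hc hs ih => exact Reach.dn (ih (by omega)) hc hs
  | up h hc hs ih => exact Reach.up (ih (by omega)) hc hs

lemma reach_local_aux' {O O' : Set (Sym2 (ℤ × ℤ))} {S A B : Set Pt} {j : ℕ}
    (hO : ∀ e, TchB B e → (e ∈ O ↔ e ∈ O')) {k : ℕ} {p : Pt}
    (hB : ∀ i ≤ j, ∀ q, Reach O S A i q → q ∈ B) (h : Reach O' S A k p) (hk : k ≤ j) :
    Reach O S A k p := by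
  induction h with
  | start hp hs => exact Reach.start hp hs
  | @opn k u v h hadj ho hs ih =>
    refine Reach.opn (ih hk) hadj ((hO _ ?_).2 ho) hs
    left
    exact ⟨u, Sym2.mem_mk_left _ _, hB k hk _ (ih hk)⟩
  | @cls k f g u v h hadj ho c1 c2 c3 c4 hs ih =>
    refine Reach.cls (ih hk) hadj (fun h' => ho ((hO _ ?_).1 h')) c1 c2 c3 c4 hs
    right
    refine ⟨f, hB k hk _ (ih hk), fun x hx => ?_⟩
    rcases Sym2.mem_iff.1 hx with rfl | rfl
    · exact c1
    · exact c2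
  | dn h hc hs ih => exact Reach.dn (ih (by omega)) hc hs
  | up h hc hs ih => exact Reach.up (ih (by omega)) hc hs

/-- locality: if two configurations agree on the edges touching the ball of radius `j` then the reached points
are the same up to cost `j` -/
theorem reach_local {O O' : Set (Sym2 (ℤ × ℤ))} {S A B : Set Pt} {j : ℕ}
    (hO : ∀ e, TchB B e → (e ∈ O ↔ e ∈ O')) (hB : ∀ i ≤ j, ∀ q, Reach O S A i q → q ∈ B) {k : ℕ} (hk : k ≤ j)
    {p : Pt} : Reach O S A k p ↔ Reach O' S A k p :=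
  ⟨fun h => reach_local_aux hO hB h hk, fun h => reach_local_aux' hO hB h hk⟩

/-- concatenation -/
lemma Reach.append {O : Set (Sym2 (ℤ × ℤ))} {S A B : Set Pt} {j k : ℕ} {q : Pt} (h2 : Reach O S B k q)
    (h1 : ∀ p ∈ B, p ∈ S → Reach O S A j p) : Reach O S A (j + k) q := by
  induction h2 with
  | start hp hs => exact h1 _ hp hs
  | opn _ hadj ho hs ih => exact Reach.opn ih hadj ho hs
  | cls _ hadj ho c1 c2 c3 c4 hs ih => exact Reach.cls ih hadj ho c1 c2 c3 c4 hs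
  | dn _ hc hs ih => exact Reach.dn ih hc hs
  | up _ hc hs ih => exact Reach.up ih hc hs

/-- reversal -/
lemma Reach.rev {O : Set (Sym2 (ℤ × ℤ))} {S A : Set Pt} {k : ℕ} {p : Pt} (h : Reach O S A k p) :
    ∃ a ∈ A, Reach O S {p} k a := by
  induction h with
  | @start p hp hs => exact ⟨p, hp, Reach.start rfl hs⟩
  | @opn k u v h hadj ho hs ih =>
    obtain ⟨a, ha, hr⟩ := ih
    refine ⟨a, ha, ?_⟩
    have h1 : Reach O S {((v, false) : Pt)} 0 (u, false) :=
      Reach.opn (Reach.start rfl hs) hadj.symm (by rw [Sym2.eq_swap]; exact ho) h.mem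
    have h2 := hr.append (j := 0) (A := {((v, false) : Pt)}) (fun p hp _ => by
      rw [Set.mem_singleton_iff] at hp
      subst hp
      exact h1)
    rwa [zero_add] at h2
  | @cls k f g u v h hadj ho c1 c2 c3 c4 hs ih =>
    obtain ⟨a, ha, hr⟩ := ih
    refine ⟨a, ha, ?_⟩
    have h1 : Reach O S {((g, true) : Pt)} 0 (f, true) :=
      Reach.cls (Reach.start rfl hs) hadj ho c3 c4 c1 c2 h.mem
    have h2 := hr.append (j := 0) (A := {((g, true) : Pt)}) (fun p hp _ => by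
      rw [Set.mem_singleton_iff] at hp
      subst hp
      exact h1)
    rwa [zero_add] at h2
  | @dn k u f h hc hs ih =>
    obtain ⟨a, ha, hr⟩ := ih
    refine ⟨a, ha, ?_⟩
    have h1 : Reach O S {((f, true) : Pt)} 1 (u, false) := Reach.up (Reach.start rfl hs) hc h.mem
    have h2 := hr.append (j := 1) (A := {((f, true) : Pt)}) (fun p hp _ => by
      rw [Set.mem_singleton_iff] at hp
      subst hp
      exact h1)
    rwa [add_comm] at h2
  | @up k u f h hc hs ih =>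
    obtain ⟨a, ha, hr⟩ := ih
    refine ⟨a, ha, ?_⟩
    have h1 : Reach O S {((u, false) : Pt)} 1 (f, true) := Reach.dn (Reach.start rfl hs) hc h.mem
    have h2 := hr.append (j := 1) (A := {((u, false) : Pt)}) (fun p hp _ => by
      rw [Set.mem_singleton_iff] at hp
      subst hp
      exact h1)
    rwa [add_comm] at h2

/-- the vertices in or next to `B` -/
def Nb (B : Set Pt) : Set (ℤ × ℤ) := {u | ((u, false) : Pt) ∈ B ∨ ∃ f, ((f, true) : Pt) ∈ B ∧ Cor u f}

/-- the four sides of a face -/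
lemma cor_conn {R : ℤ × ℤ → ℤ × ℤ → Prop} {f : ℤ × ℤ}
    (h : ∀ u v, Cor u f → Cor v f → lattice.Adj u v → R u v) {u v : ℤ × ℤ} (hu : Cor u f) (hv : Cor v f) :
    Relation.ReflTransGen R u v := by
  have hx : ∀ u v : ℤ × ℤ, Cor u f → Cor v f → u.2 = v.2 → Relation.ReflTransGen R u v := by
    intro u v hu hv he
    by_cases h1 : u.1 = v.1
    · rw [Prod.ext h1 he]
    · apply Relation.ReflTransGen.single
      apply h u v hu hv
      right
      refine ⟨he, ?_⟩
      obtain ⟨h2, _⟩ := hu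
      obtain ⟨h3, _⟩ := hv
      rw [abs_eq (by norm_num)]
      omega
  have hy : ∀ u v : ℤ × ℤ, Cor u f → Cor v f → u.1 = v.1 → Relation.ReflTransGen R u v := by
    intro u v hu hv he
    by_cases h1 : u.2 = v.2
    · rw [Prod.ext he h1]
    · apply Relation.ReflTransGen.single
      apply h u v hu hv
      left
      refine ⟨he, ?_⟩
      obtain ⟨_, h2⟩ := hu
      obtain ⟨_, h3⟩ := hv
      rw [abs_eq (by norm_num)]
      omega
  exact (hx u (v.1, u.2) hu ⟨hv.1, hu.2⟩ rfl).trans (hy (v.1, u.2) v ⟨hv.1, hu.2⟩ hv rfl)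

/-- a path inside `B` gives a primal path along the vertices in or next to `B`, inside the domain -/
theorem Reach.primal {O : Set (Sym2 (ℤ × ℤ))} {S A B : Set Pt} {V : Set (ℤ × ℤ)} {j k : ℕ} {p : Pt}
    (hV : ∀ u, ((u, false) : Pt) ∈ S → u ∈ V) (hV' : ∀ f, ((f, true) : Pt) ∈ S → ∀ u, Cor u f → u ∈ V)
    (hA : ∀ a ∈ A, a.2 = false)
    (hB : ∀ i ≤ j, ∀ q, Reach O S A i q → q ∈ B) (h : Reach O S A k p) (hk : k ≤ j) :
    ∃ a : ℤ × ℤ, ((a, false) : Pt) ∈ A ∧ ∀ v, (p = (v, false) ∨ (p.2 = true ∧ Cor v p.1)) →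
      Relation.ReflTransGen (fun x y => lattice.Adj x y ∧ (x ∈ Nb B ∧ x ∈ V) ∧ (y ∈ Nb B ∧ y ∈ V)) a v := by
  induction h with
  | @start p hp hs =>
    obtain ⟨z, b⟩ := p
    have hb : b = false := hA _ hp
    subst hb
    refine ⟨z, hp, fun v hv => ?_⟩
    rcases hv with hv | hv
    · rw [Prod.mk.injEq] at hv
      rw [hv.1]
    · exact absurd hv.1 (by simp)
  | @opn k u v h hadj ho hs ih =>
    obtain ⟨a, ha, hr⟩ := ih hk
    refine ⟨a, ha, fun x hx => ?_⟩
    rcases hx with hx | hx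
    · rw [Prod.mk.injEq] at hx
      obtain ⟨rfl, _⟩ := hx
      refine (hr u (Or.inl rfl)).tail ⟨hadj, ⟨Or.inl (hB k hk _ h), hV _ h.mem⟩,
        ⟨Or.inl (hB k hk _ (Reach.opn h hadj ho hs)), hV _ hs⟩⟩
    · exact absurd hx.1 (by simp)
  | @cls k f g u v h hadj ho c1 c2 c3 c4 hs ih =>
    obtain ⟨a, ha, hr⟩ := ih hk
    refine ⟨a, ha, fun x hx => ?_⟩
    rcases hx with hx | hx
    · rw [Prod.mk.injEq] at hx
      exact absurd hx.2 (by simp)
    · have hg := hB k hk _ (Reach.cls h hadj ho c1 c2 c3 c4 hs)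
      refine (hr u (Or.inr ⟨rfl, c1⟩)).trans (cor_conn (f := g) ?_ c3 hx.2)
      intro y z hy hz hyz
      exact ⟨hyz, ⟨Or.inr ⟨g, hg, hy⟩, hV' g hs y hy⟩, ⟨Or.inr ⟨g, hg, hz⟩, hV' g hs z hz⟩⟩
  | @dn k u f h hc hs ih =>
    obtain ⟨a, ha, hr⟩ := ih (by omega)
    refine ⟨a, ha, fun x hx => ?_⟩
    rcases hx with hx | hx
    · rw [Prod.mk.injEq] at hx
      exact absurd hx.2 (by simp)
    · have hg := hB (k + 1) hk _ (Reach.dn h hc hs)
      refine (hr u (Or.inl rfl)).trans (cor_conn (f := f) ?_ hc hx.2)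
      intro y z hy hz hyz
      exact ⟨hyz, ⟨Or.inr ⟨f, hg, hy⟩, hV' f hs y hy⟩, ⟨Or.inr ⟨f, hg, hz⟩, hV' f hs z hz⟩⟩
  | @up k u f h hc hs ih =>
    obtain ⟨a, ha, hr⟩ := ih (by omega)
    refine ⟨a, ha, fun x hx => ?_⟩
    rcases hx with hx | hx
    · rw [Prod.mk.injEq] at hx
      obtain ⟨rfl, _⟩ := hx
      exact hr u (Or.inr ⟨rfl, hc⟩)
    · exact absurd hx.1 (by simp)

/-! ### reversed counting -/

/-- least number of colour changes of a path in the annulus from `|z| = n` to `|z| = m` -/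
noncomputable def rc (m n : ℕ) (ω : Finset (Sym2 (ℤ × ℤ))) : ℕ :=
  sInf {k | ∃ v : ℤ × ℤ, nrm v = m ∧ Reach (ω : Set (Sym2 (ℤ × ℤ))) (AS m n) (Sph n) k (v, false)}

theorem rc_eq (m n : ℕ) (ω : Finset (Sym2 (ℤ × ℤ))) : rc m n ω = cc m n ω := by
  unfold rc cc
  congr 1
  ext k
  constructor
  · rintro ⟨v, hv, h⟩
    obtain ⟨⟨a, b⟩, ha, hr⟩ := h.rev
    obtain ⟨h1, h2⟩ := ha
    simp only at h1 h2
    subst h1
    refine ⟨a, h2, hr.mono subset_rfl ?_⟩
    rintro p hp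
    rw [Set.mem_singleton_iff] at hp
    subst hp
    exact Sph_v.2 hv
  · rintro ⟨v, hv, h⟩
    obtain ⟨⟨a, b⟩, ha, hr⟩ := h.rev
    obtain ⟨h1, h2⟩ := ha
    simp only at h1 h2
    subst h1
    refine ⟨a, h2, hr.mono subset_rfl ?_⟩
    rintro p hp
    rw [Set.mem_singleton_iff] at hp
    subst hp
    exact Sph_v.2 hv

end H82Nest
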