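import Pool.Agent.Helper82.Nest.Defs

/-! Basic facts on paths with colour changes. -/

namespace H82Nest
open Finset H47Perc

lemma nrm_cor {u v f : ℤ × ℤ} (hu : Cor u f) (hv : Cor v f) : nrm u ≤ nrm v + 1 := by
  obtain ⟨h1, h2⟩ := hu
  obtain ⟨h3, h4⟩ := hv
  rw [nrm_le]
  have h5 : |v.1| ≤ nrm v ∧ |v.2| ≤ nrm v := nrm_le.1 le_rfl
  rw [abs_le, abs_le] at *
  omega

lemma Reach.mem {O : Set (Sym2 (ℤ × ℤ))} {S A : Set Pt} {k : ℕ} {p : Pt} (h : Reach O S A k p) : p ∈ S := by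
  cases h <;> assumption

/-- a path can be read in another configuration, another domain, from another set -/
lemma Reach.congr {O O' : Set (Sym2 (ℤ × ℤ))} {S S' A A' : Set Pt} (hS : S ⊆ S') (hA : A ⊆ A')
    (h1 : ∀ u v, lattice.Adj u v → (u, false) ∈ S → (v, false) ∈ S → s(u, v) ∈ O → s(u, v) ∈ O')
    (h2 : ∀ f g u v, lattice.Adj u v → (f, true) ∈ S → (g, true) ∈ S → Cor u f → Cor v f → Cor u g → Cor v g →
      s(u, v) ∉ O → s(u, v) ∉ O') {k : ℕ} {p : Pt} (h : Reach O S A k p) : Reach O' S' A' k p := by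
  induction h with
  | start hp hs => exact Reach.start (hA hp) (hS hs)
  | opn h hadj ho hs ih => exact Reach.opn ih hadj (h1 _ _ hadj h.mem hs ho) (hS hs)
  | cls h hadj ho c1 c2 c3 c4 hs ih =>
    exact Reach.cls ih hadj (h2 _ _ _ _ hadj h.mem hs c1 c2 c3 c4 ho) c1 c2 c3 c4 (hS hs)
  | dn h hc hs ih => exact Reach.dn ih hc (hS hs)
  | up h hc hs ih => exact Reach.up ih hc (hS hs)

lemma Reach.mono {O : Set (Sym2 (ℤ × ℤ))} {S S' A A' : Set Pt} (hS : S ⊆ S') (hA : A ⊆ A') {k : ℕ} {p : Pt}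
    (h : Reach O S A k p) : Reach O S' A' k p :=
  h.congr hS hA (fun _ _ _ _ _ h => h) (fun _ _ _ _ _ _ _ _ _ _ _ h => h)

lemma AS_v {m n : ℤ} {u : ℤ × ℤ} : ((u, false) : Pt) ∈ AS m n ↔ m ≤ nrm u ∧ nrm u ≤ n := by
  unfold AS
  simp

lemma AS_f {m n : ℤ} {f : ℤ × ℤ} : ((f, true) : Pt) ∈ AS m n ↔ ∀ u, Cor u f → m ≤ nrm u ∧ nrm u ≤ n := by
  unfold AS
  simp

lemma Sph_v {m : ℤ} {u : ℤ × ℤ} : ((u, false) : Pt) ∈ Sph m ↔ nrm u = m := by
  unfold Sph
  simp

lemma Sph_f {m : ℤ} {u : ℤ × ℤ} : ((u, true) : Pt) ∉ Sph m := by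
  unfold Sph
  simp

/-- a configuration can be restricted to the edges of the annulus -/
lemma reach_inter {m n : ℤ} {A : Set Pt} {ω : Finset (Sym2 (ℤ × ℤ))} {k : ℕ} {p : Pt} :
    Reach (ω ∩ edgesIn (fullAnn m n) : Finset (Sym2 (ℤ × ℤ))) (AS m n) A k p ↔
      Reach (ω : Set (Sym2 (ℤ × ℤ))) (AS m n) A k p := by
  have key : ∀ u v, lattice.Adj u v → m ≤ nrm u → nrm u ≤ n → m ≤ nrm v → nrm v ≤ n →
      (s(u, v) ∈ ((ω ∩ edgesIn (fullAnn m n) : Finset (Sym2 (ℤ × ℤ))) : Set (Sym2 (ℤ × ℤ))) ↔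
        s(u, v) ∈ (ω : Set (Sym2 (ℤ × ℤ)))) := by
    intro u v h h1 h2 h3 h4
    rw [mem_coe, mem_coe, mem_inter, mem_edgesIn, mem_fullAnn, mem_fullAnn]
    tauto
  constructor
  · apply Reach.congr subset_rfl subset_rfl
    · intro u v h hu hv
      rw [AS_v] at hu hv
      exact (key u v h hu.1 hu.2 hv.1 hv.2).1
    · intro f g u v h hf _ c1 c2 _ _
      rw [AS_f] at hf
      exact (not_congr (key u v h (hf u c1).1 (hf u c1).2 (hf v c2).1 (hf v c2).2)).1
  · apply Reach.congr subset_rfl subset_rfl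
    · intro u v h hu hv
      rw [AS_v] at hu hv
      exact (key u v h hu.1 hu.2 hv.1 hv.2).2
    · intro f g u v h hf _ c1 c2 _ _
      rw [AS_f] at hf
      exact (not_congr (key u v h (hf u c1).1 (hf u c1).2 (hf v c2).1 (hf v c2).2)).2

lemma cc_inter (m n : ℕ) (ω : Finset (Sym2 (ℤ × ℤ))) : cc m n (ω ∩ edgesIn (fullAnn m n)) = cc m n ω := by
  unfold cc
  congr 1
  ext k
  exact exists_congr fun v => and_congr_right fun _ => reach_inter

/-- along the axis one can always go on, with colour changes -/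
lemma reach_axis {O : Set (Sym2 (ℤ × ℤ))} {m n : ℕ} (j : ℕ) (hj : m + j ≤ n) :
    ∃ k, Reach O (AS m n) (Sph m) k ((((m + j : ℕ) : ℤ), 0), false) := by
  have hn : ∀ x : ℕ, nrm ((x:ℤ), 0) = x := by
    intro x
    unfold nrm
    simp
  induction j with
  | zero =>
    refine ⟨0, Reach.start ?_ ?_⟩
    · rw [Sph_v, hn]; rfl
    · rw [AS_v, hn]
      constructor
      · push_cast; omega
      · exact_mod_cast hj
  | succ j ih =>
    obtain ⟨k, hk⟩ := ih (by omega)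
    refine ⟨k + 1 + 1, Reach.up (f := (((m + j : ℕ) : ℤ), 0)) (Reach.dn hk ?_ ?_) ?_ ?_⟩
    · exact ⟨Or.inl rfl, Or.inl rfl⟩
    · rw [AS_f]
      rintro ⟨u1, u2⟩ ⟨h1, h2⟩
      simp only at h1 h2
      rw [le_nrm, nrm_le]
      simp only [le_abs, abs_le]
      have e : ((m + (j + 1) : ℕ) : ℤ) ≤ n := by exact_mod_cast hj
      push_cast at h1 e ⊢
      omega
    · refine ⟨Or.inr ?_, Or.inl rfl⟩
      push_cast
      ring
    · rw [AS_v, hn]
      constructor
      · push_cast; omega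
      · exact_mod_cast hj

lemma cc_nonempty {m n : ℕ} (h : m ≤ n) (ω : Finset (Sym2 (ℤ × ℤ))) :
    {k | ∃ v : ℤ × ℤ, nrm v = n ∧ Reach (ω : Set (Sym2 (ℤ × ℤ))) (AS m n) (Sph m) k (v, false)}.Nonempty := by
  obtain ⟨k, hk⟩ := reach_axis (O := (ω : Set (Sym2 (ℤ × ℤ)))) (m := m) (n := n) (n - m) (by omega)
  refine ⟨k, _, ?_, hk⟩
  unfold nrm
  simp only [abs_zero]
  rw [show m + (n - m) = n by omega, Nat.abs_cast]
  exact max_eq_left (by positivity)

/-- the minimum is attained -/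
lemma cc_spec {m n : ℕ} (h : m ≤ n) (ω : Finset (Sym2 (ℤ × ℤ))) :
    ∃ v : ℤ × ℤ, nrm v = n ∧ Reach (ω : Set (Sym2 (ℤ × ℤ))) (AS m n) (Sph m) (cc m n ω) (v, false) :=
  Nat.sInf_mem (cc_nonempty h ω)

lemma cc_le {m n k : ℕ} {ω : Finset (Sym2 (ℤ × ℤ))} {v : ℤ × ℤ} (hv : nrm v = n)
    (h : Reach (ω : Set (Sym2 (ℤ × ℤ))) (AS m n) (Sph m) k (v, false)) : cc m n ω ≤ k :=
  Nat.sInf_le ⟨v, hv, h⟩

/-- stopping a path at the distance `n` -/
lemma reach_outer {m n n' : ℤ} {O : Set (Sym2 (ℤ × ℤ))} {A : Set Pt} (hA : A ⊆ AS m n) {k : ℕ} {p : Pt}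
    (h : Reach O (AS m n') A k p) : Reach O (AS m n) A k p ∨
      ∃ j ≤ k + 1, ∃ v, nrm v = n ∧ Reach O (AS m n) A j (v, false) := by
  induction h with
  | start hp hs => exact Or.inl (Reach.start hp (hA hp))
  | @opn k u v h hadj ho hs ih =>
    rcases ih with ih | ih
    · have h1 := ih.mem
      rw [AS_v] at h1 hs
      rcases h1.2.lt_or_eq with h2 | h2
      · left
        refine Reach.opn ih hadj ho ?_
        rw [AS_v]
        exact ⟨hs.1, by have := adj_nrm hadj.symm; omega⟩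
      · right
        exact ⟨k, by omega, u, h2, ih⟩
    · exact Or.inr ih
  | @cls k f g u v h hadj ho c1 c2 c3 c4 hs ih =>
    rcases ih with ih | ih
    · by_cases h1 : ((g, true) : Pt) ∈ AS m n
      · exact Or.inl (Reach.cls ih hadj ho c1 c2 c3 c4 h1)
      · right
        have h2 := ih.mem
        rw [AS_f] at h1 h2 hs
        push Not at h1
        obtain ⟨x, hx, h3⟩ := h1
        have h4 := h3 (hs x hx).1
        have h5 := nrm_cor hx c3
        have h6 := h2 u c1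
        refine ⟨k + 1, le_rfl, u, by omega, Reach.up ih c1 ?_⟩
        rw [AS_v]
        exact h6
    · exact Or.inr ih
  | @dn k u f h hc hs ih =>
    rcases ih with ih | ih
    · have h1 := ih.mem
      rw [AS_v] at h1
      rcases h1.2.lt_or_eq with h2 | h2
      · left
        refine Reach.dn ih hc ?_
        rw [AS_f] at hs ⊢
        intro x hx
        exact ⟨(hs x hx).1, by have := nrm_cor hx hc; omega⟩
      · right
        exact ⟨k, by omega, u, h2, ih⟩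
    · obtain ⟨j, hj, hh⟩ := ih
      exact Or.inr ⟨j, by omega, hh⟩
  | @up k u f h hc hs ih =>
    rcases ih with ih | ih
    · left
      refine Reach.up ih hc ?_
      have h1 := ih.mem
      rw [AS_f] at h1
      rw [AS_v]
      exact h1 u hc
    · obtain ⟨j, hj, hh⟩ := ih
      exact Or.inr ⟨j, by omega, hh⟩

/-- monotonicity in the outer radius -/
theorem cc_outer {m n n' : ℕ} (h : m ≤ n) (h' : n ≤ n') (ω : Finset (Sym2 (ℤ × ℤ))) :
    cc m n ω ≤ cc m n' ω + 1 := by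
  obtain ⟨v, hv, hr⟩ := cc_spec (h.trans h') ω
  have hA : Sph (m:ℤ) ⊆ AS m n := by
    rintro ⟨z, b⟩ ⟨h1, h2⟩
    simp only at h1 h2
    subst h1
    rw [AS_v]
    constructor
    · omega
    · rw [h2]; exact_mod_cast h
  rcases reach_outer (n := n) hA hr with h1 | ⟨j, hj, u, hu, h1⟩
  · have h2 := h1.mem
    rw [AS_v, hv] at h2
    have h3 : n' = n := by
      have : (n':ℤ) ≤ n := h2.2
      omega
    subst h3
    omega
  · exact (cc_le hu h1).trans hj

end H82Nest
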