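import Pool.Agent.Helper82.Nest.Tools
import Pool.Agent.Helper82.Nest.Reach

/-! Restriction of expectations to fewer edges. -/

namespace H82Nest
open Finset H47Perc
open Pool.Agent.Helper69.RSW (P P_nonneg P_mono P_restrict)

section
variable {E : Type*} [DecidableEq E]

lemma Ex_restrict {F G : Finset E} (h : G ⊆ F) (f : Finset E → ℝ) (hf : ∀ ω, f (ω ∩ G) = f ω) :
    Ex F f = Ex G f := by
  classical
  rw [Ex_fiber F (fun ω => ω ∩ G) G.powerset (fun ω _ => mem_powerset.2 inter_subset_right) f f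
      (fun ω _ => (hf ω).symm),
    Ex_fiber G (fun ω => ω ∩ G) G.powerset (fun ω _ => mem_powerset.2 inter_subset_right) f f
      (fun ω _ => (hf ω).symm)]
  apply sum_congr rfl
  intro i _
  congr 1
  apply P_restrict h
  intro S
  simp only [inter_assoc, inter_self]

end

lemma fullAnn_mono {m n m' n' : ℤ} (h : m' ≤ m) (h' : n ≤ n') : fullAnn m n ⊆ fullAnn m' n' := by
  intro z hz
  rw [mem_fullAnn] at hz ⊢
  omega

lemma edgesIn_mono' {S T : Finset (ℤ × ℤ)} (h : S ⊆ T) : edgesIn S ⊆ edgesIn T := by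
  intro e
  induction e using Sym2.ind with
  | _ u v =>
    rw [mem_edgesIn, mem_edgesIn]
    exact fun ⟨h1, h2, h3⟩ => ⟨h h1, h h2, h3⟩

lemma ex_restrict {m n m' n' : ℕ} (h : m' ≤ m) (h' : n ≤ n') (g : ℕ → ℝ) :
    ex m' n' (fun ω => g (cc m n ω)) = ex m n (fun ω => g (cc m n ω)) := by
  rw [ex_eq, ex_eq]
  apply Ex_restrict (edgesIn_mono' (fullAnn_mono (by exact_mod_cast h) (by exact_mod_cast h')))
  intro ω
  rw [cc_inter]

/-- comparison of two radii, antitone function -/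
lemma ex_outer {n n' : ℕ} (h : n ≤ n') {g : ℕ → ℝ} (hg : ∀ k l : ℕ, k ≤ l + 1 → g (l + 1) ≤ g k) :
    ex 0 n' (fun ω => g (cc 0 n' ω + 1)) ≤ ex 0 n (fun ω => g (cc 0 n ω)) := by
  rw [← ex_restrict (le_refl 0) h g, ex_eq, ex_eq]
  exact Ex_mono fun ω _ => hg _ _ (cc_outer (Nat.zero_le _) h ω)

end H82Nest
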