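import Pool.Agent.Helper82.Nest.Defs

/-! Expectation tools. -/

set_option linter.unusedSectionVars false

namespace H82Nest
open Finset H47Perc
open Pool.Agent.Helper69.RSW (P P_nonneg P_mono P_congr P_sum P_le_one P_true P_false P_add_of_disjoint Dep P_indep)

section
variable {E : Type*} [DecidableEq E]

/-- expectation for the uniform measure on the subsets of `F` -/
noncomputable def Ex (F : Finset E) (f : Finset E → ℝ) : ℝ := (∑ ω ∈ F.powerset, f ω) / 2 ^ #F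

lemma Ex_mono {F : Finset E} {f g : Finset E → ℝ} (h : ∀ ω ⊆ F, f ω ≤ g ω) : Ex F f ≤ Ex F g := by
  unfold Ex
  apply div_le_div_of_nonneg_right _ (by positivity)
  exact sum_le_sum fun ω hω => h ω (mem_powerset.1 hω)

lemma Ex_congr {F : Finset E} {f g : Finset E → ℝ} (h : ∀ ω ⊆ F, f ω = g ω) : Ex F f = Ex F g :=
  le_antisymm (Ex_mono fun ω hω => (h ω hω).le) (Ex_mono fun ω hω => (h ω hω).ge)

lemma Ex_const (F : Finset E) (c : ℝ) : Ex F (fun _ => c) = c := by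
  unfold Ex
  rw [sum_const, card_powerset, nsmul_eq_mul]
  push_cast
  field_simp

lemma Ex_mul (F : Finset E) (c : ℝ) (f : Finset E → ℝ) : Ex F (fun ω => c * f ω) = c * Ex F f := by
  unfold Ex
  rw [← mul_sum, mul_div_assoc]

lemma Ex_add (F : Finset E) (f g : Finset E → ℝ) : Ex F (fun ω => f ω + g ω) = Ex F f + Ex F g := by
  unfold Ex
  rw [sum_add_distrib, add_div]

lemma Ex_sub (F : Finset E) (f g : Finset E → ℝ) : Ex F (fun ω => f ω - g ω) = Ex F f - Ex F g := by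
  unfold Ex
  rw [sum_sub_distrib, sub_div]

lemma Ex_sum {ι : Type*} (F : Finset E) (I : Finset ι) (f : ι → Finset E → ℝ) :
    Ex F (fun ω => ∑ i ∈ I, f i ω) = ∑ i ∈ I, Ex F (f i) := by
  unfold Ex
  rw [sum_comm, sum_div]

lemma Ex_nonneg {F : Finset E} {f : Finset E → ℝ} (h : ∀ ω ⊆ F, 0 ≤ f ω) : 0 ≤ Ex F f := by
  have := Ex_mono (F := F) (f := fun _ => 0) (g := f) h
  rwa [Ex_const] at this

lemma Ex_ind (F : Finset E) (A : Finset E → Prop) [DecidablePred A] :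
    Ex F (fun ω => if A ω then 1 else 0) = P F A := by
  unfold Ex P
  rw [← sum_filter, sum_const, nsmul_eq_mul, mul_one]
  congr

lemma Ex_pos {F : Finset E} {f : Finset E → ℝ} (h : ∀ ω ⊆ F, 0 < f ω) : 0 < Ex F f := by
  unfold Ex
  apply div_pos _ (by positivity)
  exact sum_pos (fun ω hω => h ω (mem_powerset.1 hω)) ⟨∅, mem_powerset.2 (empty_subset _)⟩

/-- the expectation of a function of a discrete variable -/
lemma Ex_fiber {ι : Type*} [DecidableEq ι] (F : Finset E) (X : Finset E → ι) (I : Finset ι)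
    (hI : ∀ ω ⊆ F, X ω ∈ I) (f : Finset E → ℝ) (g : ι → ℝ) (h : ∀ ω ⊆ F, f ω = g (X ω)) :
    Ex F f = ∑ i ∈ I, g i * P F (fun ω => X ω = i) := by
  classical
  have h1 : Ex F f = Ex F (fun ω => ∑ i ∈ I, g i * (if X ω = i then 1 else 0)) := by
    apply Ex_congr
    intro ω hω
    rw [h ω hω, sum_eq_single_of_mem (X ω) (hI ω hω)]
    · rw [if_pos rfl, mul_one]
    · intro i _ hi
      rw [if_neg (fun h => hi h.symm), mul_zero]
  rw [h1, Ex_sum]
  apply sum_congr rfl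
  intro i _
  rw [Ex_mul, Ex_ind]

end

lemma ex_eq (m n : ℕ) (f : Finset (Sym2 (ℤ × ℤ)) → ℝ) : ex m n f = Ex (edgesIn (fullAnn m n)) f := rfl

lemma exC_eq (n N : ℕ) (f : Finset (Sym2 (ℤ × ℤ)) → ℝ) : exC n N f = Ex (Cyl.cylE n (-(N:ℤ)) N) f := rfl

open Cyl in
/-- the law of the periodic configuration in an embedded set -/
theorem Ex_pw {n : ℕ} (hn : 1 ≤ n) {S : Finset (ℤ × ℤ)} (hE : Emb n S) {a b : ℤ}
    (hS : ∀ z ∈ S, a ≤ z.1 + z.2 ∧ z.1 + z.2 ≤ b) (g : Finset (Sym2 (ℤ × ℤ)) → ℝ) :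
    Ex (cylE n a b) (fun ω => g (pw n S ω)) = Ex (edgesIn S) g := by
  classical
  rw [Ex_fiber (cylE n a b) (pw n S) (edgesIn S).powerset (fun ω _ => mem_powerset.2 (pw_sub n S ω)) _ g
    (fun _ _ => rfl),
    Ex_fiber (edgesIn S) id (edgesIn S).powerset (fun ω hω => mem_powerset.2 hω) g g (fun _ _ => rfl)]
  apply sum_congr rfl
  intro ω₀ _
  rw [P_pw hn hE hS (fun ω => ω = ω₀), Pool.Agent.Helper69.RSW.perc_half_eq]
  rfl

end H82Nest
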